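import Pool.Agent.ICE.StmtsP
import Pool.Agent.ICL.EQE
import Pool.Agent.ICL.MAX

/-!
# Equality in the isoperimetric inequality for closed polygons (MP_fa01f0_gt), module EQC
-/

set_option autoImplicit false

namespace Pool.Agent.ICE

open Pool.Agent.ICL

namespace M_EQC

/-- The estimate of case 2. -/
theorem est (P c d d2 s : ℝ) (hP : 0 < P) (hc : 0 < c) (hd : 0 < d) (hdd : d ^ 2 = d2)
    (hs : s = d) : ∃ ε m : ℝ, 0 ≤ m ∧ m ^ 2 = d2 / 4 + ε ^ 2 ∧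
      (P + (2 * m - s)) ^ 2 < P ^ 2 + c * ((ε * d - 0) / 2) := by
  obtain ⟨K, hK⟩ : ∃ K, K = 4 * P / d + 4 / d ^ 2 := ⟨_, rfl⟩
  have hKp : 0 < K := by rw [hK]; positivity
  obtain ⟨ε, hε⟩ : ∃ ε, ε = min 1 (c * d / 4 / K) := ⟨_, rfl⟩
  have hεp : 0 < ε := by rw [hε]; exact lt_min one_pos (by positivity)
  have hε1 : ε ≤ 1 := by rw [hε]; exact min_le_left _ _
  have hε2 : ε * K ≤ c * d / 4 := by
    have : ε ≤ c * d / 4 / K := by rw [hε]; exact min_le_right _ _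
    rwa [le_div_iff₀ hKp] at this
  have hd2 : 0 ≤ d2 := by rw [← hdd]; positivity
  have he4 : 0 ≤ d2 / 4 + ε ^ 2 := by positivity
  refine ⟨ε, Real.sqrt (d2 / 4 + ε ^ 2), Real.sqrt_nonneg _, Real.sq_sqrt he4, ?_⟩
  obtain ⟨m, hm⟩ : ∃ m, m = Real.sqrt (d2 / 4 + ε ^ 2) := ⟨_, rfl⟩
  have hm0 : 0 ≤ m := by rw [hm]; exact Real.sqrt_nonneg _
  have hmm : m ^ 2 = d2 / 4 + ε ^ 2 := by rw [hm]; exact Real.sq_sqrt he4
  rw [← hm, hs]
  have he : 0 ≤ ε ^ 2 / d := by positivity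
  have n1 : d / 2 ≤ m := by
    apply le_of_sq_le_sq _ hm0
    have : (d / 2) ^ 2 = d2 / 4 := by rw [← hdd]; ring
    rw [hmm, this]
    have := sq_nonneg ε
    linarith
  have n2 : m ≤ d / 2 + ε ^ 2 / d := by
    apply le_of_sq_le_sq _ (by positivity)
    have : (d / 2 + ε ^ 2 / d) ^ 2 = d2 / 4 + ε ^ 2 + (ε ^ 2 / d) ^ 2 := by
      rw [← hdd]; field_simp; ring
    rw [this, hmm]
    have := sq_nonneg (ε ^ 2 / d)
    linarith
  obtain ⟨t, ht⟩ : ∃ t, t = 2 * m - d := ⟨_, rfl⟩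
  have ht0 : 0 ≤ t := by rw [ht]; linarith
  have ht1 : t ≤ 2 * (ε ^ 2 / d) := by rw [ht]; linarith
  rw [← ht]
  have n3 : t ^ 2 ≤ (2 * (ε ^ 2 / d)) ^ 2 := pow_le_pow_left₀ ht0 ht1 2
  have n4 : (2 * (ε ^ 2 / d)) ^ 2 ≤ ε ^ 2 * (4 / d ^ 2) := by
    have : (2 * (ε ^ 2 / d)) ^ 2 = ε ^ 2 * (ε ^ 2 * (4 / d ^ 2)) := by field_simp; ring
    rw [this]
    have h4 : 0 < 4 / d ^ 2 := by positivity
    have h5 : ε ^ 2 ≤ 1 := pow_le_one₀ hεp.le hε1
    have h6 : ε ^ 2 * (4 / d ^ 2) ≤ 1 * (4 / d ^ 2) := mul_le_mul_of_nonneg_right h5 h4.le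
    rw [one_mul] at h6
    exact mul_le_mul_of_nonneg_left h6 (sq_nonneg ε)
  have n5 : 2 * P * t ≤ ε ^ 2 * (4 * P / d) := by
    have : ε ^ 2 * (4 * P / d) = 2 * P * (2 * (ε ^ 2 / d)) := by field_simp; ring
    rw [this]
    exact mul_le_mul_of_nonneg_left ht1 (by positivity)
  have n6 : (P + t) ^ 2 ≤ P ^ 2 + ε ^ 2 * K := by
    have e1 : (P + t) ^ 2 = P ^ 2 + 2 * P * t + t ^ 2 := by ring
    have e2 : ε ^ 2 * K = ε ^ 2 * (4 * P / d) + ε ^ 2 * (4 / d ^ 2) := by rw [hK]; ring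
    rw [e1, e2]
    linarith
  have n7 : ε ^ 2 * K ≤ ε * (c * d / 4) := by
    have : ε ^ 2 * K = ε * (ε * K) := by ring
    rw [this]
    exact mul_le_mul_of_nonneg_left hε2 hεp.le
  have n8 : ε * (c * d / 4) < c * ((ε * d - 0) / 2) := by
    have h1 : 0 < ε * (c * d) := by positivity
    have h2 : c * ((ε * d - 0) / 2) = ε * (c * d / 4) + ε * (c * d) / 4 := by ring
    rw [h2]
    linarith
  linarith

/-- Moving one vertex of a polygon whose two edges have different lengths. -/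
theorem geo (a1 a2 b1 b2 z1 z2 l1 l2 c P : ℝ) (hc : 0 < c) (hP : 0 < P) (h1 : 0 ≤ l1)
    (h2 : 0 ≤ l2) (e1 : l1 ^ 2 = (z1 - a1) ^ 2 + (z2 - a2) ^ 2)
    (e2 : l2 ^ 2 = (b1 - z1) ^ 2 + (b2 - z2) ^ 2) (hne : l1 ≠ l2) :
    ∃ u v m : ℝ, 0 ≤ m ∧ m ^ 2 = (u - a1) ^ 2 + (v - a2) ^ 2 ∧
      m ^ 2 = (b1 - u) ^ 2 + (b2 - v) ^ 2 ∧
      (P + (2 * m - (l1 + l2))) ^ 2
        < P ^ 2 + c * (((u - z1) * (b2 - a2) - (v - z2) * (b1 - a1)) / 2) := by
  obtain ⟨E1, hE1⟩ : ∃ E1, E1 = b1 - a1 := ⟨_, rfl⟩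
  obtain ⟨E2, hE2⟩ : ∃ E2, E2 = b2 - a2 := ⟨_, rfl⟩
  obtain ⟨w1, hw1⟩ : ∃ w1, w1 = z1 - (a1 + b1) / 2 := ⟨_, rfl⟩
  obtain ⟨w2, hw2⟩ : ∃ w2, w2 = z2 - (a2 + b2) / 2 := ⟨_, rfl⟩
  obtain ⟨D, hD⟩ : ∃ D, D = w1 * E1 + w2 * E2 := ⟨_, rfl⟩
  obtain ⟨H, hH⟩ : ∃ H, H = w1 * E2 - w2 * E1 := ⟨_, rfl⟩
  obtain ⟨W, hW⟩ : ∃ W, W = w1 ^ 2 + w2 ^ 2 := ⟨_, rfl⟩
  obtain ⟨d2, hd2⟩ : ∃ d2, d2 = E1 ^ 2 + E2 ^ 2 := ⟨_, rfl⟩
  have f1 : l1 ^ 2 = W + D + d2 / 4 := by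
    rw [e1, hW, hD, hd2, hw1, hw2, hE1, hE2]; ring
  have f2 : l2 ^ 2 = W - D + d2 / 4 := by
    rw [e2, hW, hD, hd2, hw1, hw2, hE1, hE2]; ring
  have f3 : W * d2 = D ^ 2 + H ^ 2 := by
    rw [hW, hD, hH, hd2]; ring
  have hD0 : D ≠ 0 := by
    intro h0
    apply hne
    have : l1 ^ 2 = l2 ^ 2 := by rw [f1, f2, h0]; ring
    exact (pow_left_inj₀ h1 h2 two_ne_zero).1 this
  have hd2p : 0 < d2 := by
    rcases lt_or_eq_of_le (show 0 ≤ d2 by rw [hd2]; positivity) with h | h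
    · exact h
    · exfalso
      apply hD0
      have g1 : E1 = 0 := by
        have : E1 ^ 2 = 0 := by nlinarith [sq_nonneg E1, sq_nonneg E2]
        exact pow_eq_zero_iff two_ne_zero |>.1 this
      have g2 : E2 = 0 := by
        have : E2 ^ 2 = 0 := by nlinarith [sq_nonneg E1, sq_nonneg E2]
        exact pow_eq_zero_iff two_ne_zero |>.1 this
      rw [hD, g1, g2]; ring
  obtain ⟨d, hd⟩ : ∃ d, d = Real.sqrt d2 := ⟨_, rfl⟩
  have hdp : 0 < d := by rw [hd]; exact Real.sqrt_pos.2 hd2p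
  have hdd : d ^ 2 = d2 := by rw [hd]; exact Real.sq_sqrt hd2p.le
  obtain ⟨q, hq⟩ : ∃ q, q = l1 * l2 := ⟨_, rfl⟩
  have hq0 : 0 ≤ q := by rw [hq]; exact mul_nonneg h1 h2
  have hqq : q ^ 2 = (W + d2 / 4) ^ 2 - D ^ 2 := by
    have : q ^ 2 = l1 ^ 2 * l2 ^ 2 := by rw [hq]; ring
    rw [this, f1, f2]; ring
  obtain ⟨s, hs⟩ : ∃ s, s = l1 + l2 := ⟨_, rfl⟩
  have hs0 : 0 ≤ s := by rw [hs]; exact add_nonneg h1 h2
  have hss : s ^ 2 = 2 * W + d2 / 2 + 2 * q := by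
    have : s ^ 2 = l1 ^ 2 + l2 ^ 2 + 2 * q := by rw [hs, hq]; ring
    rw [this, f1, f2]; ring
  -- the family of test points
  have key : ∀ η : ℝ, ∃ u v : ℝ, d2 / 4 + η ^ 2 = (u - a1) ^ 2 + (v - a2) ^ 2 ∧
      d2 / 4 + η ^ 2 = (b1 - u) ^ 2 + (b2 - v) ^ 2 ∧
      (u - z1) * (b2 - a2) - (v - z2) * (b1 - a1) = η * d - H := by
    intro η
    have k1 : (η / d) ^ 2 * d2 = η ^ 2 := by
      rw [← hdd, div_pow]; field_simp
    have k2 : (η / d) * d2 = η * d := by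
      rw [← hdd]; field_simp
    refine ⟨(a1 + b1) / 2 + (η / d) * E2, (a2 + b2) / 2 - (η / d) * E1, ?_, ?_, ?_⟩
    · rw [← k1, hd2, hE1, hE2]; ring
    · rw [← k1, hd2, hE1, hE2]; ring
    · rw [← k2, hd2, hH, hw1, hw2, hE1, hE2]; ring
  rcases lt_or_ge d s with hcase | hcase
  · -- Case 1
    have hsd : 0 < s ^ 2 - d2 := by
      rw [← hdd]
      have := pow_lt_pow_left₀ hcase hdp.le two_ne_zero
      linarith
    obtain ⟨η, hη⟩ : ∃ η, η = Real.sqrt (s ^ 2 - d2) / 2 := ⟨_, rfl⟩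
    have hηp : 0 < η := by rw [hη]; exact div_pos (Real.sqrt_pos.2 hsd) two_pos
    have hηη : 4 * η ^ 2 = s ^ 2 - d2 := by
      rw [hη, div_pow, Real.sq_sqrt hsd.le]; ring
    obtain ⟨u, v, g1, g2, g3⟩ := key η
    refine ⟨u, v, s / 2, by linarith, ?_, ?_, ?_⟩
    · rw [← g1, div_pow]; linarith
    · rw [← g2, div_pow]; linarith
    · have hlt : H < η * d := by
        rcases le_or_gt H 0 with hH0 | hH0
        · exact lt_of_le_of_lt hH0 (mul_pos hηp hdp)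
        · have m1 : (q * d2) ^ 2 - (H ^ 2 - D ^ 2 + d2 ^ 2 / 4) ^ 2 = 4 * D ^ 2 * H ^ 2 := by
            have : (q * d2) ^ 2 = (W * d2 + d2 ^ 2 / 4) ^ 2 - D ^ 2 * d2 ^ 2 := by
              rw [mul_pow, hqq]; ring
            rw [this, f3]; ring
          have m2 : 0 < 4 * D ^ 2 * H ^ 2 := by positivity
          have m3 : H ^ 2 - D ^ 2 + d2 ^ 2 / 4 < q * d2 := by
            apply lt_of_pow_lt_pow_left₀ 2 (mul_nonneg hq0 hd2p.le)
            linarith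
          have m4 : H ^ 2 < (η * d) ^ 2 := by
            have m5 : 4 * (η * d) ^ 2 = 2 * (W * d2) - d2 ^ 2 / 2 + 2 * (q * d2) := by
              have : 4 * (η * d) ^ 2 = (s ^ 2 - d2) * d2 := by
                rw [mul_pow, hdd, ← hηη]; ring
              rw [this, hss]; ring
            rw [f3] at m5
            linarith
          exact lt_of_pow_lt_pow_left₀ 2 (mul_pos hηp hdp).le m4
      have e0 : P + (2 * (s / 2) - (l1 + l2)) = P := by rw [hs]; ring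
      rw [e0, g3]
      have : 0 < c * ((η * d - H) / 2) := mul_pos hc (by linarith)
      linarith
  · -- Case 2
    have c1 : s ^ 2 ≤ d2 := by rw [← hdd]; exact pow_le_pow_left₀ hs0 hcase 2
    have c2 : q ≤ d2 / 4 - W := by linarith [hss]
    have c3 : q ^ 2 ≤ (d2 / 4 - W) ^ 2 := pow_le_pow_left₀ hq0 c2 2
    have c4 : H ^ 2 ≤ 0 := by
      rw [hqq] at c3
      have e5 : (W + d2 / 4) ^ 2 - D ^ 2 = (d2 / 4 - W) ^ 2 + (W * d2 - D ^ 2) := by ring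
      rw [e5, f3] at c3
      linarith
    have hH0 : H = 0 := by
      have : H ^ 2 = 0 := le_antisymm c4 (sq_nonneg H)
      exact pow_eq_zero_iff two_ne_zero |>.1 this
    have c5 : q ^ 2 = (d2 / 4 - W) ^ 2 := by
      rw [hqq]
      have : D ^ 2 = W * d2 := by rw [f3, hH0]; ring
      rw [this]; ring
    have c6 : q = d2 / 4 - W := by
      have : 0 ≤ d2 / 4 - W := le_trans hq0 c2
      exact (pow_left_inj₀ hq0 this two_ne_zero).1 c5
    have c7 : s = d := by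
      have : s ^ 2 = d ^ 2 := by rw [hss, c6, hdd]; ring
      exact (pow_left_inj₀ hs0 hdp.le two_ne_zero).1 this
    obtain ⟨ε, m, hm0, hmm, hlt⟩ := est P c d d2 s hP hc hdp hdd c7
    obtain ⟨u, v, g1, g2, g3⟩ := key ε
    refine ⟨u, v, m, hm0, by rw [hmm, g1], by rw [hmm, g2], ?_⟩
    rw [g3, hH0, ← hs]
    exact hlt

end M_EQC

open M_EQC in
theorem t_EQC : Stmt_EQC := by
  intro n _ hn t ht hiso x y hPpos heq
  have hn0 : (0 : ℝ) < n := by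
    have : 0 < n := by omega
    exact_mod_cast this
  have hedge : ∀ k : Fin n,
      Real.sqrt ((x (k + 1) - x k) ^ 2 + (y (k + 1) - y k) ^ 2)
        = Real.sqrt ((x (k + 1 + 1) - x (k + 1)) ^ 2 + (y (k + 1 + 1) - y (k + 1)) ^ 2) := by
    intro k
    by_contra hne
    have d01 := M_EQE.ne_one hn k
    have d12 := M_EQE.ne_one hn (k + 1)
    have s1 := Real.sq_sqrt (show 0 ≤ (x (k + 1) - x k) ^ 2 + (y (k + 1) - y k) ^ 2 by positivity)
    have s2 := Real.sq_sqrt (show 0 ≤ (x (k + 1 + 1) - x (k + 1)) ^ 2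
      + (y (k + 1 + 1) - y (k + 1)) ^ 2 by positivity)
    obtain ⟨u, v, m, hm, h1, h2, h3⟩ := geo (x k) (y k) (x (k + 1 + 1)) (y (k + 1 + 1))
      (x (k + 1)) (y (k + 1)) _ _ (4 * n * t) (Pe x y) (by positivity) hPpos
      (Real.sqrt_nonneg _) (Real.sqrt_nonneg _) s1 s2 hne
    have ux : ∀ j, j ≠ k + 1 → Function.update x (k + 1) u j = x j := fun j hj => by
      rw [Function.update_of_ne hj]
    have uy : ∀ j, j ≠ k + 1 → Function.update y (k + 1) v j = y j := fun j hj => by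
      rw [Function.update_of_ne hj]
    have ux1 : Function.update x (k + 1) u (k + 1) = u := Function.update_self _ _ _
    have uy1 : Function.update y (k + 1) v (k + 1) = v := Function.update_self _ _ _
    have nx : ∀ j : Fin n, j ≠ k → j + 1 ≠ k + 1 := fun j hj h => hj (add_right_cancel h)
    set x' := Function.update x (k + 1) u with hx'
    set y' := Function.update y (k + 1) v with hy'
    have r1 : Real.sqrt ((u - x k) ^ 2 + (v - y k) ^ 2) = m := by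
      rw [← h1, Real.sqrt_sq hm]
    have r2 : Real.sqrt ((x (k + 1 + 1) - u) ^ 2 + (y (k + 1 + 1) - v) ^ 2) = m := by
      rw [← h2, Real.sqrt_sq hm]
    have eP : Pe x' y' = Pe x y + (2 * m
        - (Real.sqrt ((x (k + 1) - x k) ^ 2 + (y (k + 1) - y k) ^ 2)
          + Real.sqrt ((x (k + 1 + 1) - x (k + 1)) ^ 2 + (y (k + 1 + 1) - y (k + 1)) ^ 2))) := by
      unfold Pe
      rw [M_EQE.sum_two (fun j => Real.sqrt ((x' (j + 1) - x' j) ^ 2 + (y' (j + 1) - y' j) ^ 2))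
        (fun j => Real.sqrt ((x (j + 1) - x j) ^ 2 + (y (j + 1) - y j) ^ 2)) k (k + 1) d01
        (fun j ha hb => by
          simp only [ux j hb, uy j hb, ux (j + 1) (nx j ha), uy (j + 1) (nx j ha)])]
      simp only [ux k d01, uy k d01, ux1, uy1, ux (k + 1 + 1) d12.symm, uy (k + 1 + 1) d12.symm,
        r1, r2]
      ring
    have eF : Fa x' y' = Fa x y + ((u - x (k + 1)) * (y (k + 1 + 1) - y k)
        - (v - y (k + 1)) * (x (k + 1 + 1) - x k)) / 2 := by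
      unfold Fa
      rw [M_EQE.sum_two (fun j => x' j * y' (j + 1) - x' (j + 1) * y' j)
        (fun j => x j * y (j + 1) - x (j + 1) * y j) k (k + 1) d01
        (fun j ha hb => by
          simp only [ux j hb, uy j hb, ux (j + 1) (nx j ha), uy (j + 1) (nx j ha)])]
      simp only [ux k d01, uy k d01, ux1, uy1, ux (k + 1 + 1) d12.symm, uy (k + 1 + 1) d12.symm]
      ring
    have hcon := hiso x' y'
    rw [eP, eF, mul_add, heq] at hcon
    exact absurd hcon (not_le.2 h3)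
  set f : Fin n → ℝ := fun k => Real.sqrt ((x (k + 1) - x k) ^ 2 + (y (k + 1) - y k) ^ 2) with hf
  have hconst : ∀ k, f k = f 0 := M_MAX.const_of_succ f (fun k => (hedge k).symm)
  have hPe : Pe x y = n * f 0 := by
    have : Pe x y = ∑ k, f k := rfl
    rw [this, Finset.sum_congr rfl (fun k _ => hconst k)]
    simp
  have hQe : Qe x y = n * f 0 ^ 2 := by
    have h1 : Qe x y = ∑ k, f k ^ 2 := by
      unfold Qe
      refine Finset.sum_congr rfl fun k _ => ?_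
      rw [hf]
      simp only
      rw [Real.sq_sqrt (by positivity)]
    rw [h1, Finset.sum_congr rfl (fun k _ => by rw [hconst k])]
    simp
  rw [hPe] at heq
  rw [hQe]
  have h5 : (n : ℝ) * (4 * t * Fa x y) = n * (n * f 0 ^ 2) := by
    calc (n : ℝ) * (4 * t * Fa x y) = 4 * n * t * Fa x y := by ring
      _ = (n * f 0) ^ 2 := heq
      _ = n * (n * f 0 ^ 2) := by ring
  exact mul_left_cancel₀ hn0.ne' h5

end Pool.Agent.ICE
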