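import Pool.Agent.ICE.StmtsP
import Pool.Agent.ICL.SG

/-!
# EQD: equality in the reduced inequality
-/

set_option autoImplicit false

namespace Pool.Agent.ICE

open Pool.Agent.ICL

namespace M_EQD

open Pool.Agent.ICL.M_SG (ag_nonneg sqrt_mono ring_mono sqrt5_bounds)

/-- The strict reduced inequality for given data and all `p q h`. -/
def SP (a b A1 A2 t : ℝ) : Prop :=
  ∀ p q h : ℝ, p * A1 + q * A2 + h * (A1 + A2 + t) ≠ 0 →
    27 * g0 * (p * A1 + q * A2 + h * (A1 + A2 + t)) ^ 2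
    < 4 * Ag a b A1 A2 (t - A1) (t - A2) p q h ^ 3

theorem neg {a b A1 A2 t : ℝ} (H : SP a b (-A1) (-A2) (-t)) : SP a b A1 A2 t := by
  intro p q h hV
  have h0 : p * -A1 + q * -A2 + h * (-A1 + -A2 + -t) = -(p * A1 + q * A2 + h * (A1 + A2 + t)) := by ring
  have h1 := H p q h (by rw [h0]; exact neg_ne_zero.mpr hV)
  have h2 : Ag a b (-A1) (-A2) (-t - -A1) (-t - -A2) p q h = Ag a b A1 A2 (t - A1) (t - A2) p q h := by
    unfold Ag
    have e1 : (-A1) ^ 2 = A1 ^ 2 := by ring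
    have e2 : (-A2) ^ 2 = A2 ^ 2 := by ring
    have e3 : (-t - -A1) ^ 2 = (t - A1) ^ 2 := by ring
    have e4 : (-t - -A2) ^ 2 = (t - A2) ^ 2 := by ring
    rw [e1, e2, e3, e4]
  rw [h2, h0, neg_sq] at h1
  exact h1

theorem swap {a b A1 A2 t : ℝ} (H : SP b a A2 A1 t) : SP a b A1 A2 t := by
  intro p q h hV
  have h0 : q * A2 + p * A1 + h * (A2 + A1 + t) = p * A1 + q * A2 + h * (A1 + A2 + t) := by ring
  have h1 := H q p h (by rw [h0]; exact hV)
  have h2 : Ag b a A2 A1 (t - A2) (t - A1) q p h = Ag a b A1 A2 (t - A1) (t - A2) p q h := by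
    unfold Ag
    ring
  rw [h2, h0] at h1
  exact h1

theorem swapG {g a b X Y M R1 R2 : ℝ} (H : IneqG g b a Y X M R2 R1) : IneqG g a b X Y M R1 R2 := by
  intro p q h hp hq hh
  have h1 := H q p h hq hp hh
  have h2 : Ag b a Y X R2 R1 q p h = Ag a b X Y R1 R2 p q h := by
    unfold Ag
    ring
  have h3 : (q * Y + p * X + h * M) ^ 2 = (p * X + q * Y + h * M) ^ 2 := by ring
  rw [h2, h3] at h1
  exact h1

/-- The volume terms. -/
theorem vol_le {A1 A2 t X Y M p q h : ℝ} (hX : |A1| = X) (hY : |A2| = Y) (hM : |A1 + A2 + t| ≤ M) :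
    (p * A1 + q * A2 + h * (A1 + A2 + t)) ^ 2 ≤ (|p| * X + |q| * Y + |h| * M) ^ 2 := by
  have hV : |p * A1 + q * A2 + h * (A1 + A2 + t)| ≤ |p| * X + |q| * Y + |h| * M := by
    calc |p * A1 + q * A2 + h * (A1 + A2 + t)| ≤ |p * A1| + |q * A2| + |h * (A1 + A2 + t)| := by
          refine (abs_add_le _ _).trans ?_
          gcongr
          exact abs_add_le _ _
      _ = |p| * X + |q| * Y + |h| * |A1 + A2 + t| := by rw [abs_mul, abs_mul, abs_mul, hX, hY]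
      _ ≤ |p| * X + |q| * Y + |h| * M := by gcongr
  rw [← sq_abs (p * A1 + q * A2 + h * (A1 + A2 + t))]
  gcongr

/-- The area with absolute values. -/
theorem ag_abs (a b A1 A2 R1 R2 p q h : ℝ) :
    Ag a b |A1| |A2| R1 R2 |p| |q| |h| = Real.sqrt (A1 ^ 2 + (p * a) ^ 2) + Real.sqrt (A2 ^ 2 + (q * b) ^ 2)
      + (Real.sqrt (R1 ^ 2 + (|h| * a) ^ 2) + Real.sqrt (R2 ^ 2 + (|h| * b) ^ 2)) := by
  unfold Ag
  have e1 : |A1| ^ 2 = A1 ^ 2 := sq_abs _
  have e2 : |A2| ^ 2 = A2 ^ 2 := sq_abs _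
  have e3 : (|p| * a) ^ 2 = (p * a) ^ 2 := by rw [mul_pow, mul_pow, sq_abs]
  have e4 : (|q| * b) ^ 2 = (q * b) ^ 2 := by rw [mul_pow, mul_pow, sq_abs]
  rw [e1, e2, e3, e4]
  ring

theorem ag_abs' (a b A1 A2 t p q h : ℝ) :
    Ag a b A1 A2 (t - A1) (t - A2) p q h =
      Real.sqrt (A1 ^ 2 + (p * a) ^ 2) + Real.sqrt (A2 ^ 2 + (q * b) ^ 2)
      + (Real.sqrt ((t - A1) ^ 2 + (|h| * a) ^ 2) + Real.sqrt ((t - A2) ^ 2 + (|h| * b) ^ 2)) := by
  unfold Ag
  have e5 : (|h| * a) ^ 2 = (h * a) ^ 2 := by rw [mul_pow, mul_pow, sq_abs]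
  have e6 : (|h| * b) ^ 2 = (h * b) ^ 2 := by rw [mul_pow, mul_pow, sq_abs]
  rw [e5, e6]
  ring

/-- Comparison, the constant is larger. -/
theorem baseG {g a b A1 A2 t X Y M R1 R2 : ℝ} (hg0 : 0 < g0) (hg : g0 < g) (hX : |A1| = X) (hY : |A2| = Y)
    (hM : |A1 + A2 + t| ≤ M)
    (hR : ∀ h : ℝ, 0 ≤ h → Real.sqrt (R1 ^ 2 + (h * a) ^ 2) + Real.sqrt (R2 ^ 2 + (h * b) ^ 2) ≤
      Real.sqrt ((t - A1) ^ 2 + (h * a) ^ 2) + Real.sqrt ((t - A2) ^ 2 + (h * b) ^ 2))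
    (H : IneqG g a b X Y M R1 R2) : SP a b A1 A2 t := by
  intro p q h hV
  have h1 := H |p| |q| |h| (abs_nonneg p) (abs_nonneg q) (abs_nonneg h)
  have hV2 := vol_le (p := p) (q := q) (h := h) hX hY hM
  have hA : Ag a b X Y R1 R2 |p| |q| |h| ≤ Ag a b A1 A2 (t - A1) (t - A2) p q h := by
    rw [← hX, ← hY, ag_abs, ag_abs']
    have := hR |h| (abs_nonneg h)
    linarith
  have hA3 : Ag a b X Y R1 R2 |p| |q| |h| ^ 3 ≤ Ag a b A1 A2 (t - A1) (t - A2) p q h ^ 3 := by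
    have := ag_nonneg a b X Y R1 R2 |p| |q| |h|
    gcongr
  have hVp : 0 < (p * A1 + q * A2 + h * (A1 + A2 + t)) ^ 2 := by positivity
  have hgp : 0 < g := hg0.trans hg
  have h8 : 27 * g * (p * A1 + q * A2 + h * (A1 + A2 + t)) ^ 2
      ≤ 27 * g * (|p| * X + |q| * Y + |h| * M) ^ 2 := by gcongr
  have h9 : 27 * g0 * (p * A1 + q * A2 + h * (A1 + A2 + t)) ^ 2
      < 27 * g * (p * A1 + q * A2 + h * (A1 + A2 + t)) ^ 2 := by gcongr
  linarith

/-- Comparison, the ring terms are larger. -/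
theorem baseS {a b A1 A2 t X Y M R1 R2 : ℝ} (hg0 : 0 < g0) (hX : |A1| = X) (hY : |A2| = Y)
    (hM : |A1 + A2 + t| ≤ M)
    (hR : ∀ h : ℝ, 0 ≤ h → Real.sqrt (R1 ^ 2 + (h * a) ^ 2) + Real.sqrt (R2 ^ 2 + (h * b) ^ 2) <
      Real.sqrt ((t - A1) ^ 2 + (h * a) ^ 2) + Real.sqrt ((t - A2) ^ 2 + (h * b) ^ 2))
    (H : Ineq a b X Y M R1 R2) : SP a b A1 A2 t := by
  intro p q h _
  have h1 := H |p| |q| |h| (abs_nonneg p) (abs_nonneg q) (abs_nonneg h)
  have hV2 := vol_le (p := p) (q := q) (h := h) hX hY hM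
  have hA : Ag a b X Y R1 R2 |p| |q| |h| < Ag a b A1 A2 (t - A1) (t - A2) p q h := by
    rw [← hX, ← hY, ag_abs, ag_abs']
    have := hR |h| (abs_nonneg h)
    linarith
  have hA3 : Ag a b X Y R1 R2 |p| |q| |h| ^ 3 < Ag a b A1 A2 (t - A1) (t - A2) p q h ^ 3 := by
    have := ag_nonneg a b X Y R1 R2 |p| |q| |h|
    gcongr
  have h8 : 27 * g0 * (p * A1 + q * A2 + h * (A1 + A2 + t)) ^ 2
      ≤ 27 * g0 * (|p| * X + |q| * Y + |h| * M) ^ 2 := by gcongr
  linarith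

theorem sqrt_strict {R r c : ℝ} (h : |R| < |r|) (hc : 0 ≤ c) : Real.sqrt (R ^ 2 + c) < Real.sqrt (r ^ 2 + c) := by
  refine Real.sqrt_lt_sqrt (by positivity) ?_
  have := sq_lt_sq.mpr h
  linarith

/-- FB for both orders of `a`, `b`. -/
theorem fb_any (hFB : FB) {a b A1 A2 t : ℝ} (ha : 0 < a) (hb : 0 < b) (hA0 : 0 ≤ A1) (hA : A1 ≤ a ^ 2)
    (hB0 : 0 ≤ A2) (hB : A2 ≤ b ^ 2) (ht : t * (a * b) + (A1 * b ^ 2 + A2 * a ^ 2) / 2 = Real.sqrt 5 * (a * b) ^ 2) :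
    Ineq a b A1 A2 (A1 + A2 + t) (t - A1) (t - A2) := by
  rcases le_or_gt b a with hba | hba
  · exact hFB a b A1 A2 t hb hba hA0 hA hB0 hB ht
  · have H : Ineq b a A2 A1 (A2 + A1 + t) (t - A2) (t - A1) :=
      hFB b a A2 A1 t ha hba.le hB0 hB hA0 hA (by rw [mul_comm b a, add_comm (A2 * a ^ 2)]; exact ht)
    rw [add_comm A2 A1] at H
    exact swapG (g := g0) H

/-- FBS for both orders of `a`, `b`. -/
theorem fbs_any (hFBS : FBS) {a b A1 A2 t : ℝ} (ha : 0 < a) (hb : 0 < b) (hab : a ≠ b) (hA0 : 0 ≤ A1)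
    (hA : A1 ≤ a ^ 2)
    (hB0 : 0 ≤ A2) (hB : A2 ≤ b ^ 2) (ht : t * (a * b) + (A1 * b ^ 2 + A2 * a ^ 2) / 2 = Real.sqrt 5 * (a * b) ^ 2) :
    ∃ g : ℝ, g0 < g ∧ IneqG g a b A1 A2 (A1 + A2 + t) (t - A1) (t - A2) := by
  rcases lt_or_gt_of_ne hab with hba | hba
  · obtain ⟨g, hg, H⟩ := hFBS b a A2 A1 t ha hba hB0 hB hA0 hA
      (by rw [mul_comm b a, add_comm (A2 * a ^ 2)]; exact ht)
    rw [add_comm A2 A1] at H
    exact ⟨g, hg, swapG H⟩
  · exact hFBS a b A1 A2 t hb hba hA0 hA hB0 hB ht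

/-- The mixed signs, decagon constraint tight. -/
theorem core (hMX : ∃ g : ℝ, g0 < g ∧ MXT g) (hFB : FB) (hg : 0 < g0) {a b A1 G t : ℝ} (ha : 0 < a) (hb : 0 < b)
    (hA0 : 0 < A1) (hA : A1 ≤ a ^ 2) (hG0 : 0 < G) (hG : G ≤ b ^ 2) (ht : 0 < t)
    (h1 : 2 * t * (a * b) + |A1 * b ^ 2 - G * a ^ 2| = 2 * Real.sqrt 5 * (a * b) ^ 2) :
    SP a b A1 (-G) t := by
  obtain ⟨h52, h50⟩ := sqrt5_bounds
  have hab : 0 < a * b := mul_pos ha hb
  have hd1 : A1 * b ^ 2 - G * a ^ 2 ≤ |A1 * b ^ 2 - G * a ^ 2| := le_abs_self _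
  have hd2 : |A1 * b ^ 2 - G * a ^ 2| < A1 * b ^ 2 + G * a ^ 2 := by
    have hAb0 : 0 < A1 * b ^ 2 := by positivity
    have hGa0 : 0 < G * a ^ 2 := by positivity
    rw [abs_lt]
    constructor <;> linarith
  have hAb : A1 * b ^ 2 ≤ (a * b) ^ 2 := by
    rw [mul_pow]; exact mul_le_mul_of_nonneg_right hA (sq_nonneg b)
  have hGa : G * a ^ 2 ≤ (a * b) ^ 2 := by
    rw [mul_pow, mul_comm (a ^ 2)]; exact mul_le_mul_of_nonneg_right hG (sq_nonneg a)
  set t0 : ℝ := (Real.sqrt 5 * (a * b) ^ 2 - (A1 * b ^ 2 + G * a ^ 2) / 2) / (a * b) with ht0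
  have e0 : t0 * (a * b) + (A1 * b ^ 2 + G * a ^ 2) / 2 = Real.sqrt 5 * (a * b) ^ 2 := by
    rw [ht0, div_mul_cancel₀ _ hab.ne']; ring
  have hlow : a * b ≤ t0 := by
    refine le_of_mul_le_mul_right ?_ hab
    nlinarith
  have hc : t0 < t := by
    refine lt_of_mul_lt_mul_right ?_ hab.le
    linarith
  have habsA : |A1| = A1 := abs_of_pos hA0
  have habsG : |-G| = G := by rw [abs_neg, abs_of_pos hG0]
  rcases le_or_gt a (2 * b) with hab2 | hab2
  · have ht00 : 0 < t0 := hab.trans_le hlow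
    have H := fb_any hFB ha hb hA0.le hA hG0.le hG e0
    have hdiff : t - t0 ≤ 2 * G := by
      have h3 : (t - t0) * b ≤ G * a := by
        have h4 : (t - t0) * b * a ≤ G * a * a := by nlinarith
        exact le_of_mul_le_mul_right h4 ha
      have h5 : (t - t0) * b ≤ 2 * G * b := by nlinarith
      exact le_of_mul_le_mul_right h5 hb
    refine baseS hg habsA habsG ?_ ?_ H
    · rw [abs_le]; constructor <;> linarith
    · intro h hh
      have hm := ring_mono (a := a) (b := b) (X := t0 - A1) (Y := t0 + G) (d := t - t0) (h := h) ha hb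
        (by linarith) hh (by linarith) (by nlinarith)
      have e1 : t0 - A1 + (t - t0) = t - A1 := by ring
      have e2 : t0 + G + (t - t0) = t - -G := by ring
      rw [e1, e2] at hm
      refine lt_of_lt_of_le (add_lt_add_of_le_of_lt le_rfl (sqrt_strict ?_ (sq_nonneg _))) hm
      rw [abs_of_nonneg (by linarith : (0 : ℝ) ≤ t0 + G), abs_lt]
      constructor <;> linarith
  · obtain ⟨g, hgg, hM⟩ := hMX
    have H := hM a b A1 G t hb hab2.le hA0.le hA hG0.le hG (by nlinarith) (by linarith)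
    refine baseG hg hgg habsA habsG ?_ ?_ H
    · rw [abs_le]; constructor <;> linarith
    · intro h _
      rw [sub_neg_eq_add]

/-- The case `t > 0`. -/
theorem pos (hMX : ∃ g : ℝ, g0 < g ∧ MXT g) (hFBS : FBS) (hFB : FB) (hg : 0 < g0) {a b A1 A2 t : ℝ}
    (ha : 0 < a) (hb : 0 < b) (hA1 : |A1| ≤ a ^ 2) (hA2 : |A2| ≤ b ^ 2) (ht : 0 < t)
    (h1 : 2 * t * (a * b) + |A1 * b ^ 2 + A2 * a ^ 2| = 2 * Real.sqrt 5 * (a * b) ^ 2) :
    SP a b A1 A2 t ∨ (a = b ∧ 0 ≤ A1 ∧ 0 ≤ A2) := by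
  rcases le_or_gt 0 (A1 * A2) with hs | hs
  · -- equal signs
    have e1 : |A1 * b ^ 2 + A2 * a ^ 2| = |A1| * b ^ 2 + |A2| * a ^ 2 := by
      rcases mul_nonneg_iff.mp hs with ⟨h3, h4⟩ | ⟨h3, h4⟩
      · rw [abs_of_nonneg h3, abs_of_nonneg h4, abs_of_nonneg (by positivity)]
      · rw [abs_of_nonpos h3, abs_of_nonpos h4, abs_of_nonpos]
        · ring
        · have := mul_nonneg (neg_nonneg.mpr h3) (sq_nonneg b)
          have := mul_nonneg (neg_nonneg.mpr h4) (sq_nonneg a)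
          linarith
    rw [e1] at h1
    have e2 : t * (a * b) + (|A1| * b ^ 2 + |A2| * a ^ 2) / 2 = Real.sqrt 5 * (a * b) ^ 2 := by linarith
    have hM : |A1 + A2 + t| ≤ |A1| + |A2| + t := by
      refine (abs_add_le _ _).trans ?_
      rw [abs_of_pos ht]
      gcongr
      exact abs_add_le _ _
    have hle : ∀ A : ℝ, abs (t - abs A) ≤ abs (t - A) := by
      intro A
      have := abs_abs_sub_abs_le_abs_sub t A
      rwa [abs_of_pos ht] at this
    by_cases hab : a = b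
    · by_cases h3 : 0 ≤ A1 ∧ 0 ≤ A2
      · exact Or.inr ⟨hab, h3.1, h3.2⟩
      · left
        have H := fb_any hFB ha hb (abs_nonneg A1) hA1 (abs_nonneg A2) hA2 e2
        have hlt : ∀ A : ℝ, A < 0 → abs (t - abs A) < abs (t - A) := by
          intro A hA
          rw [abs_of_neg hA, abs_of_pos (by linarith : 0 < t - A), abs_lt]
          constructor <;> linarith
        refine baseS hg rfl rfl hM ?_ H
        intro h _
        rcases not_and_or.mp h3 with h4 | h4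
        · exact add_lt_add_of_lt_of_le (sqrt_strict (hlt A1 (not_le.mp h4)) (sq_nonneg _)) (sqrt_mono (hle A2))
        · exact add_lt_add_of_le_of_lt (sqrt_mono (hle A1)) (sqrt_strict (hlt A2 (not_le.mp h4)) (sq_nonneg _))
    · left
      obtain ⟨g, hgg, H⟩ := fbs_any hFBS ha hb hab (abs_nonneg A1) hA1 (abs_nonneg A2) hA2 e2
      refine baseG hg hgg rfl rfl hM ?_ H
      intro h _
      exact add_le_add (sqrt_mono (hle A1)) (sqrt_mono (hle A2))
  · left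
    rcases mul_neg_iff.mp hs with ⟨h3, h4⟩ | ⟨h3, h4⟩
    · rw [abs_of_pos h3] at hA1
      rw [abs_of_neg h4] at hA2
      have := core hMX hFB hg (G := -A2) ha hb h3 hA1 (by linarith) hA2 ht
        (by rw [neg_mul, sub_neg_eq_add]; exact h1)
      rwa [neg_neg] at this
    · rw [abs_of_neg h3] at hA1
      rw [abs_of_pos h4] at hA2
      refine swap ?_
      have := core hMX hFB hg (a := b) (b := a) (A1 := A2) (G := -A1) hb ha h4 hA2 (by linarith) hA1 ht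
        (by
          have e1 : A2 * a ^ 2 - -A1 * b ^ 2 = A1 * b ^ 2 + A2 * a ^ 2 := by ring
          rw [e1, mul_comm b a]; exact h1)
      rwa [neg_neg] at this

end M_EQD

open M_EQD in
theorem t_EQD : Stmt_EQD := by
  intro hRIG hMX hFBS hFB hg a b A1 A2 t ha hb hA1 hA2 h1 h2 p q h hV hEq
  have hNS : ¬ SP a b A1 A2 t := fun H => absurd (H p q h hV) (not_lt.mpr hEq)
  have hs0 : (2236 / 1000 : ℝ) < Real.sqrt 5 := Real.lt_sqrt_of_sq_lt (by norm_num)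
  -- the loose case
  have loose : ∀ s : ℝ, 2236 / 1000 ≤ s → s < Real.sqrt 5 →
      2 * |t| * (a * b) + |A1 * b ^ 2 + A2 * a ^ 2| ≤ 2 * s * (a * b) ^ 2 → |t| ≤ s * (a * b) → False := by
    intro s hs1 hs2 h3 h4
    obtain ⟨g, hgg, H⟩ := hRIG s hs1 hs2
    have h5 := H a b A1 A2 t ha hb hA1 hA2 h3 h4 p q h
    have hVp : 0 < (p * A1 + q * A2 + h * (A1 + A2 + t)) ^ 2 := by positivity
    have h9 : 27 * g0 * (p * A1 + q * A2 + h * (A1 + A2 + t)) ^ 2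
        < 27 * g * (p * A1 + q * A2 + h * (A1 + A2 + t)) ^ 2 := by gcongr
    linarith
  have hab0 : 0 ≤ a * b := mul_nonneg ha hb
  rcases hab0.lt_or_eq with hab | hab
  swap
  · exfalso
    rw [← hab] at h1 h2
    refine loose (2236 / 1000) le_rfl hs0 ?_ ?_
    · rw [← hab]; simpa using h1
    · rw [← hab]; simpa using h2
  have ha0 : 0 < a := by
    rcases ha.lt_or_eq with h3 | h3
    · exact h3
    · rw [← h3, zero_mul] at hab; exact absurd hab (lt_irrefl _)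
  have hb0 : 0 < b := by
    rcases hb.lt_or_eq with h3 | h3
    · exact h3
    · rw [← h3, mul_zero] at hab; exact absurd hab (lt_irrefl _)
  have habsq : 0 < (a * b) ^ 2 := by positivity
  have htight : 2 * |t| * (a * b) + |A1 * b ^ 2 + A2 * a ^ 2| = 2 * Real.sqrt 5 * (a * b) ^ 2 := by
    refine le_antisymm h1 (not_lt.mp ?_)
    intro hlt
    set L := 2 * |t| * (a * b) + |A1 * b ^ 2 + A2 * a ^ 2| with hL
    have hs2 : L / (2 * (a * b) ^ 2) < Real.sqrt 5 := by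
      rw [div_lt_iff₀ (by positivity)]
      linarith
    have h3 : L ≤ 2 * (max (2236 / 1000) (L / (2 * (a * b) ^ 2))) * (a * b) ^ 2 := by
      have h4 : L = 2 * (L / (2 * (a * b) ^ 2)) * (a * b) ^ 2 := by
        field_simp
      calc L = 2 * (L / (2 * (a * b) ^ 2)) * (a * b) ^ 2 := h4
        _ ≤ 2 * (max (2236 / 1000) (L / (2 * (a * b) ^ 2))) * (a * b) ^ 2 := by
          gcongr
          exact le_max_right _ _
    refine loose (max (2236 / 1000) (L / (2 * (a * b) ^ 2))) (le_max_left _ _) (max_lt hs0 hs2) h3 ?_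
    have h5 : 0 ≤ |A1 * b ^ 2 + A2 * a ^ 2| := abs_nonneg _
    refine le_of_mul_le_mul_right ?_ (mul_pos two_pos hab)
    nlinarith
  have ht0 : t ≠ 0 := by
    intro ht
    rw [ht, abs_zero, mul_zero, zero_mul, zero_add] at htight
    have hAb : |A1| * b ^ 2 ≤ (a * b) ^ 2 := by
      rw [mul_pow]; exact mul_le_mul_of_nonneg_right hA1 (sq_nonneg b)
    have hGa : |A2| * a ^ 2 ≤ (a * b) ^ 2 := by
      rw [mul_pow, mul_comm (a ^ 2)]; exact mul_le_mul_of_nonneg_right hA2 (sq_nonneg a)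
    have h3 : |A1 * b ^ 2 + A2 * a ^ 2| ≤ |A1| * b ^ 2 + |A2| * a ^ 2 := by
      refine (abs_add_le _ _).trans ?_
      rw [abs_mul, abs_mul, abs_of_nonneg (sq_nonneg b), abs_of_nonneg (sq_nonneg a)]
    nlinarith
  rcases lt_or_gt_of_ne ht0 with ht | ht
  · have h4 : 2 * (-t) * (a * b) + |(-A1) * b ^ 2 + (-A2) * a ^ 2| = 2 * Real.sqrt 5 * (a * b) ^ 2 := by
      have e1 : -A1 * b ^ 2 + -A2 * a ^ 2 = -(A1 * b ^ 2 + A2 * a ^ 2) := by ring
      rw [e1, abs_neg, ← htight, abs_of_neg ht]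
    rcases pos hMX hFBS hFB hg (A1 := -A1) (A2 := -A2) (t := -t) ha0 hb0 (by rw [abs_neg]; exact hA1)
      (by rw [abs_neg]; exact hA2) (neg_pos.mpr ht) h4 with h5 | ⟨h5, h6, h7⟩
    · exact absurd (M_EQD.neg h5) hNS
    · exact ⟨h5, ha0, htight, Or.inr ⟨by linarith, by linarith, ht⟩⟩
  · rw [abs_of_pos ht] at htight
    rcases pos hMX hFBS hFB hg ha0 hb0 hA1 hA2 ht htight with h5 | ⟨h5, h6, h7⟩
    · exact absurd h5 hNS
    · exact ⟨h5, ha0, by rw [abs_of_pos ht]; exact htight, Or.inl ⟨h6, h7, ht⟩⟩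

end Pool.Agent.ICE
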