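import Pool.Agent.ICE.StmtsP
import Pool.Agent.ICL.Stmts

/-!
# Icosahedra with two opposite links in parallel planes, equality case: statements in space
-/

set_option autoImplicit false

namespace Pool.Agent.ICE

open Pool.Agent.ICL Pool.Agent.Results.MP_fa01f0_gt.CentrallySymmetric

/-- ROTI. The isometric form of `ROT` (copy `Pool/Agent/ICL/ROT.lean`; the map there is `w' i = b.repr (w i)` for an
orthonormal basis `b` whose third vector is `n/|n|`). -/
def Stmt_ROTI : Prop := ∀ n : E3, n ≠ 0 → ∃ R : E3 ≃ₗᵢ[ℝ] E3,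
  (∀ w : Fin 12 → E3, area (fun i => R (w i)) = area w) ∧
  (∀ w : Fin 12 → E3, vol (fun i => R (w i)) ^ 2 = vol w ^ 2) ∧
  ∀ z : E3, R z 2 = inner ℝ n z / ‖n‖

end Pool.Agent.ICE
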