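import Pool.Agent.ICE.GFaces
import Pool.Agent.ICE.Stmts
import Pool.Agent.ICL.Relab2
import Pool.Agent.IcoLocal.Collinear

/-!
# The equality case and neighbourhoods: assembly
-/

set_option autoImplicit false

open scoped RealInnerProductSpace

namespace Pool.Agent.ICE

open Pool.Agent.ICL Pool.Agent.Results.MP_fa01f0_gt.CentrallySymmetric Pool.Agent.IcoLocal
open Pool.Agent.ICL.M_CON

/-- A decagon `u + l` with equality in the isoperimetric inequality. -/
lemma dec_symm (hE : Stmt_EQC) (hL : Stmt_L10E) (x y x' y' : Fin 5 → ℝ) (hP : 0 < Pe x y + Pe x' y')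
    (h : 40 * (sn / (1 + cs)) * (Fa x y + Fa x' y' + 2 * Wa x y x' y') = (Pe x y + Pe x' y') ^ 2) :
    ∃ c d : ℝ, (∀ k : Fin 5, x k + x' (k + 2) = c) ∧ ∀ k : Fin 5, y k + y' (k + 2) = d := by
  have hp : 0 < sn / (1 + cs) := div_pos sn_pos (by have := cs_pos; linarith)
  have eF := Fa_zz 1 1 x y x' y'
  have eP := Pe_zz 1 1 zero_le_one zero_le_one x y x' y'
  have h1 : ∀ x y : Fin 10 → ℝ, 4 * ((10 : ℕ) : ℝ) * (sn / (1 + cs)) * Fa x y ≤ Pe x y ^ 2 := by
    intro x y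
    have := iso10 x y
    push_cast
    linarith
  have h2 := hE 10 (by norm_num) (sn / (1 + cs)) hp h1 (zz 1 1 x x') (zz 1 1 y y')
    (by rw [eP]; linarith) (by rw [eF, eP]; push_cast; linarith)
  obtain ⟨hx, hy⟩ := hL _ _ h2
  have a15 : (1 : Fin 10) + 5 = 6 := rfl
  have a25 : (2 : Fin 10) + 5 = 7 := rfl
  have a35 : (3 : Fin 10) + 5 = 8 := rfl
  have a45 : (4 : Fin 10) + 5 = 9 := rfl
  have b0 : (0 : Fin 5) + 2 = 2 := rfl
  have b1 : (1 : Fin 5) + 2 = 3 := rfl
  have b2 : (2 : Fin 5) + 2 = 4 := rfl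
  have b3 : (3 : Fin 5) + 2 = 0 := rfl
  have b4 : (4 : Fin 5) + 2 = 1 := rfl
  have key : ∀ u v : Fin 5 → ℝ, (∀ k, zz 1 1 u v k + zz 1 1 u v (k + 5) = zz 1 1 u v 0 + zz 1 1 u v 5) →
      ∀ k : Fin 5, u k + v (k + 2) = u 0 + v 2 := by
    intro u v hu
    have h1 := hu 1
    have h2 := hu 2
    have h3 := hu 3
    have h4 := hu 4
    rw [a15, zz1, zz6, zz0, zz5] at h1
    rw [a25, zz2, zz7, zz0, zz5] at h2
    rw [a35, zz3, zz8, zz0, zz5] at h3
    rw [a45, zz4, zz9, zz0, zz5] at h4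
    intro k
    fin_cases k
    · rfl
    · change u 1 + v 3 = _
      linarith
    · change u 2 + v 4 = _
      linarith
    · change u 3 + v 0 = _
      linarith
    · change u 4 + v 1 = _
      linarith
  exact ⟨_, _, key x x' hx, key y y' hy⟩

/-- Equality in horizontal position. -/
theorem eq_z (hE : Stmt_EQC) (hL : Stmt_L10E) (hD : Stmt_EQD) (w : Fin 12 → E3) (zu zl : ℝ)
    (hu : ∀ k, w (iu k) 2 = zu) (hl : ∀ k, w (il k) 2 = zl) (hv : vol w ≠ 0)
    (heq : area w ^ 3 * vol regular ^ 2 ≤ area regular ^ 3 * vol w ^ 2) :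
    ∃ c : E3, ∀ k, w (iu k) + w (il (k + 2)) = (2 : ℝ) • c := by
  set x : Fin 5 → ℝ := fun k => w (iu k) 0 with hx
  set y : Fin 5 → ℝ := fun k => w (iu k) 1 with hy
  set x' : Fin 5 → ℝ := fun k => w (il k) 0 with hx'
  set y' : Fin 5 → ℝ := fun k => w (il k) 1 with hy'
  have hA := t_AREA w zu zl hu hl x y x' y' (fun _ => rfl) (fun _ => rfl) (fun _ => rfl) (fun _ => rfl)
  have hV := t_VOL w zu zl hu hl x y x' y' (fun _ => rfl) (fun _ => rfl) (fun _ => rfl) (fun _ => rfl)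
  have hsn := sn_pos
  have hcs := cs_pos
  have hP : 0 ≤ Pe x y := Finset.sum_nonneg fun _ _ => Real.sqrt_nonneg _
  have hP' : 0 ≤ Pe x' y' := Finset.sum_nonneg fun _ _ => Real.sqrt_nonneg _
  set a := Pe x y / (10 * sn) with ha
  set b := Pe x' y' / (10 * sn) with hb
  set A1 := Fa x y / (5 * sn * cs) with hA1
  set A2 := Fa x' y' / (5 * sn * cs) with hA2
  set t := Wa x y x' y' / (5 * sn * cs) with ht
  obtain ⟨c1, c2, c3, c4⟩ := t_CON iso5 iso10 x y x' y' a b A1 A2 t rfl rfl rfl rfl rfl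
  have ha0 : 0 ≤ a := by positivity
  have hb0 : 0 ≤ b := by positivity
  set p := (w 0 2 - zu) / cs with hp
  set q := (zl - w 6 2) / cs with hq
  set h := (zu - zl) / cs with hh
  have eP : Pe x y = 10 * sn * a := by rw [ha]; field_simp
  have eP' : Pe x' y' = 10 * sn * b := by rw [hb]; field_simp
  have eF : Fa x y = 5 * sn * cs * A1 := by rw [hA1]; field_simp
  have eF' : Fa x' y' = 5 * sn * cs * A2 := by rw [hA2]; field_simp
  have eW : Wa x y x' y' = 5 * sn * cs * t := by rw [ht]; field_simp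
  have ep : w 0 2 - zu = cs * p := by rw [hp]; field_simp
  have eq : zl - w 6 2 = cs * q := by rw [hq]; field_simp
  have eh : zu - zl = cs * h := by rw [hh]; field_simp
  rw [eP, eP', eF, eF', eW, ep, eq, eh] at hA
  rw [eF, eF', eW, ep, eq, eh] at hV
  have hk : 0 < 5 * sn * cs := by positivity
  have key : ∀ X Y Z : ℝ, Real.sqrt ((5 * sn * cs * X) ^ 2 + (cs * Z * (10 * sn * Y / 2)) ^ 2)
      = 5 * sn * cs * Real.sqrt (X ^ 2 + (Z * Y) ^ 2) := by
    intro X Y Z
    have : (5 * sn * cs * X) ^ 2 + (cs * Z * (10 * sn * Y / 2)) ^ 2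
        = (5 * sn * cs) ^ 2 * (X ^ 2 + (Z * Y) ^ 2) := by ring
    rw [this, Real.sqrt_mul (by positivity), Real.sqrt_sq hk.le]
  have e1 : 5 * sn * cs * t - 5 * sn * cs * A1 = 5 * sn * cs * (t - A1) := by ring
  have e2 : 5 * sn * cs * t - 5 * sn * cs * A2 = 5 * sn * cs * (t - A2) := by ring
  rw [e1, e2, key, key, key, key] at hA
  have hA' : 5 * sn * cs * Ag a b A1 A2 (t - A1) (t - A2) p q h ≤ area w := by
    refine le_of_eq_of_le ?_ hA
    unfold Ag
    ring
  have hAg : 0 ≤ Ag a b A1 A2 (t - A1) (t - A2) p q h := by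
    unfold Ag
    positivity
  have hA3 := pow_le_pow_left₀ (by positivity) hA' 3
  have hV2 : vol w ^ 2 = (5 * sn * cs ^ 2 / 3) ^ 2
      * (p * A1 + q * A2 + h * (A1 + A2 + t)) ^ 2 := by
    rw [hV]
    ring
  have hV0 : p * A1 + q * A2 + h * (A1 + A2 + t) ≠ 0 := by
    intro h0
    apply hv
    have : vol w ^ 2 = 0 := by rw [hV2, h0]; ring
    exact pow_eq_zero_iff (two_ne_zero) |>.1 this
  have hR0 : 0 < vol regular ^ 2 := by
    have := vol_regular_ne
    positivity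
  have hle : area w ^ 3 ≤ 1215 / 4 * (sn / cs) * g0 * vol w ^ 2 := by
    rw [constants] at heq
    refine le_of_mul_le_mul_right ?_ hR0
    linarith
  have hmain : 4 * Ag a b A1 A2 (t - A1) (t - A2) p q h ^ 3
      ≤ 27 * g0 * (p * A1 + q * A2 + h * (A1 + A2 + t)) ^ 2 := by
    have e3 : 1215 / 4 * (sn / cs) * g0 * vol w ^ 2
        = (5 * sn * cs) ^ 3 / 4 * (27 * g0 * (p * A1 + q * A2 + h * (A1 + A2 + t)) ^ 2) := by
      rw [hV2]
      field_simp
      ring
    have h7 := hA3.trans (hle.trans_eq e3)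
    have h8 : (5 * sn * cs) ^ 3 / 4 * (4 * Ag a b A1 A2 (t - A1) (t - A2) p q h ^ 3)
        ≤ (5 * sn * cs) ^ 3 / 4 * (27 * g0 * (p * A1 + q * A2 + h * (A1 + A2 + t)) ^ 2) := by
      refine le_of_eq_of_le ?_ h7
      ring
    exact le_of_mul_le_mul_left h8 (by positivity)
  have hFB : FB := t_FB'
  obtain ⟨hab, hapos, htight, hsgn⟩ := hD RIG_lt ⟨g1, g0_lt_g1, MXT_all⟩ FBS_all hFB g0_pos
    a b A1 A2 t ha0 hb0 c1 c2 c3 c4 p q h hV0 hmain
  have hPP : 0 < Pe x y + Pe x' y' := by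
    rw [eP, eP', ← hab]
    positivity
  have ha2 : 0 < a ^ 2 := by positivity
  have hcsid := csid
  have h5 : 0 < Real.sqrt 5 := s5pos
  -- the planar coordinates
  have hdec : ∃ c d : ℝ, (∀ k : Fin 5, x k + x' (k + 2) = c) ∧ ∀ k : Fin 5, y k + y' (k + 2) = d := by
    rcases hsgn with ⟨s1, s2, s3⟩ | ⟨s1, s2, s3⟩
    · refine dec_symm hE hL x y x' y' hPP ?_
      rw [← hab, abs_of_pos s3, abs_of_nonneg (by positivity)] at htight
      have h9 : A1 + A2 + 2 * t = 2 * Real.sqrt 5 * a ^ 2 := by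
        have : a ^ 2 * (A1 + A2 + 2 * t) = a ^ 2 * (2 * Real.sqrt 5 * a ^ 2) := by linear_combination htight
        exact mul_left_cancel₀ ha2.ne' this
      rw [eF, eF', eW, eP, eP', ← hab, hcsid]
      have h10 : 5 * sn * cs * A1 + 5 * sn * cs * A2 + 2 * (5 * sn * cs * t)
          = 5 * sn * cs * (2 * Real.sqrt 5 * a ^ 2) := by rw [← h9]; ring
      rw [h10]
      field_simp
      ring
    · have hPm := Pe_neg x y
      have hPm' := Pe_neg x' y'
      have hFm := Fa_neg x y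
      have hFm' := Fa_neg x' y'
      have hWm : Wa x (fun k => -y k) x' (fun k => -y' k) = -Wa x y x' y' := by
        unfold Wa
        rw [← mul_neg, ← Finset.sum_neg_distrib]
        congr 1
        refine Finset.sum_congr rfl fun k _ => ?_
        ring
      obtain ⟨c, d, hc, hd⟩ := dec_symm hE hL x (fun k => -y k) x' (fun k => -y' k)
        (by rw [hPm, hPm']; exact hPP) (by
          rw [hPm, hPm', hFm, hFm', hWm]
          have habs : |A1 * a ^ 2 + A2 * a ^ 2| = -(A1 * a ^ 2 + A2 * a ^ 2) := by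
            apply abs_of_nonpos
            have := mul_nonneg (neg_nonneg.2 s1) ha2.le
            have := mul_nonneg (neg_nonneg.2 s2) ha2.le
            linarith
          rw [← hab, abs_of_neg s3, habs] at htight
          have h9 : -A1 - A2 - 2 * t = 2 * Real.sqrt 5 * a ^ 2 := by
            have : a ^ 2 * (-A1 - A2 - 2 * t) = a ^ 2 * (2 * Real.sqrt 5 * a ^ 2) := by
              linear_combination htight
            exact mul_left_cancel₀ ha2.ne' this
          rw [eF, eF', eW, eP, eP', ← hab, hcsid]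
          have h10 : -(5 * sn * cs * A1) + -(5 * sn * cs * A2) + 2 * -(5 * sn * cs * t)
              = 5 * sn * cs * (2 * Real.sqrt 5 * a ^ 2) := by rw [← h9]; ring
          rw [h10]
          field_simp
          ring)
      exact ⟨c, -d, hc, fun k => by have := hd k; linarith⟩
  obtain ⟨c, d, hc, hd⟩ := hdec
  refine ⟨!₂[c / 2, d / 2, (zu + zl) / 2], fun k => ?_⟩
  ext j
  fin_cases j
  · have := hc k
    simp only [hx, hx'] at this
    simp
    linarith
  · have := hd k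
    simp only [hy, hy'] at this
    simp
    linarith
  · have h1 := hu k
    have h2 := hl (k + 2)
    simp
    linarith

lemma iu_opp : ∀ i : Fin 12, i = 0 ∨ i = 6 ∨ (∃ k, i = iu k ∧ i + 6 = il (k + 2)) ∨
    ∃ k, i = il (k + 2) ∧ i + 6 = iu k := by decide

lemma iu_ne : ∀ k : Fin 5, ¬ (iu k = 0 ∨ iu k = 6) := by decide

lemma il_ne : ∀ k : Fin 5, ¬ (il (k + 2) = 0 ∨ il (k + 2) = 6) := by decide

/-- Collinear midpoints in the equality case. -/
lemma collinear_of {w : Fin 12 → E3} {c : E3} (h : ∀ k, w (iu k) + w (il (k + 2)) = (2 : ℝ) • c) :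
    ∃ (e : E3) (ζ : Fin 12 → ℝ), ∀ i, w i + w (i + 6) = (2 : ℝ) • c + ζ i • e := by
  refine ⟨w 0 + w 6 - (2 : ℝ) • c, fun i => if i = 0 ∨ i = 6 then 1 else 0, fun i => ?_⟩
  rcases iu_opp i with rfl | rfl | ⟨k, h1, h2⟩ | ⟨k, h1, h2⟩
  · simp
  · have : (6 : Fin 12) + 6 = 0 := rfl
    rw [this]
    simp [add_comm]
  · have h3 : ¬ (i = 0 ∨ i = 6) := by
      rw [h1]
      exact iu_ne k
    simp only [h3, if_false, zero_smul, add_zero]
    rw [h2, h1]
    exact h k
  · have h3 : ¬ (i = 0 ∨ i = 6) := by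
      rw [h1]
      exact il_ne k
    simp only [h3, if_false, zero_smul, add_zero]
    rw [h2, h1, add_comm]
    exact h k

/-- The equality case for the vertices `0`, `6`. -/
theorem eq_planes (hE : Stmt_EQC) (hL : Stmt_L10E) (hD : Stmt_EQD) (hRo : Stmt_ROTI) (w : Fin 12 → E3)
    (n : E3) (hn : n ≠ 0) (α β : ℝ)
    (hu : ∀ k, inner ℝ n (w (iu k)) = α) (hl : ∀ k, inner ℝ n (w (il k)) = β) (hv : vol w ≠ 0)
    (heq : area w ^ 3 * vol regular ^ 2 ≤ area regular ^ 3 * vol w ^ 2) :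
    ∃ (c e : E3) (ζ : Fin 12 → ℝ), ∀ i, w i + w (i + 6) = (2 : ℝ) • c + ζ i • e := by
  obtain ⟨R, hR1, hR2, hR3⟩ := hRo n hn
  have hv' : vol (fun i => R (w i)) ≠ 0 := by
    intro h0
    have := hR2 w
    rw [h0] at this
    exact hv (pow_eq_zero_iff (two_ne_zero) |>.1 (by rw [← this]; ring))
  obtain ⟨c, hc⟩ := eq_z hE hL hD (fun i => R (w i)) (α / ‖n‖) (β / ‖n‖) (fun k => by rw [hR3, hu])
    (fun k => by rw [hR3, hl]) hv' (by rw [hR1, hR2]; exact heq)
  have hc' : ∀ k, w (iu k) + w (il (k + 2)) = (2 : ℝ) • R.symm c := by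
    intro k
    have h1 : R (w (iu k) + w (il (k + 2))) = R ((2 : ℝ) • R.symm c) := by
      rw [map_add, map_smul, LinearIsometryEquiv.apply_symm_apply]
      exact hc k
    exact R.injective h1
  obtain ⟨e, ζ, h⟩ := collinear_of hc'
  exact ⟨_, e, ζ, h⟩

lemma rho_opp : ∀ v i, rho v (i + 6) = rho v i + 6 := by decide

lemma rho_surj : ∀ v j, ∃ i, rho v i = j := by decide

/-- The equality case for any vertex. -/
theorem eq_links (hE : Stmt_EQC) (hL : Stmt_L10E) (hD : Stmt_EQD) (hRo : Stmt_ROTI) (v : Fin 12)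
    (w : Fin 12 → E3) (n : E3) (hn : n ≠ 0) (α β : ℝ)
    (hα : ∀ i, Adj v i → ⟪n, w i⟫ = α) (hβ : ∀ i, Adj (v + 6) i → ⟪n, w i⟫ = β) (hv : vol w ≠ 0)
    (heq : area w ^ 3 * vol regular ^ 2 ≤ area regular ^ 3 * vol w ^ 2) :
    ∃ (c e : E3) (ζ : Fin 12 → ℝ), ∀ i, w i + w (i + 6) = (2 : ℝ) • c + ζ i • e := by
  obtain ⟨c, e, ζ, h⟩ := eq_planes hE hL hD hRo (w ∘ rho v) n hn α β (fun k => hα _ (rho_iu v k))
    (fun k => hβ _ (rho_il v k)) (by rw [vol_rho]; exact hv) (by rw [area_rho, vol_rho]; exact heq)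
  choose s hs using rho_surj v
  refine ⟨c, e, fun j => ζ (s j), fun j => ?_⟩
  have h1 := h (s j)
  simp only [Function.comp_apply, rho_opp, hs] at h1
  exact h1

/-- The neighbourhood theorem. -/
theorem near_links (hE : Stmt_EQC) (hL : Stmt_L10E) (hD : Stmt_EQD) (hRo : Stmt_ROTI) (v : Fin 12)
    (w₀ : Fin 12 → E3) (n : E3) (hn : n ≠ 0) (α β : ℝ)
    (hα : ∀ i, Adj v i → ⟪n, w₀ i⟫ = α) (hβ : ∀ i, Adj (v + 6) i → ⟪n, w₀ i⟫ = β) (hv : vol w₀ ≠ 0) :
    ∃ ε > 0, ∀ w : Fin 12 → E3, (∀ i, dist (w i) (w₀ i) < ε) →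
      area regular ^ 3 * vol w ^ 2 ≤ area w ^ 3 * vol regular ^ 2 ∧
      (area regular ^ 3 * vol w ^ 2 = area w ^ 3 * vol regular ^ 2 →
        ∃ r > 0, ∀ i j, dist (w i) (w j) = r * dist (regular i) (regular j)) := by
  have h0 := parallel_links t_RI' v w₀ n hn α β hα hβ
  rcases h0.lt_or_eq with hlt | heq
  · have hc1 : Continuous fun w : Fin 12 → E3 => area regular ^ 3 * vol w ^ 2 :=
      continuous_const.mul (continuous_vol.pow 2)
    have hc2 : Continuous fun w : Fin 12 → E3 => area w ^ 3 * vol regular ^ 2 :=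
      (continuous_area.pow 3).mul continuous_const
    refine exists_radius' ((hc1.continuousAt.eventually_lt hc2.continuousAt hlt).mono
      fun w h => ⟨h.le, fun he => absurd he h.ne⟩)
  · obtain ⟨c, e, ζ, h⟩ := eq_links hE hL hD hRo v w₀ n hn α β hα hβ hv heq.symm.le
    exact near_collinear w₀ c e ζ h hv

end Pool.Agent.ICE
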