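import Pool.Agent.ICE.StmtsP
import Pool.Agent.ICL.Vert
import Pool.Agent.ICL.KEY
import Pool.Agent.ICL.CONV

/-!
# The tests with a general constant `g` in place of `g0`
-/

set_option autoImplicit false

namespace Pool.Agent.ICE

open Pool.Agent.ICL

/-- `Good` with constant `g`. -/
def GoodG (g a b C1 S1 C2 S2 A1 A2 M r1 r2 : ℝ) : Prop :=
  0 ≤ A1 ∧ 0 ≤ A2 ∧ 0 < M ∧ (a * S1 + b * S2) * A1 ≤ a * M ∧ (a * S1 + b * S2) * A2 ≤ b * M ∧
  g * M ^ 2 ≤ (a * S1 + b * S2) ^ 2 *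
    (A1 * Real.sqrt (1 - ((a * S1 + b * S2) * A1 / (a * M)) ^ 2)
      + A2 * Real.sqrt (1 - ((a * S1 + b * S2) * A2 / (b * M)) ^ 2) + r1 * C1 + r2 * C2)

lemma GoodG.mono {g g' a b C1 S1 C2 S2 A1 A2 M r1 r2 : ℝ} (h : GoodG g' a b C1 S1 C2 S2 A1 A2 M r1 r2)
    (hg : g ≤ g') : GoodG g a b C1 S1 C2 S2 A1 A2 M r1 r2 := by
  obtain ⟨h1, h2, h3, h4, h5, h6⟩ := h
  exact ⟨h1, h2, h3, h4, h5, (mul_le_mul_of_nonneg_right hg (sq_nonneg M)).trans h6⟩

/-- The symmetry of `GoodG`. -/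
lemma GoodG_swap {g a b C1 S1 C2 S2 A1 A2 M r1 r2 : ℝ} (h : GoodG g a b C1 S1 C2 S2 A1 A2 M r1 r2) :
    GoodG g b a C2 S2 C1 S1 A2 A1 M r2 r1 := by
  obtain ⟨h1, h2, h3, h4, h5, h6⟩ := h
  unfold GoodG
  rw [add_comm (b * S2) (a * S1)]
  exact ⟨h2, h1, h3, h5, h4, by linarith⟩

lemma IneqG.mono {g g' a b A1 A2 M r1 r2 : ℝ} (h : IneqG g' a b A1 A2 M r1 r2) (hg : g ≤ g') :
    IneqG g a b A1 A2 M r1 r2 := by
  intro p q k hp hq hk
  refine le_trans ?_ (h p q k hp hq hk)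
  have := mul_le_mul_of_nonneg_right hg (sq_nonneg (p * A1 + q * A2 + k * M))
  linarith

open Pool.Agent.ICL.M_KEY in
theorem KEYG {g a b C1 S1 C2 S2 A1 A2 M r1 r2 : ℝ} (hg0 : 0 < g) (ha : 0 < a) (hb : 0 ≤ b)
    (h1 : C1 ^ 2 + S1 ^ 2 ≤ 1) (h2 : C2 ^ 2 + S2 ^ 2 ≤ 1) (hs : 0 < a * S1 + b * S2)
    (hG : GoodG g a b C1 S1 C2 S2 A1 A2 M r1 r2) : IneqG g a b A1 A2 M r1 r2 := by
  intro p q h hp hq hh
  obtain ⟨hA1, hA2, hM, hs1, hs2, hg⟩ := hG
  set s := a * S1 + b * S2 with hsdef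
  set E := A1 * Real.sqrt (1 - (s * A1 / (a * M)) ^ 2) + A2 * Real.sqrt (1 - (s * A2 / (b * M)) ^ 2)
    + r1 * C1 + r2 * C2 with hE
  have c1 := cap a M s A1 p ha.le hM hs hA1 hs1
  have c2 := cap b M s A2 q hb hM hs hA2 hs2
  have c3 := cau r1 (h * a) C1 S1 h1
  have c4 := cau r2 (h * b) C2 S2 h2
  set V := p * A1 + q * A2 + h * M with hV
  have hV0 : 0 ≤ V := by
    have := mul_nonneg hp hA1
    have := mul_nonneg hq hA2
    have := mul_nonneg hh hM.le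
    rw [hV]; linarith
  have hyM : s / M * (h * M) = h * s := by field_simp
  have hyV : s / M * V = s / M * (p * A1) + s / M * (q * A2) + h * s := by
    rw [hV, mul_add, mul_add, hyM]
  have hAg : E + s / M * V ≤ Ag a b A1 A2 r1 r2 p q h := by
    unfold Ag
    rw [hyV, hE, hsdef]
    rw [hsdef] at c1 c2
    nlinarith [c1, c2, c3, c4]
  have hy0 : 0 < s / M := div_pos hs hM
  have hgE : g ≤ (s / M) ^ 2 * E := by
    rw [div_pow, div_mul_eq_mul_div, le_div_iff₀ (by positivity)]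
    exact hg
  have hE0 : 0 ≤ E := by
    by_contra hneg
    push Not at hneg
    have : (s / M) ^ 2 * E < 0 := mul_neg_of_pos_of_neg (by positivity) hneg
    linarith
  have hyV0 : 0 ≤ s / M * V := mul_nonneg hy0.le hV0
  calc 27 * g * V ^ 2 ≤ 27 * ((s / M) ^ 2 * E) * V ^ 2 := by
        apply mul_le_mul_of_nonneg_right _ (sq_nonneg V)
        linarith
    _ = 27 * (E * (s / M * V) ^ 2) := by ring
    _ ≤ 4 * (E + s / M * V) ^ 3 := cub _ _ hE0 hyV0
    _ ≤ 4 * Ag a b A1 A2 r1 r2 p q h ^ 3 := by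
        have : (E + s / M * V) ^ 3 ≤ Ag a b A1 A2 r1 r2 p q h ^ 3 :=
          pow_le_pow_left₀ (by linarith) hAg 3
        linarith

open Pool.Agent.ICL.M_CONV in
/-- CONV with three constants. -/
theorem CONVG {g g1 g2 a b C1 S1 C2 S2 A1 A2 M r1 r2 A1' A2' M' r1' r2' t : ℝ} (ha : 0 < a) (hb : 0 ≤ b)
    (hs : 0 < a * S1 + b * S2) (ht : 0 ≤ t) (ht1 : t ≤ 1)
    (hG : GoodG g1 a b C1 S1 C2 S2 A1 A2 M r1 r2) (hG' : GoodG g2 a b C1 S1 C2 S2 A1' A2' M' r1' r2')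
    (d1 : g * ((1 - t) * M + t * M') ^ 2 ≤ (1 - t) * (g1 * M ^ 2) + t * (g2 * M' ^ 2)) :
    GoodG g a b C1 S1 C2 S2 ((1 - t) * A1 + t * A1') ((1 - t) * A2 + t * A2') ((1 - t) * M + t * M')
      ((1 - t) * r1 + t * r1') ((1 - t) * r2 + t * r2') := by
  obtain ⟨hA1, hA2, hM, hs1, hs2, hg⟩ := hG
  obtain ⟨hA1', hA2', hM', hs1', hs2', hg'⟩ := hG'
  have ht2 : 0 ≤ 1 - t := by linarith
  set s := a * S1 + b * S2 with hsdef
  have hMM := mid_pos hM hM' ht ht1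
  refine ⟨add_nonneg (mul_nonneg ht2 hA1) (mul_nonneg ht hA1'),
    add_nonneg (mul_nonneg ht2 hA2) (mul_nonneg ht hA2'), hMM, ?_, ?_, ?_⟩
  · have e1 := mul_le_mul_of_nonneg_left hs1 ht2
    have e2 := mul_le_mul_of_nonneg_left hs1' ht
    linarith
  · have e1 := mul_le_mul_of_nonneg_left hs2 ht2
    have e2 := mul_le_mul_of_nonneg_left hs2' ht
    linarith
  · -- the first term
    have ra : ∀ x y : ℝ, s * x / (a * y) = (s / a) * x / y := by
      intro x y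
      rw [mul_comm a y, ← div_div, div_right_comm, div_mul_eq_mul_div, div_right_comm]
    have c1 : (1 - t) * (A1 * Real.sqrt (1 - (s * A1 / (a * M)) ^ 2)) +
        t * (A1' * Real.sqrt (1 - (s * A1' / (a * M')) ^ 2)) ≤
        ((1 - t) * A1 + t * A1') * Real.sqrt (1 - (s * ((1 - t) * A1 + t * A1') /
          (a * ((1 - t) * M + t * M'))) ^ 2) := by
      rw [ra, ra, ra]
      refine conc (by positivity) hA1 hM hA1' hM' ?_ ?_ ht ht1
      · rw [div_mul_eq_mul_div, div_le_iff₀ ha]; linarith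
      · rw [div_mul_eq_mul_div, div_le_iff₀ ha]; linarith
    have c2 : (1 - t) * (A2 * Real.sqrt (1 - (s * A2 / (b * M)) ^ 2)) +
        t * (A2' * Real.sqrt (1 - (s * A2' / (b * M')) ^ 2)) ≤
        ((1 - t) * A2 + t * A2') * Real.sqrt (1 - (s * ((1 - t) * A2 + t * A2') /
          (b * ((1 - t) * M + t * M'))) ^ 2) := by
      rcases eq_or_lt_of_le hb with h0 | hb0
      · have z1 : A2 = 0 := by
          rw [← h0, zero_mul] at hs2
          nlinarith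
        have z2 : A2' = 0 := by
          rw [← h0, zero_mul] at hs2'
          nlinarith
        rw [z1, z2]; simp
      · have rb : ∀ x y : ℝ, s * x / (b * y) = (s / b) * x / y := by
          intro x y
          rw [mul_comm b y, ← div_div, div_right_comm, div_mul_eq_mul_div, div_right_comm]
        rw [rb, rb, rb]
        refine conc (by positivity) hA2 hM hA2' hM' ?_ ?_ ht ht1
        · rw [div_mul_eq_mul_div, div_le_iff₀ hb0]; linarith
        · rw [div_mul_eq_mul_div, div_le_iff₀ hb0]; linarith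
    have d2 := mul_le_mul_of_nonneg_left hg ht2
    have d3 := mul_le_mul_of_nonneg_left hg' ht
    refine d1.trans ((add_le_add d2 d3).trans ?_)
    have e : (1 - t) * (s ^ 2 * (A1 * Real.sqrt (1 - (s * A1 / (a * M)) ^ 2)
          + A2 * Real.sqrt (1 - (s * A2 / (b * M)) ^ 2) + r1 * C1 + r2 * C2)) +
        t * (s ^ 2 * (A1' * Real.sqrt (1 - (s * A1' / (a * M')) ^ 2)
          + A2' * Real.sqrt (1 - (s * A2' / (b * M')) ^ 2) + r1' * C1 + r2' * C2)) =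
        s ^ 2 * (((1 - t) * (A1 * Real.sqrt (1 - (s * A1 / (a * M)) ^ 2)) +
          t * (A1' * Real.sqrt (1 - (s * A1' / (a * M')) ^ 2))) +
          ((1 - t) * (A2 * Real.sqrt (1 - (s * A2 / (b * M)) ^ 2)) +
          t * (A2' * Real.sqrt (1 - (s * A2' / (b * M')) ^ 2))) +
          ((1 - t) * r1 + t * r1') * C1 + ((1 - t) * r2 + t * r2') * C2) := by ring
    rw [e]
    refine mul_le_mul_of_nonneg_left ?_ (sq_nonneg s)
    linarith

end Pool.Agent.ICE
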