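import Pool.Agent.ICE.GVA

/-!
# Vertex checks in the region `1/2 ≤ b/a`
-/

set_option autoImplicit false

namespace Pool.Agent.ICE

open Pool.Agent.ICL

lemma Ap_11 {d s : ℝ} (h5 : s ^ 2 = 5) (hl : (2236067 / 1000000 : ℝ) ≤ s) (hu : s ≤ (2236068 / 1000000 : ℝ))
    (h1 : -(1 / 3) ≤ d) (h2 : d ≤ 1 / 3) :
    (7 * s - 15) * (1 + 1 / 4 * d ^ 2) * ((1 + 169 / 200 * d ^ 2) * (1 * (1 + d) ^ 2 + 1 * (1 - d) ^ 2 + (s - 1) * ((1 + d) * (1 - d)))) ^ 4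
      ≤ (2 + 13 / 5 * ((3 - s) / 4) * d ^ 2) ^ 2 *
        (1 * (1 + d) ^ 2 * ((29 / 10 * s - 57 / 10) * ((1 + 169 / 200 * d ^ 2) * (1 * (1 + d) ^ 2 + 1 * (1 - d) ^ 2 + (s - 1) * ((1 + d) * (1 - d)))) ^ 2
            + (23 / 10 * s - 43 / 10) * ((2 + 13 / 5 * ((3 - s) / 4) * d ^ 2) * (1 * (1 + d))) * ((1 + 169 / 200 * d ^ 2) * (1 * (1 + d) ^ 2 + 1 * (1 - d) ^ 2 + (s - 1) * ((1 + d) * (1 - d))))
            - 13 / 10 * ((2 + 13 / 5 * ((3 - s) / 4) * d ^ 2) * (1 * (1 + d))) ^ 2)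
          + 1 * (1 - d) ^ 2 * ((29 / 10 * s - 57 / 10) * ((1 + 169 / 200 * d ^ 2) * (1 * (1 + d) ^ 2 + 1 * (1 - d) ^ 2 + (s - 1) * ((1 + d) * (1 - d)))) ^ 2
            + (23 / 10 * s - 43 / 10) * ((2 + 13 / 5 * ((3 - s) / 4) * d ^ 2) * (1 * (1 - d))) * ((1 + 169 / 200 * d ^ 2) * (1 * (1 + d) ^ 2 + 1 * (1 - d) ^ 2 + (s - 1) * ((1 + d) * (1 - d))))
            - 13 / 10 * ((2 + 13 / 5 * ((3 - s) / 4) * d ^ 2) * (1 * (1 - d))) ^ 2)
          + (1 + 169 / 200 * d ^ 2) * (1 * (1 + d) ^ 2 + 1 * (1 - d) ^ 2 + (s - 1) * ((1 + d) * (1 - d))) ^ 2 * (((s - 1) * ((1 + d) * (1 - d)) - 1 * (1 + d) ^ 2) * ((3 - s) / 4 - 13 / 10 * d)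
            + ((s - 1) * ((1 + d) * (1 - d)) - 1 * (1 - d) ^ 2) * ((3 - s) / 4 + 13 / 10 * d))) := by
  have blo : ∀ A B : ℝ, 0 ≤ A → 0 ≤ B → 0 ≤ (11726477411008311 / 12500000) * B ^ 8 + (19204163443798997967 / 2500000000) * A ^ 1 * B ^ 7 + (6853407917491169151651 / 250000000000) * A ^ 2 * B ^ 6 + (2784314204708962236008697 / 50000000000000) * A ^ 3 * B ^ 5 + (14083196850368731186145937 / 200000000000000) * A ^ 4 * B ^ 4 + (2837501343334278947658231 / 50000000000000) * A ^ 5 * B ^ 3 + (1423010193664979172842037 / 50000000000000) * A ^ 6 * B ^ 2 + (50737009979477182380723 / 6250000000000) * A ^ 7 * B ^ 1 + (25198998677112733621567 / 25000000000000) * A ^ 8 := by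
    intro A B hA hB
    positivity
  have bhi : ∀ A B : ℝ, 0 ≤ A → 0 ≤ B → 0 ≤ (2931616909850661 / 3125000) * B ^ 8 + (4801034772743185917 / 625000000) * A ^ 1 * B ^ 7 + (1713349258258136903001 / 62500000000) * A ^ 2 * B ^ 6 + (696077309175671277807147 / 12500000000000) * A ^ 3 * B ^ 5 + (3520792719829077146118387 / 50000000000000) * A ^ 4 * B ^ 4 + (709374093119260235842581 / 12500000000000) * A ^ 5 * B ^ 3 + (355752019292784151049487 / 12500000000000) * A ^ 6 * B ^ 2 + (12684239492201748249273 / 1562500000000) * A ^ 7 * B ^ 1 + (6299747572985762369517 / 6250000000000) * A ^ 8 := by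
    intro A B hA hB
    positivity
  have hA : 0 ≤ d ^ 2 := sq_nonneg d
  have hB : 0 ≤ 1 / 9 - d ^ 2 := by nlinarith
  have plo : 0 ≤ ((312 / 5) * d ^ 2 + (20841037 / 12500) * d ^ 4 + (-(2947657077 / 250000)) * d ^ 6 + (-(25719710379 / 625000)) * d ^ 8 + (-(41264041469 / 1250000)) * d ^ 10 + (104943025343 / 10000000) * d ^ 12 + (128779578291 / 5000000) * d ^ 14 + (22874247851 / 2000000) * d ^ 16 + (7341576489 / 5000000) * d ^ 18) + 2236067 / 1000000 * ((-(454 / 25)) * d ^ 2 + (-(1822771 / 2500)) * d ^ 4 + (1299148133 / 250000) * d ^ 6 + (914439047659 / 50000000) * d ^ 8 + (2939312058431 / 200000000) * d ^ 10 + (-(7364930261 / 1562500)) * d ^ 12 + (-(1152190811083 / 100000000)) * d ^ 14 + (-(255758128483 / 50000000)) * d ^ 16 + (-(131332646081 / 200000000)) * d ^ 18) :=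
    le_of_le_of_eq (mul_nonneg (pow_nonneg hA 1) (blo (d ^ 2) (1 / 9 - d ^ 2) hA hB)) (by ring)
  have phi : 0 ≤ ((312 / 5) * d ^ 2 + (20841037 / 12500) * d ^ 4 + (-(2947657077 / 250000)) * d ^ 6 + (-(25719710379 / 625000)) * d ^ 8 + (-(41264041469 / 1250000)) * d ^ 10 + (104943025343 / 10000000) * d ^ 12 + (128779578291 / 5000000) * d ^ 14 + (22874247851 / 2000000) * d ^ 16 + (7341576489 / 5000000) * d ^ 18) + 2236068 / 1000000 * ((-(454 / 25)) * d ^ 2 + (-(1822771 / 2500)) * d ^ 4 + (1299148133 / 250000) * d ^ 6 + (914439047659 / 50000000) * d ^ 8 + (2939312058431 / 200000000) * d ^ 10 + (-(7364930261 / 1562500)) * d ^ 12 + (-(1152190811083 / 100000000)) * d ^ 14 + (-(255758128483 / 50000000)) * d ^ 16 + (-(131332646081 / 200000000)) * d ^ 18) :=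
    le_of_le_of_eq (mul_nonneg (pow_nonneg hA 1) (bhi (d ^ 2) (1 / 9 - d ^ 2) hA hB)) (by ring)
  have hR := affine_pos hl hu plo phi
  rw [← sub_nonneg]
  refine le_of_le_of_eq hR ?_
  linear_combination (-((153 / 5) + (61 / 5) * s + (-15) * s ^ 2 + (-7) * s ^ 3 + (148189 / 500) * d ^ 2 + (-(18873 / 250)) * d ^ 2 * s + (-(3144 / 25)) * d ^ 2 * s ^ 2 + (389 / 100) * d ^ 2 * s ^ 3 + (123010597 / 100000) * d ^ 4 + (-(52309311 / 50000)) * d ^ 4 * s + (-(222889 / 10000)) * d ^ 4 * s ^ 2 + (126431 / 5000) * d ^ 4 * s ^ 3 + (-(169 / 800)) * d ^ 4 * s ^ 4 + (-(2518446849 / 2000000)) * d ^ 6 + (-(5761840689 / 4000000)) * d ^ 6 * s + (1592349123 / 4000000) * d ^ 6 * s ^ 2 + (-(38270071 / 4000000)) * d ^ 6 * s ^ 3 + (72839 / 160000) * d ^ 6 * s ^ 4 + (-(13366004859903 / 1600000000)) * d ^ 8 + (1811304720043 / 1600000000) * d ^ 8 * s + (365720775487 / 1600000000) * d ^ 8 * s ^ 2 + (-(56167686627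 / 1600000000)) * d ^ 8 * s ^ 3 + (-(15717 / 160000)) * d ^ 8 * s ^ 4 + (-(53993940261059 / 6400000000)) * d ^ 10 + (18432759218671 / 6400000000) * d ^ 10 * s + (-(2189025932813 / 6400000000)) * d ^ 10 * s ^ 2 + (779614817 / 256000000) * d ^ 10 * s ^ 3 + (-(51883 / 160000)) * d ^ 10 * s ^ 4 + (-(3069787487 / 64000000)) * d ^ 12 + (1571078949167 / 1600000000) * d ^ 12 * s + (-(458356823457 / 1600000000)) * d ^ 12 * s ^ 2 + (6845409389 / 320000000) * d ^ 12 * s ^ 3 + (28561 / 160000) * d ^ 12 * s ^ 4 + (12732344797263 / 3200000000) * d ^ 14 + (-(468799082999 / 640000000)) * d ^ 14 * s + (119245630881 / 3200000000) * d ^ 14 * s ^ 2 + (406337347 / 128000000) * d ^ 14 * s ^ 3 + (790249996289 / 400000000) * d ^ 16 + (-(12921367693 / 25000000)) * d ^ 16 * s + (29602819597 / 400000000) * d ^ 16 * s ^ 2 + (-(33787663 / 8000000)) * d ^ 16 * s ^ 3 + (1681221015981 / 6400000000) * d ^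 18 + (-(483728317553 / 6400000000)) * d ^ 18 * s + (80757341379 / 6400000000) * d ^ 18 * s ^ 2 + (-(5710115047 / 6400000000)) * d ^ 18 * s ^ 3)) * h5

lemma Az1_11 {d s : ℝ} (h5 : s ^ 2 = 5) (hl : (2236067 / 1000000 : ℝ) ≤ s) (hu : s ≤ (2236068 / 1000000 : ℝ))
    (h1 : -(1 / 3) ≤ d) (h2 : d ≤ 1 / 3) :
    (2 + 13 / 5 * ((3 - s) / 4) * d ^ 2) * (1 * (1 + d))
      ≤ 838 / 1000 * ((1 + 169 / 200 * d ^ 2) * (1 * (1 + d) ^ 2 + 1 * (1 - d) ^ 2 + (s - 1) * ((1 + d) * (1 - d)))) := by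
  have blo : ∀ A B : ℝ, 0 ≤ A → 0 ≤ B → 0 ≤ (1695054637987 / 200000000000) * B ^ 4 + (8337197255437 / 400000000000) * A ^ 1 * B ^ 3 + (3817002900039 / 200000000000) * A ^ 2 * B ^ 2 + (3086164190437 / 400000000000) * A ^ 3 * B ^ 1 + (307812904237 / 200000000000) * A ^ 4 := by
    intro A B hA hB
    positivity
  have bhi : ∀ A B : ℝ, 0 ≤ A → 0 ≤ B → 0 ≤ (423763877937 / 50000000000) * B ^ 4 + (2084301052887 / 100000000000) * A ^ 1 * B ^ 3 + (954251955189 / 50000000000) * A ^ 2 * B ^ 2 + (771542737887 / 100000000000) * A ^ 3 * B ^ 1 + (76953456687 / 50000000000) * A ^ 4 := by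
    intro A B hA hB
    positivity
  have hA : 0 ≤ d + 1 / 3 := by linarith
  have hB : 0 ≤ 1 / 3 - d := by linarith
  have plo : 0 ≤ ((-(581 / 500)) + (-2) * d ^ 1 + (127211 / 100000) * d ^ 2 + (-(39 / 20)) * d ^ 3 + (212433 / 100000) * d ^ 4) + 2236067 / 1000000 * ((419 / 500) + (52011 / 100000) * d ^ 2 + (13 / 20) * d ^ 3 + (-(70811 / 100000)) * d ^ 4) :=
    le_of_le_of_eq (blo (d + 1 / 3) (1 / 3 - d) hA hB) (by ring)
  have phi : 0 ≤ ((-(581 / 500)) + (-2) * d ^ 1 + (127211 / 100000) * d ^ 2 + (-(39 / 20)) * d ^ 3 + (212433 / 100000) * d ^ 4) + 2236068 / 1000000 * ((419 / 500) + (52011 / 100000) * d ^ 2 + (13 / 20) * d ^ 3 + (-(70811 / 100000)) * d ^ 4) :=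
    le_of_le_of_eq (bhi (d + 1 / 3) (1 / 3 - d) hA hB) (by ring)
  have hR := affine_pos hl hu plo phi
  rw [← sub_nonneg]
  refine le_of_le_of_eq hR ?_
  linear_combination (-(0)) * h5

lemma Az2_11 {d s : ℝ} (h5 : s ^ 2 = 5) (hl : (2236067 / 1000000 : ℝ) ≤ s) (hu : s ≤ (2236068 / 1000000 : ℝ))
    (h1 : -(1 / 3) ≤ d) (h2 : d ≤ 1 / 3) :
    (2 + 13 / 5 * ((3 - s) / 4) * d ^ 2) * (1 * (1 - d))
      ≤ 838 / 1000 * ((1 + 169 / 200 * d ^ 2) * (1 * (1 + d) ^ 2 + 1 * (1 - d) ^ 2 + (s - 1) * ((1 + d) * (1 - d)))) := by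
  have blo : ∀ A B : ℝ, 0 ≤ A → 0 ≤ B → 0 ≤ (307812904237 / 200000000000) * B ^ 4 + (3086164190437 / 400000000000) * A ^ 1 * B ^ 3 + (3817002900039 / 200000000000) * A ^ 2 * B ^ 2 + (8337197255437 / 400000000000) * A ^ 3 * B ^ 1 + (1695054637987 / 200000000000) * A ^ 4 := by
    intro A B hA hB
    positivity
  have bhi : ∀ A B : ℝ, 0 ≤ A → 0 ≤ B → 0 ≤ (76953456687 / 50000000000) * B ^ 4 + (771542737887 / 100000000000) * A ^ 1 * B ^ 3 + (954251955189 / 50000000000) * A ^ 2 * B ^ 2 + (2084301052887 / 100000000000) * A ^ 3 * B ^ 1 + (423763877937 / 50000000000) * A ^ 4 := by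
    intro A B hA hB
    positivity
  have hA : 0 ≤ d + 1 / 3 := by linarith
  have hB : 0 ≤ 1 / 3 - d := by linarith
  have plo : 0 ≤ ((-(581 / 500)) + 2 * d ^ 1 + (127211 / 100000) * d ^ 2 + (39 / 20) * d ^ 3 + (212433 / 100000) * d ^ 4) + 2236067 / 1000000 * ((419 / 500) + (52011 / 100000) * d ^ 2 + (-(13 / 20)) * d ^ 3 + (-(70811 / 100000)) * d ^ 4) :=
    le_of_le_of_eq (blo (d + 1 / 3) (1 / 3 - d) hA hB) (by ring)
  have phi : 0 ≤ ((-(581 / 500)) + 2 * d ^ 1 + (127211 / 100000) * d ^ 2 + (39 / 20) * d ^ 3 + (212433 / 100000) * d ^ 4) + 2236068 / 1000000 * ((419 / 500) + (52011 / 100000) * d ^ 2 + (-(13 / 20)) * d ^ 3 + (-(70811 / 100000)) * d ^ 4) :=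
    le_of_le_of_eq (bhi (d + 1 / 3) (1 / 3 - d) hA hB) (by ring)
  have hR := affine_pos hl hu plo phi
  rw [← sub_nonneg]
  refine le_of_le_of_eq hR ?_
  linear_combination (-(0)) * h5

lemma A_11 {d : ℝ} (h1 : -(1 / 3) ≤ d) (h2 : d ≤ 1 / 3) :
    GoodG (g0 * (1 + 1 / 4 * d ^ 2)) (1 + d) (1 - d) (C1A d) (S1A d) (C2A d) (S2A d) (1 * (1 + d) ^ 2)
      (1 * (1 - d) ^ 2)
      (1 * (1 + d) ^ 2 + 1 * (1 - d) ^ 2 + (Real.sqrt 5 - 1) * ((1 + d) * (1 - d)))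
      ((Real.sqrt 5 - 1) * ((1 + d) * (1 - d)) - 1 * (1 + d) ^ 2)
      ((Real.sqrt 5 - 1) * ((1 + d) * (1 - d)) - 1 * (1 - d) ^ 2) := by
  have hab : 0 < (1 + d) * (1 - d) := mul_pos (by linarith) (by linarith)
  have ht : 0 < (Real.sqrt 5 - 1) := by
    have := sqrt5_lb
    linarith
  exact good_hatG h1 h2 (by norm_num) (by norm_num) (by positivity)
    (Az1_11 sqrt5_sq sqrt5_lb sqrt5_ub h1 h2) (Az2_11 sqrt5_sq sqrt5_lb sqrt5_ub h1 h2)
    (Ap_11 sqrt5_sq sqrt5_lb sqrt5_ub h1 h2)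

end Pool.Agent.ICE
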