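import Pool.Agent.ICE.GVert

/-!
# Vertex checks B2
-/

set_option autoImplicit false

namespace Pool.Agent.ICE

open Pool.Agent.ICL

lemma B2_1h_a {x : ℝ} (hl : (3 / 4) ≤ x) (hu : x ≤ 1) :
    VtG (121 / 500) (97 / 100) (97 / 200) (1749 / 2000) 1 (1 / 2) (743 / 500) x := by
  have hA : 0 ≤ x - (3 / 4) := by linarith
  have hB : 0 ≤ 1 - x := by linarith
  have hx : 0 ≤ x := by linarith
  have hM : 0 < 1 + (1 / 2) * x ^ 2 + (743 / 500) * x := by positivity
  have hs : 0 < (97 / 100) + x * (1749 / 2000) := by positivity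
  have k1 : (77 / 125) * (1 + (1 / 2) * x ^ 2 + (743 / 500) * x) ≤ ((97 / 100) + x * (1749 / 2000)) * 1 := by
    have hb : 0 ≤ (150093 / 62500) * (1 - x) ^ 2 + (174467 / 62500) * ((x - (3 / 4)) * (1 - x)) + (1281 / 15625) * (x - (3 / 4)) ^ 2 := by
      have h1 := mul_nonneg hA hB
      positivity
    nlinarith [hb]
  have k2 : ((97 / 100) + x * (1749 / 2000)) * 1 ≤ (17 / 25) * (1 + (1 / 2) * x ^ 2 + (743 / 500) * x) := by
    have hb : 0 ≤ (647 / 12500) * (1 - x) ^ 2 + (33593 / 12500) * ((x - (3 / 4)) * (1 - x)) + (9299 / 3125) * (x - (3 / 4)) ^ 2 := by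
      have h1 := mul_nonneg hA hB
      positivity
    nlinarith [hb]
  have k3 : (253 / 1000) * (1 + (1 / 2) * x ^ 2 + (743 / 500) * x) ≤ ((97 / 100) + x * (1749 / 2000)) * (1 / 2) * x := by
    have hb : 0 ≤ (28627 / 500000) * (1 - x) ^ 2 + (301897 / 125000) * ((x - (3 / 4)) * (1 - x)) + (41698 / 15625) * (x - (3 / 4)) ^ 2 := by
      have h1 := mul_nonneg hA hB
      positivity
    nlinarith [hb]
  have k4 : ((97 / 100) + x * (1749 / 2000)) * (1 / 2) * x ≤ (31 / 100) * (1 + (1 / 2) * x ^ 2 + (743 / 500) * x) := by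
    have hb : 0 ≤ (212767 / 100000) * (1 - x) ^ 2 + (15403 / 6250) * ((x - (3 / 4)) * (1 - x)) + (341 / 6250) * (x - (3 / 4)) ^ 2 := by
      have h1 := mul_nonneg hA hB
      positivity
    nlinarith [hb]
  refine good_ofG (σ := ((97 / 100) + x * (1749 / 2000))) (α1 := (10371 / 10000)) (β1 := (3287 / 5000)) (α2 := (1251 / 1250)) (β2 := (5213 / 10000))
    (by ring) hs hM hx (by norm_num) (by norm_num) ?_ ?_ ?_ ?_ ?_
  · nlinarith [k2, hM]
  · nlinarith [k4, hM]
  · exact mul_le_mul_of_nonneg_left (sqrt_chord hM (by norm_num) k1 k2 (by norm_num) (by norm_num)) (by norm_num)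
  · exact mul_le_mul_of_nonneg_left (sqrt_chord hM (by norm_num) k3 k4 (by norm_num) (by norm_num)) (by norm_num)
  · have hb : ∀ A B : ℝ, 0 ≤ A → 0 ≤ B → 0 ≤ (3036849434474096279109787 / 32000000000000000000) * B ^ 8 + (978558981393161789747043 / 1000000000000000000) * A ^ 1 * B ^ 7 + (2157258540830247242144929 / 500000000000000000) * A ^ 2 * B ^ 6 + (667661361273207187059001 / 62500000000000000) * A ^ 3 * B ^ 5 + (203820041830906094305517 / 12500000000000000) * A ^ 4 * B ^ 4 + (61531640350486624994133 / 3906250000000000) * A ^ 5 * B ^ 3 + (18404759307914643143617 / 1953125000000000) * A ^ 6 * B ^ 2 + (780292838853226589519 / 244140625000000) * A ^ 7 * B ^ 1 + (230010445979842792091 / 488281250000000) * A ^ 8 := by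
      intro A B hA hB
      positivity
    exact le_of_le_of_eq (hb (x - (3 / 4)) (1 - x) hA hB) (by ring)

lemma B2_h1_a {x : ℝ} (hl : (3 / 4) ≤ x) (hu : x ≤ 1) :
    VtG (121 / 500) (97 / 100) (97 / 200) (1749 / 2000) (1 / 2) 1 (743 / 500) x := by
  have hA : 0 ≤ x - (3 / 4) := by linarith
  have hB : 0 ≤ 1 - x := by linarith
  have hx : 0 ≤ x := by linarith
  have hM : 0 < (1 / 2) + 1 * x ^ 2 + (743 / 500) * x := by positivity
  have hs : 0 < (97 / 100) + x * (1749 / 2000) := by positivity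
  have k1 : (307 / 1000) * ((1 / 2) + 1 * x ^ 2 + (743 / 500) * x) ≤ ((97 / 100) + x * (1749 / 2000)) * (1 / 2) := by
    have hb : 0 ≤ (289197 / 125000) * (1 - x) ^ 2 + (84667 / 31250) * ((x - (3 / 4)) * (1 - x)) + (1387 / 15625) * (x - (3 / 4)) ^ 2 := by
      have h1 := mul_nonneg hA hB
      positivity
    nlinarith [hb]
  have k2 : ((97 / 100) + x * (1749 / 2000)) * (1 / 2) ≤ (3 / 8) * ((1 / 2) + 1 * x ^ 2 + (743 / 500) * x) := by
    have hb : 0 ≤ (11 / 200) * (1 - x) ^ 2 + (71 / 25) * ((x - (3 / 4)) * (1 - x)) + (79 / 25) * (x - (3 / 4)) ^ 2 := by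
      have h1 := mul_nonneg hA hB
      positivity
    nlinarith [hb]
  have k3 : (559 / 1000) * ((1 / 2) + 1 * x ^ 2 + (743 / 500) * x) ≤ ((97 / 100) + x * (1749 / 2000)) * 1 * x := by
    have hb : 0 ≤ (9853 / 250000) * (1 - x) ^ 2 + (316141 / 125000) * ((x - (3 / 4)) * (1 - x)) + (87663 / 31250) * (x - (3 / 4)) ^ 2 := by
      have h1 := mul_nonneg hA hB
      positivity
    nlinarith [hb]
  have k4 : ((97 / 100) + x * (1749 / 2000)) * 1 * x ≤ (619 / 1000) * ((1 / 2) + 1 * x ^ 2 + (743 / 500) * x) := by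
    have hb : 0 ≤ (512627 / 250000) * (1 - x) ^ 2 + (295919 / 125000) * ((x - (3 / 4)) * (1 - x)) + (1917 / 31250) * (x - (3 / 4)) ^ 2 := by
      have h1 := mul_nonneg hA hB
      positivity
    nlinarith [hb]
  refine good_ofG (σ := ((97 / 100) + x * (1749 / 2000))) (α1 := (5009 / 5000)) (β1 := (2661 / 5000)) (α2 := (5113 / 5000)) (β2 := (6193 / 10000))
    (by ring) hs hM hx (by norm_num) (by norm_num) ?_ ?_ ?_ ?_ ?_
  · nlinarith [k2, hM]
  · nlinarith [k4, hM]
  · exact mul_le_mul_of_nonneg_left (sqrt_chord hM (by norm_num) k1 k2 (by norm_num) (by norm_num)) (by norm_num)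
  · exact mul_le_mul_of_nonneg_left (sqrt_chord hM (by norm_num) k3 k4 (by norm_num) (by norm_num)) (by norm_num)
  · have hb : ∀ A B : ℝ, 0 ≤ A → 0 ≤ B → 0 ≤ (779819449799782902696039 / 4000000000000000000) * B ^ 8 + (210503086515743204668071 / 125000000000000000) * A ^ 1 * B ^ 7 + (394089607481172575405263 / 62500000000000000) * A ^ 2 * B ^ 6 + (208455100737793561720019 / 15625000000000000) * A ^ 3 * B ^ 5 + (217508520928065476029807 / 12500000000000000) * A ^ 4 * B ^ 4 + (55754961826763723590133 / 3906250000000000) * A ^ 5 * B ^ 3 + (13966553239692863377617 / 1953125000000000) * A ^ 6 * B ^ 2 + (484150319964414551169 / 244140625000000) * A ^ 7 * B ^ 1 + (56043699460521582783 / 244140625000000) * A ^ 8 := by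
      intro A B hA hB
      positivity
    exact le_of_le_of_eq (hb (x - (3 / 4)) (1 - x) hA hB) (by ring)

lemma B2_10_a {x : ℝ} (hl : (3 / 4) ≤ x) (hu : x ≤ 1) :
    VtG (121 / 500) (97 / 100) (97 / 200) (1749 / 2000) 1 0 (217 / 125) x := by
  have hA : 0 ≤ x - (3 / 4) := by linarith
  have hB : 0 ≤ 1 - x := by linarith
  have hx : 0 ≤ x := by linarith
  have hM : 0 < 1 + 0 * x ^ 2 + (217 / 125) * x := by positivity
  have hs : 0 < (97 / 100) + x * (1749 / 2000) := by positivity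
  have k1 : (673 / 1000) * (1 + 0 * x ^ 2 + (217 / 125) * x) ≤ ((97 / 100) + x * (1749 / 2000)) * 1 := by
    have hb : 0 ≤ (76629 / 62500) * (1 - x) ^ 2 + (79801 / 62500) * ((x - (3 / 4)) * (1 - x)) + (793 / 15625) * (x - (3 / 4)) ^ 2 := by
      have h1 := mul_nonneg hA hB
      positivity
    nlinarith [hb]
  have k2 : ((97 / 100) + x * (1749 / 2000)) * 1 ≤ (177 / 250) * (1 + 0 * x ^ 2 + (217 / 125) * x) := by
    have hb : 0 ≤ (3941 / 62500) * (1 - x) ^ 2 + (96529 / 62500) * ((x - (3 / 4)) * (1 - x)) + (23147 / 15625) * (x - (3 / 4)) ^ 2 := by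
      have h1 := mul_nonneg hA hB
      positivity
    nlinarith [hb]
  refine good_ofG (σ := ((97 / 100) + x * (1749 / 2000))) (α1 := (658 / 625)) (β1 := (1729 / 2500)) (α2 := 0) (β2 := 0)
    (by ring) hs hM hx (by norm_num) (by norm_num) ?_ ?_ ?_ ?_ ?_
  · nlinarith [k2, hM]
  · nlinarith [hM]
  · exact mul_le_mul_of_nonneg_left (sqrt_chord hM (by norm_num) k1 k2 (by norm_num) (by norm_num)) (by norm_num)
  · simp
  · have hb : ∀ A B : ℝ, 0 ≤ A → 0 ≤ B → 0 ≤ (619269788589843816711 / 250000000000000000) * B ^ 5 + (856190473674007391179 / 50000000000000000) * A ^ 1 * B ^ 4 + (28891858480007411571 / 625000000000000) * A ^ 2 * B ^ 3 + (95778996388829542089 / 1562500000000000) * A ^ 3 * B ^ 2 + (978815274898301653 / 24414062500000) * A ^ 4 * B ^ 1 + (10133660105931456263 / 976562500000000) * A ^ 5 := by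
      intro A B hA hB
      positivity
    exact le_of_le_of_eq (hb (x - (3 / 4)) (1 - x) hA hB) (by ring)

lemma B2_01_a {x : ℝ} (hl : (3 / 4) ≤ x) (hu : x ≤ 1) :
    VtG (121 / 500) (97 / 100) (97 / 200) (1749 / 2000) 0 1 (217 / 125) x := by
  have hA : 0 ≤ x - (3 / 4) := by linarith
  have hB : 0 ≤ 1 - x := by linarith
  have hx : 0 ≤ x := by linarith
  have hx0 : 0 < x := by linarith
  have hM : 0 < 0 + 1 * x ^ 2 + (217 / 125) * x := by positivity
  have hs : 0 < (97 / 100) + x * (1749 / 2000) := by positivity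
  have k3 : (653 / 1000) * (0 + 1 * x ^ 2 + (217 / 125) * x) ≤ ((97 / 100) + x * (1749 / 2000)) * 1 * x := by
    have hb : 0 ≤ (7551 / 250000) * (1 - x) ^ 2 + (11484 / 15625) * ((x - (3 / 4)) * (1 - x)) + (14473 / 15625) * (x - (3 / 4)) ^ 2 := by
      have h1 := mul_nonneg hA hB
      positivity
    nlinarith [hb]
  have k4 : ((97 / 100) + x * (1749 / 2000)) * 1 * x ≤ (169 / 250) * (0 + 1 * x ^ 2 + (217 / 125) * x) := by
    have hb : 0 ≤ (163983 / 250000) * (1 - x) ^ 2 + (29219 / 31250) * ((x - (3 / 4)) * (1 - x)) + (1259 / 15625) * (x - (3 / 4)) ^ 2 := by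
      have h1 := mul_nonneg hA hB
      positivity
    nlinarith [hb]
  refine good_ofG (σ := ((97 / 100) + x * (1749 / 2000))) (α1 := 0) (β1 := 0) (α2 := (5213 / 5000)) (β2 := (669 / 1000))
    (by ring) hs hM hx (by norm_num) (by norm_num) ?_ ?_ ?_ ?_ ?_
  · nlinarith [hM]
  · nlinarith [k4, hM]
  · simp
  · exact mul_le_mul_of_nonneg_left (sqrt_chord hM (by norm_num) k3 k4 (by norm_num) (by norm_num)) (by norm_num)
  · have hb : ∀ A B : ℝ, 0 ≤ A → 0 ≤ B → 0 ≤ (12758873922678768191941 / 2000000000000000000) * B ^ 5 + (15485538589192657430051 / 500000000000000000) * A ^ 1 * B ^ 4 + (736661616075975438509 / 12500000000000000) * A ^ 2 * B ^ 3 + (852059643924495827227 / 15625000000000000) * A ^ 3 * B ^ 2 + (189317720861925940713 / 7812500000000000) * A ^ 4 * B ^ 1 + (7893665806640957751 / 1953125000000000) * A ^ 5 := by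
      intro A B hA hB
      positivity
    exact le_of_le_of_eq (mul_nonneg (pow_nonneg hx 3) (hb (x - (3 / 4)) (1 - x) hA hB)) (by ring)

lemma B2_00_a {x : ℝ} (hl : (3 / 4) ≤ x) (hu : x ≤ 1) :
    VtG (121 / 500) (97 / 100) (97 / 200) (1749 / 2000) 0 0 (559 / 250) x := by
  have hA : 0 ≤ x - (3 / 4) := by linarith
  have hB : 0 ≤ 1 - x := by linarith
  have hx : 0 ≤ x := by linarith
  have hx0 : 0 < x := by linarith
  have hM : 0 < 0 + 0 * x ^ 2 + (559 / 250) * x := by positivity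
  have hs : 0 < (97 / 100) + x * (1749 / 2000) := by positivity
  refine good_ofG (σ := ((97 / 100) + x * (1749 / 2000))) (α1 := 0) (β1 := 0) (α2 := 0) (β2 := 0)
    (by ring) hs hM hx (by norm_num) (by norm_num) ?_ ?_ ?_ ?_ ?_
  · nlinarith [hM]
  · nlinarith [hM]
  · simp
  · simp
  · have hb : ∀ A B : ℝ, 0 ≤ A → 0 ≤ B → 0 ≤ (9890853712796925817 / 62500000000000000) * B ^ 2 + (2711879284288751759 / 7812500000000000) * A ^ 1 * B ^ 1 + (762040211060820393 / 3906250000000000) * A ^ 2 := by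
      intro A B hA hB
      positivity
    exact le_of_le_of_eq (mul_nonneg (pow_nonneg hx 3) (hb (x - (3 / 4)) (1 - x) hA hB)) (by ring)

lemma B2_1h_b {x : ℝ} (hl : (3 / 4) ≤ x) (hu : x ≤ 1) :
    VtG (121 / 500) (97 / 100) (97 / 200) (1749 / 2000) 1 (1 / 2) (14861 / 10000) x := by
  have hA : 0 ≤ x - (3 / 4) := by linarith
  have hB : 0 ≤ 1 - x := by linarith
  have hx : 0 ≤ x := by linarith
  have hM : 0 < 1 + (1 / 2) * x ^ 2 + (14861 / 10000) * x := by positivity
  have hs : 0 < (97 / 100) + x * (1749 / 2000) := by positivity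
  have k1 : (77 / 125) * (1 + (1 / 2) * x ^ 2 + (14861 / 10000) * x) ≤ ((97 / 100) + x * (1749 / 2000)) * 1 := by
    have hb : 0 ≤ (375117 / 156250) * (1 - x) ^ 2 + (217949 / 78125) * ((x - (3 / 4)) * (1 - x)) + (6328 / 78125) * (x - (3 / 4)) ^ 2 := by
      have h1 := mul_nonneg hA hB
      positivity
    nlinarith [hb]
  have k2 : ((97 / 100) + x * (1749 / 2000)) * 1 ≤ (17 / 25) * (1 + (1 / 2) * x ^ 2 + (14861 / 10000) * x) := by
    have hb : 0 ≤ (1643 / 31250) * (1 - x) ^ 2 + (42021 / 15625) * ((x - (3 / 4)) * (1 - x)) + (46512 / 15625) * (x - (3 / 4)) ^ 2 := by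
      have h1 := mul_nonneg hA hB
      positivity
    nlinarith [hb]
  have k3 : (253 / 1000) * (1 + (1 / 2) * x ^ 2 + (14861 / 10000) * x) ≤ ((97 / 100) + x * (1749 / 2000)) * (1 / 2) * x := by
    have hb : 0 ≤ (17797 / 312500) * (1 - x) ^ 2 + (6036169 / 2500000) * ((x - (3 / 4)) * (1 - x)) + (1667667 / 625000) * (x - (3 / 4)) ^ 2 := by
      have h1 := mul_nonneg hA hB
      positivity
    nlinarith [hb]
  have k4 : ((97 / 100) + x * (1749 / 2000)) * (1 / 2) * x ≤ (31 / 100) * (1 + (1 / 2) * x ^ 2 + (14861 / 10000) * x) := by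
    have hb : 0 ≤ (1064021 / 500000) * (1 - x) ^ 2 + (616337 / 250000) * ((x - (3 / 4)) * (1 - x)) + (3441 / 62500) * (x - (3 / 4)) ^ 2 := by
      have h1 := mul_nonneg hA hB
      positivity
    nlinarith [hb]
  refine good_ofG (σ := ((97 / 100) + x * (1749 / 2000))) (α1 := (10371 / 10000)) (β1 := (3287 / 5000)) (α2 := (1251 / 1250)) (β2 := (5213 / 10000))
    (by ring) hs hM hx (by norm_num) (by norm_num) ?_ ?_ ?_ ?_ ?_
  · nlinarith [k2, hM]
  · nlinarith [k4, hM]
  · exact mul_le_mul_of_nonneg_left (sqrt_chord hM (by norm_num) k1 k2 (by norm_num) (by norm_num)) (by norm_num)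
  · exact mul_le_mul_of_nonneg_left (sqrt_chord hM (by norm_num) k3 k4 (by norm_num) (by norm_num)) (by norm_num)
  · have hb : ∀ A B : ℝ, 0 ≤ A → 0 ≤ B → 0 ≤ (379590198298010741602727279 / 4000000000000000000000) * B ^ 8 + (122315763636561560168245141 / 125000000000000000000) * A ^ 1 * B ^ 7 + (134824999620923554564502759 / 31250000000000000000) * A ^ 2 * B ^ 6 + (667646650704219464795127901 / 62500000000000000000) * A ^ 3 * B ^ 5 + (50954100525841817747107501 / 3125000000000000000) * A ^ 4 * B ^ 4 + (30765378595230759328895029 / 1953125000000000000) * A ^ 5 * B ^ 3 + (4601137613844483754866163 / 488281250000000000) * A ^ 6 * B ^ 2 + (780286031225207543783489 / 244140625000000000) * A ^ 7 * B ^ 1 + (14375560873324765827121 / 30517578125000000) * A ^ 8 := by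
      intro A B hA hB
      positivity
    exact le_of_le_of_eq (hb (x - (3 / 4)) (1 - x) hA hB) (by ring)

lemma B2_h1_b {x : ℝ} (hl : (3 / 4) ≤ x) (hu : x ≤ 1) :
    VtG (121 / 500) (97 / 100) (97 / 200) (1749 / 2000) (1 / 2) 1 (14861 / 10000) x := by
  have hA : 0 ≤ x - (3 / 4) := by linarith
  have hB : 0 ≤ 1 - x := by linarith
  have hx : 0 ≤ x := by linarith
  have hM : 0 < (1 / 2) + 1 * x ^ 2 + (14861 / 10000) * x := by positivity
  have hs : 0 < (97 / 100) + x * (1749 / 2000) := by positivity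
  have k1 : (307 / 1000) * ((1 / 2) + 1 * x ^ 2 + (14861 / 10000) * x) ≤ ((97 / 100) + x * (1749 / 2000)) * (1 / 2) := by
    have hb : 0 ≤ (5783019 / 2500000) * (1 - x) ^ 2 + (6771211 / 2500000) * ((x - (3 / 4)) * (1 - x)) + (55173 / 625000) * (x - (3 / 4)) ^ 2 := by
      have h1 := mul_nonneg hA hB
      positivity
    nlinarith [hb]
  have k2 : ((97 / 100) + x * (1749 / 2000)) * (1 / 2) ≤ (3 / 8) * ((1 / 2) + 1 * x ^ 2 + (14861 / 10000) * x) := by
    have hb : 0 ≤ (1109 / 20000) * (1 - x) ^ 2 + (56821 / 20000) * ((x - (3 / 4)) * (1 - x)) + (15803 / 5000) * (x - (3 / 4)) ^ 2 := by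
      have h1 := mul_nonneg hA hB
      positivity
    nlinarith [hb]
  have k3 : (559 / 1000) * ((1 / 2) + 1 * x ^ 2 + (14861 / 10000) * x) ≤ ((97 / 100) + x * (1749 / 2000)) * 1 * x := by
    have hb : 0 ≤ (96853 / 2500000) * (1 - x) ^ 2 + (6318907 / 2500000) * ((x - (3 / 4)) * (1 - x)) + (1752701 / 625000) * (x - (3 / 4)) ^ 2 := by
      have h1 := mul_nonneg hA hB
      positivity
    nlinarith [hb]
  have k4 : ((97 / 100) + x * (1749 / 2000)) * 1 * x ≤ (619 / 1000) * ((1 / 2) + 1 * x ^ 2 + (14861 / 10000) * x) := by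
    have hb : 0 ≤ (5128127 / 2500000) * (1 - x) ^ 2 + (5922713 / 2500000) * ((x - (3 / 4)) * (1 - x)) + (38959 / 625000) * (x - (3 / 4)) ^ 2 := by
      have h1 := mul_nonneg hA hB
      positivity
    nlinarith [hb]
  refine good_ofG (σ := ((97 / 100) + x * (1749 / 2000))) (α1 := (5009 / 5000)) (β1 := (2661 / 5000)) (α2 := (5113 / 5000)) (β2 := (6193 / 10000))
    (by ring) hs hM hx (by norm_num) (by norm_num) ?_ ?_ ?_ ?_ ?_
  · nlinarith [k2, hM]
  · nlinarith [k4, hM]
  · exact mul_le_mul_of_nonneg_left (sqrt_chord hM (by norm_num) k1 k2 (by norm_num) (by norm_num)) (by norm_num)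
  · exact mul_le_mul_of_nonneg_left (sqrt_chord hM (by norm_num) k3 k4 (by norm_num) (by norm_num)) (by norm_num)
  · have hb : ∀ A B : ℝ, 0 ≤ A → 0 ≤ B → 0 ≤ (97479311036169861534777363 / 500000000000000000000) * B ^ 8 + (105253003915697849251889883 / 62500000000000000000) * A ^ 1 * B ^ 7 + (394092575059805212403141143 / 62500000000000000000) * A ^ 2 * B ^ 6 + (833820342896187882040968901 / 62500000000000000000) * A ^ 3 * B ^ 5 + (54376618754884727149472601 / 3125000000000000000) * A ^ 4 * B ^ 4 + (27876888944041849119633029 / 1953125000000000000) * A ^ 5 * B ^ 3 + (3491509618716581575966663 / 488281250000000000) * A ^ 6 * B ^ 2 + (484121909272884216999489 / 244140625000000000) * A ^ 7 * B ^ 1 + (14009639619991208783617 / 61035156250000000) * A ^ 8 := by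
      intro A B hA hB
      positivity
    exact le_of_le_of_eq (hb (x - (3 / 4)) (1 - x) hA hB) (by ring)

lemma B2_10_b {x : ℝ} (hl : (3 / 4) ≤ x) (hu : x ≤ 1) :
    VtG (121 / 500) (97 / 100) (97 / 200) (1749 / 2000) 1 0 (17361 / 10000) x := by
  have hA : 0 ≤ x - (3 / 4) := by linarith
  have hB : 0 ≤ 1 - x := by linarith
  have hx : 0 ≤ x := by linarith
  have hM : 0 < 1 + 0 * x ^ 2 + (17361 / 10000) * x := by positivity
  have hs : 0 < (97 / 100) + x * (1749 / 2000) := by positivity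
  have k1 : (673 / 1000) * (1 + 0 * x ^ 2 + (17361 / 10000) * x) ≤ ((97 / 100) + x * (1749 / 2000)) * 1 := by
    have hb : 0 ≤ (3063141 / 2500000) * (1 - x) ^ 2 + (3187329 / 2500000) * ((x - (3 / 4)) * (1 - x)) + (31047 / 625000) * (x - (3 / 4)) ^ 2 := by
      have h1 := mul_nonneg hA hB
      positivity
    nlinarith [hb]
  have k2 : ((97 / 100) + x * (1749 / 2000)) * 1 ≤ (177 / 250) * (1 + 0 * x ^ 2 + (17361 / 10000) * x) := by
    have hb : 0 ≤ (39941 / 625000) * (1 - x) ^ 2 + (966529 / 625000) * ((x - (3 / 4)) * (1 - x)) + (231647 / 156250) * (x - (3 / 4)) ^ 2 := by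
      have h1 := mul_nonneg hA hB
      positivity
    nlinarith [hb]
  refine good_ofG (σ := ((97 / 100) + x * (1749 / 2000))) (α1 := (658 / 625)) (β1 := (1729 / 2500)) (α2 := 0) (β2 := 0)
    (by ring) hs hM hx (by norm_num) (by norm_num) ?_ ?_ ?_ ?_ ?_
  · nlinarith [k2, hM]
  · nlinarith [hM]
  · exact mul_le_mul_of_nonneg_left (sqrt_chord hM (by norm_num) k1 k2 (by norm_num) (by norm_num)) (by norm_num)
  · simp
  · have hb : ∀ A B : ℝ, 0 ≤ A → 0 ≤ B → 0 ≤ (9908745660453400637360061 / 4000000000000000000000) * B ^ 5 + (684984895183970380528107 / 40000000000000000000) * A ^ 1 * B ^ 4 + (1155733872559229183981421 / 25000000000000000000) * A ^ 2 * B ^ 3 + (383137254408143965895319 / 6250000000000000000) * A ^ 3 * B ^ 2 + (125295813249701689086717 / 3125000000000000000) * A ^ 4 * B ^ 1 + (40537217592864798125367 / 3906250000000000000) * A ^ 5 := by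
      intro A B hA hB
      positivity
    exact le_of_le_of_eq (hb (x - (3 / 4)) (1 - x) hA hB) (by ring)

lemma B2_01_b {x : ℝ} (hl : (3 / 4) ≤ x) (hu : x ≤ 1) :
    VtG (121 / 500) (97 / 100) (97 / 200) (1749 / 2000) 0 1 (17361 / 10000) x := by
  have hA : 0 ≤ x - (3 / 4) := by linarith
  have hB : 0 ≤ 1 - x := by linarith
  have hx : 0 ≤ x := by linarith
  have hx0 : 0 < x := by linarith
  have hM : 0 < 0 + 1 * x ^ 2 + (17361 / 10000) * x := by positivity
  have hs : 0 < (97 / 100) + x * (1749 / 2000) := by positivity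
  have k3 : (163 / 250) * (0 + 1 * x ^ 2 + (17361 / 10000) * x) ≤ ((97 / 100) + x * (1749 / 2000)) * 1 * x := by
    have hb : 0 ≤ (74067 / 1250000) * (1 - x) ^ 2 + (503599 / 625000) * ((x - (3 / 4)) * (1 - x)) + (151407 / 156250) * (x - (3 / 4)) ^ 2 := by
      have h1 := mul_nonneg hA hB
      positivity
    nlinarith [hb]
  have k4 : ((97 / 100) + x * (1749 / 2000)) * 1 * x ≤ (169 / 250) * (0 + 1 * x ^ 2 + (17361 / 10000) * x) := by
    have hb : 0 ≤ (820929 / 1250000) * (1 - x) ^ 2 + (585563 / 625000) * ((x - (3 / 4)) * (1 - x)) + (12759 / 156250) * (x - (3 / 4)) ^ 2 := by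
      have h1 := mul_nonneg hA hB
      positivity
    nlinarith [hb]
  refine good_ofG (σ := ((97 / 100) + x * (1749 / 2000))) (α1 := 0) (β1 := 0) (α2 := (1303 / 1250)) (β2 := (3343 / 5000))
    (by ring) hs hM hx (by norm_num) (by norm_num) ?_ ?_ ?_ ?_ ?_
  · nlinarith [hM]
  · nlinarith [k4, hM]
  · simp
  · exact mul_le_mul_of_nonneg_left (sqrt_chord hM (by norm_num) k3 k4 (by norm_num) (by norm_num)) (by norm_num)
  · have hb : ∀ A B : ℝ, 0 ≤ A → 0 ≤ B → 0 ≤ (1594908239122253026636347 / 250000000000000000000) * B ^ 5 + (967864143146154297286991 / 31250000000000000000) * A ^ 1 * B ^ 4 + (736664729726190219437597 / 12500000000000000000) * A ^ 2 * B ^ 3 + (3408192098351369517679743 / 62500000000000000000) * A ^ 3 * B ^ 2 + (189310600091645972522843 / 7812500000000000000) * A ^ 4 * B ^ 1 + (15786167335204964381367 / 3906250000000000000) * A ^ 5 := by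
      intro A B hA hB
      positivity
    exact le_of_le_of_eq (mul_nonneg (pow_nonneg hx 3) (hb (x - (3 / 4)) (1 - x) hA hB)) (by ring)

lemma B2_00_b {x : ℝ} (hl : (3 / 4) ≤ x) (hu : x ≤ 1) :
    VtG (121 / 500) (97 / 100) (97 / 200) (1749 / 2000) 0 0 (22361 / 10000) x := by
  have hA : 0 ≤ x - (3 / 4) := by linarith
  have hB : 0 ≤ 1 - x := by linarith
  have hx : 0 ≤ x := by linarith
  have hx0 : 0 < x := by linarith
  have hM : 0 < 0 + 0 * x ^ 2 + (22361 / 10000) * x := by positivity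
  have hs : 0 < (97 / 100) + x * (1749 / 2000) := by positivity
  refine good_ofG (σ := ((97 / 100) + x * (1749 / 2000))) (α1 := 0) (β1 := 0) (α2 := 0) (β2 := 0)
    (by ring) hs hM hx (by norm_num) (by norm_num) ?_ ?_ ?_ ?_ ?_
  · nlinarith [hM]
  · nlinarith [hM]
  · simp
  · simp
  · have hb : ∀ A B : ℝ, 0 ≤ A → 0 ≤ B → 0 ≤ (633066383572619687109743 / 4000000000000000000000) * B ^ 2 + (173573881591187320849641 / 500000000000000000000) * A ^ 1 * B ^ 1 + (48774351570829607562367 / 250000000000000000000) * A ^ 2 := by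
      intro A B hA hB
      positivity
    exact le_of_le_of_eq (mul_nonneg (pow_nonneg hx 3) (hb (x - (3 / 4)) (1 - x) hA hB)) (by ring)

end Pool.Agent.ICE
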