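import Pool.Agent.ICE.GVert

/-!
# Vertex checks D1
-/

set_option autoImplicit false

namespace Pool.Agent.ICE

open Pool.Agent.ICL

lemma D1_11_a {x : ℝ} (hl : 0 ≤ x) (hu : x ≤ (1 / 4)) :
    VtG (-(39 / 100)) (1151 / 1250) (7547 / 10000) (82 / 125) 1 1 (309 / 250) x := by
  have hA : 0 ≤ x - 0 := by linarith
  have hB : 0 ≤ (1 / 4) - x := by linarith
  have hx : 0 ≤ x := by linarith
  have hM : 0 < 1 + 1 * x ^ 2 + (309 / 250) * x := by positivity
  have hs : 0 < (1151 / 1250) + x * (82 / 125) := by positivity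
  have k1 : (789 / 1000) * (1 + 1 * x ^ 2 + (309 / 250) * x) ≤ ((1151 / 1250) + x * (82 / 125)) * 1 := by
    have hb : 0 ≤ (1318 / 625) * ((1 / 4) - x) ^ 2 + (183799 / 62500) * ((x - 0) * ((1 / 4) - x)) + (5373 / 125000) * (x - 0) ^ 2 := by
      have h1 := mul_nonneg hA hB
      positivity
    nlinarith [hb]
  have k2 : ((1151 / 1250) + x * (82 / 125)) * 1 ≤ (461 / 500) * (1 + 1 * x ^ 2 + (309 / 250) * x) := by
    have hb : 0 ≤ (12 / 625) * ((1 / 4) - x) ^ 2 + (61649 / 31250) * ((x - 0) * ((1 / 4) - x)) + (179723 / 62500) * (x - 0) ^ 2 := by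
      have h1 := mul_nonneg hA hB
      positivity
    nlinarith [hb]
  have k3 : 0 * (1 + 1 * x ^ 2 + (309 / 250) * x) ≤ ((1151 / 1250) + x * (82 / 125)) * 1 * x := by
    have hb : 0 ≤ 0 * ((1 / 4) - x) ^ 2 + (2302 / 625) * ((x - 0) * ((1 / 4) - x)) + (2712 / 625) * (x - 0) ^ 2 := by
      have h1 := mul_nonneg hA hB
      positivity
    nlinarith [hb]
  have k4 : ((1151 / 1250) + x * (82 / 125)) * 1 * x ≤ (199 / 1000) * (1 + 1 * x ^ 2 + (309 / 250) * x) := by
    have hb : 0 ≤ (398 / 125) * ((1 / 4) - x) ^ 2 + (229291 / 62500) * ((x - 0) * ((1 / 4) - x)) + (3457 / 125000) * (x - 0) ^ 2 := by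
      have h1 := mul_nonneg hA hB
      positivity
    nlinarith [hb]
  refine good_ofG (σ := ((1151 / 1250) + x * (82 / 125))) (α1 := (12359 / 10000)) (β1 := (624 / 625)) (α2 := 1) (β2 := (5053 / 10000))
    (by ring) hs hM hx (by norm_num) (by norm_num) ?_ ?_ ?_ ?_ ?_
  · nlinarith [k2, hM]
  · nlinarith [k4, hM]
  · exact mul_le_mul_of_nonneg_left (sqrt_chord hM (by norm_num) k1 k2 (by norm_num) (by norm_num)) (by norm_num)
  · exact mul_le_mul_of_nonneg_left (sqrt_chord hM (by norm_num) k3 k4 (by norm_num) (by norm_num)) (by norm_num)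
  · have hb : ∀ A B : ℝ, 0 ≤ A → 0 ≤ B → 0 ≤ (265114578358045696 / 95367431640625) * B ^ 8 + (3138907934311708288 / 95367431640625) * A ^ 1 * B ^ 7 + (15247604833935362128 / 95367431640625) * A ^ 2 * B ^ 6 + (202506819275694773206 / 476837158203125) * A ^ 3 * B ^ 5 + (2600521382186645788 / 3814697265625) * A ^ 4 * B ^ 4 + (129865619265150341953 / 190734863281250) * A ^ 5 * B ^ 3 + (158016672383893177451 / 381469726562500) * A ^ 6 * B ^ 2 + (2677667239923691042 / 19073486328125) * A ^ 7 * B ^ 1 + (19314377265068395727 / 953674316406250) * A ^ 8 := by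
      intro A B hA hB
      positivity
    exact le_of_le_of_eq (hb (x - 0) ((1 / 4) - x) hA hB) (by ring)

lemma D1_10_a {x : ℝ} (hl : 0 ≤ x) (hu : x ≤ (1 / 4)) :
    VtG (-(39 / 100)) (1151 / 1250) (7547 / 10000) (82 / 125) 1 0 (217 / 125) x := by
  have hA : 0 ≤ x - 0 := by linarith
  have hB : 0 ≤ (1 / 4) - x := by linarith
  have hx : 0 ≤ x := by linarith
  have hM : 0 < 1 + 0 * x ^ 2 + (217 / 125) * x := by positivity
  have hs : 0 < (1151 / 1250) + x * (82 / 125) := by positivity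
  have k1 : (151 / 200) * (1 + 0 * x ^ 2 + (217 / 125) * x) ≤ ((1151 / 1250) + x * (82 / 125)) * 1 := by
    have hb : 0 ≤ (1658 / 625) * ((1 / 4) - x) ^ 2 + (16793 / 6250) * ((x - 0) * ((1 / 4) - x)) + (213 / 6250) * (x - 0) ^ 2 := by
      have h1 := mul_nonneg hA hB
      positivity
    nlinarith [hb]
  have k2 : ((1151 / 1250) + x * (82 / 125)) * 1 ≤ (461 / 500) * (1 + 0 * x ^ 2 + (217 / 125) * x) := by
    have hb : 0 ≤ (12 / 625) * ((1 / 4) - x) ^ 2 + (59637 / 15625) * ((x - 0) * ((1 / 4) - x)) + (59337 / 15625) * (x - 0) ^ 2 := by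
      have h1 := mul_nonneg hA hB
      positivity
    nlinarith [hb]
  refine good_ofG (σ := ((1151 / 1250) + x * (82 / 125))) (α1 := (12023 / 10000)) (β1 := (9589 / 10000)) (α2 := 0) (β2 := 0)
    (by ring) hs hM hx (by norm_num) (by norm_num) ?_ ?_ ?_ ?_ ?_
  · nlinarith [k2, hM]
  · nlinarith [hM]
  · exact mul_le_mul_of_nonneg_left (sqrt_chord hM (by norm_num) k1 k2 (by norm_num) (by norm_num)) (by norm_num)
  · simp
  · have hb : ∀ A B : ℝ, 0 ≤ A → 0 ≤ B → 0 ≤ (4133387536414044 / 95367431640625) * B ^ 5 + (1695130990646272 / 3814697265625) * A ^ 1 * B ^ 4 + (26588222086083837 / 19073486328125) * A ^ 2 * B ^ 3 + (3680636926097309211 / 1907348632812500) * A ^ 3 * B ^ 2 + (589520853955890108 / 476837158203125) * A ^ 4 * B ^ 1 + (143234266317482394 / 476837158203125) * A ^ 5 := by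
      intro A B hA hB
      positivity
    exact le_of_le_of_eq (hb (x - 0) ((1 / 4) - x) hA hB) (by ring)

lemma D1_01_a {x : ℝ} (hx0 : 0 < x) (hl : 0 ≤ x) (hu : x ≤ (1 / 4)) :
    VtG (-(39 / 100)) (1151 / 1250) (7547 / 10000) (82 / 125) 0 1 (217 / 125) x := by
  have hA : 0 ≤ x - 0 := by linarith
  have hB : 0 ≤ (1 / 4) - x := by linarith
  have hx : 0 ≤ x := by linarith
  have hM : 0 < 0 + 1 * x ^ 2 + (217 / 125) * x := by positivity
  have hs : 0 < (1151 / 1250) + x * (82 / 125) := by positivity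
  have k3 : (529 / 1000) * (0 + 1 * x ^ 2 + (217 / 125) * x) ≤ ((1151 / 1250) + x * (82 / 125)) * 1 * x := by
    have hb : 0 ≤ 0 * ((1 / 4) - x) ^ 2 + (307 / 31250) * ((x - 0) * ((1 / 4) - x)) + (17103 / 125000) * (x - 0) ^ 2 := by
      have h1 := mul_nonneg hA hB
      positivity
    nlinarith [hb]
  have k4 : ((1151 / 1250) + x * (82 / 125)) * 1 * x ≤ (137 / 250) * (0 + 1 * x ^ 2 + (217 / 125) * x) := by
    have hb : 0 ≤ 0 * ((1 / 4) - x) ^ 2 + (1908 / 15625) * ((x - 0) * ((1 / 4) - x)) + (441 / 31250) * (x - 0) ^ 2 := by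
      have h1 := mul_nonneg hA hB
      positivity
    nlinarith [hb]
  refine good_ofG (σ := ((1151 / 1250) + x * (82 / 125))) (α1 := 0) (β1 := 0) (α2 := (10147 / 10000)) (β2 := (2969 / 5000))
    (by ring) hs hM hx (by norm_num) (by norm_num) ?_ ?_ ?_ ?_ ?_
  · nlinarith [hM]
  · nlinarith [k4, hM]
  · simp
  · exact mul_le_mul_of_nonneg_left (sqrt_chord hM (by norm_num) k3 k4 (by norm_num) (by norm_num)) (by norm_num)
  · have hb : ∀ A B : ℝ, 0 ≤ A → 0 ≤ B → 0 ≤ (789924519692164976 / 476837158203125) * B ^ 5 + (152075750380964414 / 19073486328125) * A ^ 1 * B ^ 4 + (1410199439818144323 / 95367431640625) * A ^ 2 * B ^ 3 + (1234254339703706301 / 95367431640625) * A ^ 3 * B ^ 2 + (487999171635663312 / 95367431640625) * A ^ 4 * B ^ 1 + (614916318686306967 / 953674316406250) * A ^ 5 := by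
      intro A B hA hB
      positivity
    exact le_of_le_of_eq (mul_nonneg (pow_nonneg hx 3) (hb (x - 0) ((1 / 4) - x) hA hB)) (by ring)

lemma D1_00_a {x : ℝ} (hx0 : 0 < x) (hl : 0 ≤ x) (hu : x ≤ (1 / 4)) :
    VtG (-(39 / 100)) (1151 / 1250) (7547 / 10000) (82 / 125) 0 0 (559 / 250) x := by
  have hA : 0 ≤ x - 0 := by linarith
  have hB : 0 ≤ (1 / 4) - x := by linarith
  have hx : 0 ≤ x := by linarith
  have hM : 0 < 0 + 0 * x ^ 2 + (559 / 250) * x := by positivity
  have hs : 0 < (1151 / 1250) + x * (82 / 125) := by positivity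
  refine good_ofG (σ := ((1151 / 1250) + x * (82 / 125))) (α1 := 0) (β1 := 0) (α2 := 0) (β2 := 0)
    (by ring) hs hM hx (by norm_num) (by norm_num) ?_ ?_ ?_ ?_ ?_
  · nlinarith [hM]
  · nlinarith [hM]
  · simp
  · simp
  · have hb : ∀ A B : ℝ, 0 ≤ A → 0 ≤ B → 0 ≤ (843959943200760113 / 15258789062500000) * B ^ 2 + (261264939991099889 / 3814697265625000) * A ^ 1 * B ^ 1 + (56967924798007067 / 3814697265625000) * A ^ 2 := by
      intro A B hA hB
      positivity
    exact le_of_le_of_eq (mul_nonneg (pow_nonneg hx 3) (hb (x - 0) ((1 / 4) - x) hA hB)) (by ring)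

lemma D1_m11_a {x : ℝ} (hl : 0 ≤ x) (hu : x ≤ (1 / 4)) :
    VmG (-(39 / 100)) (1151 / 1250) (7547 / 10000) (82 / 125) 1 1 (559 / 250) x := by
  have hA : 0 ≤ x - 0 := by linarith
  have hB : 0 ≤ (1 / 4) - x := by linarith
  have hx : 0 ≤ x := by linarith
  have hM : 0 < 1 + 1 * x ^ 2 + (559 / 250) * x := by positivity
  have hs : 0 < (1151 / 1250) + x * (82 / 125) := by positivity
  have k1 : (167 / 250) * (1 + 1 * x ^ 2 + (559 / 250) * x) ≤ ((1151 / 1250) + x * (82 / 125)) * 1 := by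
    have hb : 0 ≤ (2528 / 625) * ((1 / 4) - x) ^ 2 + (74047 / 15625) * ((x - 0) * ((1 / 4) - x)) + (819 / 31250) * (x - 0) ^ 2 := by
      have h1 := mul_nonneg hA hB
      positivity
    nlinarith [hb]
  have k2 : ((1151 / 1250) + x * (82 / 125)) * 1 ≤ (461 / 500) * (1 + 1 * x ^ 2 + (559 / 250) * x) := by
    have hb : 0 ≤ (12 / 625) * ((1 / 4) - x) ^ 2 + (176899 / 31250) * ((x - 0) * ((1 / 4) - x)) + (410223 / 62500) * (x - 0) ^ 2 := by
      have h1 := mul_nonneg hA hB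
      positivity
    nlinarith [hb]
  have k3 : 0 * (1 + 1 * x ^ 2 + (559 / 250) * x) ≤ ((1151 / 1250) + x * (82 / 125)) * 1 * x := by
    have hb : 0 ≤ 0 * ((1 / 4) - x) ^ 2 + (2302 / 625) * ((x - 0) * ((1 / 4) - x)) + (2712 / 625) * (x - 0) ^ 2 := by
      have h1 := mul_nonneg hA hB
      positivity
    nlinarith [hb]
  have k4 : ((1151 / 1250) + x * (82 / 125)) * 1 * x ≤ (169 / 1000) * (1 + 1 * x ^ 2 + (559 / 250) * x) := by
    have hb : 0 ≤ (338 / 125) * ((1 / 4) - x) ^ 2 + (202271 / 62500) * ((x - 0) * ((1 / 4) - x)) + (5667 / 125000) * (x - 0) ^ 2 := by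
      have h1 := mul_nonneg hA hB
      positivity
    nlinarith [hb]
  refine good_ofG (σ := ((1151 / 1250) + x * (82 / 125))) (α1 := (2277 / 2000)) (β1 := (8839 / 10000)) (α2 := (9999 / 10000)) (β2 := (2519 / 5000))
    (by ring) hs hM hx (by norm_num) (by norm_num) ?_ ?_ ?_ ?_ ?_
  · nlinarith [k2, hM]
  · nlinarith [k4, hM]
  · exact mul_le_mul_of_nonneg_left (sqrt_chord hM (by norm_num) k1 k2 (by norm_num) (by norm_num)) (by norm_num)
  · exact mul_le_mul_of_nonneg_left (sqrt_chord hM (by norm_num) k3 k4 (by norm_num) (by norm_num)) (by norm_num)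
  · have hb : ∀ A B : ℝ, 0 ≤ A → 0 ≤ B → 0 ≤ (263426343533890816 / 95367431640625) * B ^ 8 + (3657150988234507648 / 95367431640625) * A ^ 1 * B ^ 7 + (18455503226794224688 / 95367431640625) * A ^ 2 * B ^ 6 + (240916908137746906306 / 476837158203125) * A ^ 3 * B ^ 5 + (14678016422411200388 / 19073486328125) * A ^ 4 * B ^ 4 + (135077827283740719213 / 190734863281250) * A ^ 5 * B ^ 3 + (36697686072114783969 / 95367431640625) * A ^ 6 * B ^ 2 + (2132469112849768476 / 19073486328125) * A ^ 7 * B ^ 1 + (12350982034220532327 / 953674316406250) * A ^ 8 := by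
      intro A B hA hB
      positivity
    exact le_of_le_of_eq (hb (x - 0) ((1 / 4) - x) hA hB) (by ring)

lemma D1_m01_a {x : ℝ} (hx0 : 0 < x) (hl : 0 ≤ x) (hu : x ≤ (1 / 4)) :
    VmG (-(39 / 100)) (1151 / 1250) (7547 / 10000) (82 / 125) 0 1 (342 / 125) x := by
  have hA : 0 ≤ x - 0 := by linarith
  have hB : 0 ≤ (1 / 4) - x := by linarith
  have hx : 0 ≤ x := by linarith
  have hM : 0 < 0 + 1 * x ^ 2 + (342 / 125) * x := by positivity
  have hs : 0 < (1151 / 1250) + x * (82 / 125) := by positivity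
  have k3 : (67 / 200) * (0 + 1 * x ^ 2 + (342 / 125) * x) ≤ ((1151 / 1250) + x * (82 / 125)) * 1 * x := by
    have hb : 0 ≤ 0 * ((1 / 4) - x) ^ 2 + (53 / 3125) * ((x - 0) * ((1 / 4) - x)) + (8449 / 25000) * (x - 0) ^ 2 := by
      have h1 := mul_nonneg hA hB
      positivity
    nlinarith [hb]
  have k4 : ((1151 / 1250) + x * (82 / 125)) * 1 * x ≤ (73 / 200) * (0 + 1 * x ^ 2 + (342 / 125) * x) := by
    have hb : 0 ≤ 0 * ((1 / 4) - x) ^ 2 + (973 / 3125) * ((x - 0) * ((1 / 4) - x)) + (509 / 25000) * (x - 0) ^ 2 := by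
      have h1 := mul_nonneg hA hB
      positivity
    nlinarith [hb]
  refine good_ofG (σ := ((1151 / 1250) + x * (82 / 125))) (α1 := 0) (β1 := 0) (α2 := (10021 / 10000)) (β2 := (2669 / 5000))
    (by ring) hs hM hx (by norm_num) (by norm_num) ?_ ?_ ?_ ?_ ?_
  · nlinarith [hM]
  · nlinarith [k4, hM]
  · simp
  · exact mul_le_mul_of_nonneg_left (sqrt_chord hM (by norm_num) k3 k4 (by norm_num) (by norm_num)) (by norm_num)
  · have hb : ∀ A B : ℝ, 0 ≤ A → 0 ≤ B → 0 ≤ (3092322008562062976 / 476837158203125) * B ^ 5 + (568499505400343374 / 19073486328125) * A ^ 1 * B ^ 4 + (5081218925365250898 / 95367431640625) * A ^ 2 * B ^ 3 + (4363205218745273226 / 95367431640625) * A ^ 3 * B ^ 2 + (1760179863738880512 / 95367431640625) * A ^ 4 * B ^ 1 + (2541641415453160967 / 953674316406250) * A ^ 5 := by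
      intro A B hA hB
      positivity
    exact le_of_le_of_eq (mul_nonneg (pow_nonneg hx 3) (hb (x - 0) ((1 / 4) - x) hA hB)) (by ring)

lemma D1_11_b {x : ℝ} (hl : 0 ≤ x) (hu : x ≤ (1 / 4)) :
    VtG (-(39 / 100)) (1151 / 1250) (7547 / 10000) (82 / 125) 1 1 (12361 / 10000) x := by
  have hA : 0 ≤ x - 0 := by linarith
  have hB : 0 ≤ (1 / 4) - x := by linarith
  have hx : 0 ≤ x := by linarith
  have hM : 0 < 1 + 1 * x ^ 2 + (12361 / 10000) * x := by positivity
  have hs : 0 < (1151 / 1250) + x * (82 / 125) := by positivity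
  have k1 : (789 / 1000) * (1 + 1 * x ^ 2 + (12361 / 10000) * x) ≤ ((1151 / 1250) + x * (82 / 125)) * 1 := by
    have hb : 0 ≤ (1318 / 625) * ((1 / 4) - x) ^ 2 + (7351171 / 2500000) * ((x - 0) * ((1 / 4) - x)) + (106671 / 2500000) * (x - 0) ^ 2 := by
      have h1 := mul_nonneg hA hB
      positivity
    nlinarith [hb]
  have k2 : ((1151 / 1250) + x * (82 / 125)) * 1 ≤ (461 / 500) * (1 + 1 * x ^ 2 + (12361 / 10000) * x) := by
    have hb : 0 ≤ (12 / 625) * ((1 / 4) - x) ^ 2 + (2466421 / 1250000) * ((x - 0) * ((1 / 4) - x)) + (3594921 / 1250000) * (x - 0) ^ 2 := by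
      have h1 := mul_nonneg hA hB
      positivity
    nlinarith [hb]
  have k3 : 0 * (1 + 1 * x ^ 2 + (12361 / 10000) * x) ≤ ((1151 / 1250) + x * (82 / 125)) * 1 * x := by
    have hb : 0 ≤ 0 * ((1 / 4) - x) ^ 2 + (2302 / 625) * ((x - 0) * ((1 / 4) - x)) + (2712 / 625) * (x - 0) ^ 2 := by
      have h1 := mul_nonneg hA hB
      positivity
    nlinarith [hb]
  have k4 : ((1151 / 1250) + x * (82 / 125)) * 1 * x ≤ (199 / 1000) * (1 + 1 * x ^ 2 + (12361 / 10000) * x) := by
    have hb : 0 ≤ (398 / 125) * ((1 / 4) - x) ^ 2 + (9171839 / 2500000) * ((x - 0) * ((1 / 4) - x)) + (69339 / 2500000) * (x - 0) ^ 2 := by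
      have h1 := mul_nonneg hA hB
      positivity
    nlinarith [hb]
  refine good_ofG (σ := ((1151 / 1250) + x * (82 / 125))) (α1 := (12359 / 10000)) (β1 := (624 / 625)) (α2 := 1) (β2 := (5053 / 10000))
    (by ring) hs hM hx (by norm_num) (by norm_num) ?_ ?_ ?_ ?_ ?_
  · nlinarith [k2, hM]
  · nlinarith [k4, hM]
  · exact mul_le_mul_of_nonneg_left (sqrt_chord hM (by norm_num) k1 k2 (by norm_num) (by norm_num)) (by norm_num)
  · exact mul_le_mul_of_nonneg_left (sqrt_chord hM (by norm_num) k3 k4 (by norm_num) (by norm_num)) (by norm_num)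
  · have hb : ∀ A B : ℝ, 0 ≤ A → 0 ≤ B → 0 ≤ (265114578358045696 / 95367431640625) * B ^ 8 + (3139000548593358288 / 95367431640625) * A ^ 1 * B ^ 7 + (487944266967679077 / 3051757812500) * A ^ 2 * B ^ 6 + (6480526652574408844013607 / 15258789062500000000) * A ^ 3 * B ^ 5 + (4161029444627150594386937 / 6103515625000000000) * A ^ 4 * B ^ 4 + (415587555382472301953499 / 610351562500000000) * A ^ 5 * B ^ 3 + (316044168772939511069097 / 762939453125000000) * A ^ 6 * B ^ 2 + (214218250222585065462279 / 1525878906250000000) * A ^ 7 * B ^ 1 + (618064439163837089689179 / 30517578125000000000) * A ^ 8 := by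
      intro A B hA hB
      positivity
    exact le_of_le_of_eq (hb (x - 0) ((1 / 4) - x) hA hB) (by ring)

lemma D1_10_b {x : ℝ} (hl : 0 ≤ x) (hu : x ≤ (1 / 4)) :
    VtG (-(39 / 100)) (1151 / 1250) (7547 / 10000) (82 / 125) 1 0 (17361 / 10000) x := by
  have hA : 0 ≤ x - 0 := by linarith
  have hB : 0 ≤ (1 / 4) - x := by linarith
  have hx : 0 ≤ x := by linarith
  have hM : 0 < 1 + 0 * x ^ 2 + (17361 / 10000) * x := by positivity
  have hs : 0 < (1151 / 1250) + x * (82 / 125) := by positivity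
  have k1 : (151 / 200) * (1 + 0 * x ^ 2 + (17361 / 10000) * x) ≤ ((1151 / 1250) + x * (82 / 125)) * 1 := by
    have hb : 0 ≤ (1658 / 625) * ((1 / 4) - x) ^ 2 + (1343289 / 500000) * ((x - 0) * ((1 / 4) - x)) + (16889 / 500000) * (x - 0) ^ 2 := by
      have h1 := mul_nonneg hA hB
      positivity
    nlinarith [hb]
  have k2 : ((1151 / 1250) + x * (82 / 125)) * 1 ≤ (461 / 500) * (1 + 0 * x ^ 2 + (17361 / 10000) * x) := by
    have hb : 0 ≤ (12 / 625) * ((1 / 4) - x) ^ 2 + (4771421 / 1250000) * ((x - 0) * ((1 / 4) - x)) + (4747421 / 1250000) * (x - 0) ^ 2 := by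
      have h1 := mul_nonneg hA hB
      positivity
    nlinarith [hb]
  refine good_ofG (σ := ((1151 / 1250) + x * (82 / 125))) (α1 := (12023 / 10000)) (β1 := (9589 / 10000)) (α2 := 0) (β2 := 0)
    (by ring) hs hM hx (by norm_num) (by norm_num) ?_ ?_ ?_ ?_ ?_
  · nlinarith [k2, hM]
  · nlinarith [hM]
  · exact mul_le_mul_of_nonneg_left (sqrt_chord hM (by norm_num) k1 k2 (by norm_num) (by norm_num)) (by norm_num)
  · simp
  · have hb : ∀ A B : ℝ, 0 ≤ A → 0 ≤ B → 0 ≤ (4133387536414044 / 95367431640625) * B ^ 5 + (6780733241632413 / 15258789062500) * A ^ 1 * B ^ 4 + (34033988631393542417 / 24414062500000000) * A ^ 2 * B ^ 3 + (1884520492177055670078607 / 976562500000000000000) * A ^ 3 * B ^ 2 + (2414662377155243788858043 / 1953125000000000000000) * A ^ 4 * B ^ 1 + (586662380489051278019179 / 1953125000000000000000) * A ^ 5 := by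
      intro A B hA hB
      positivity
    exact le_of_le_of_eq (hb (x - 0) ((1 / 4) - x) hA hB) (by ring)

lemma D1_01_b {x : ℝ} (hx0 : 0 < x) (hl : 0 ≤ x) (hu : x ≤ (1 / 4)) :
    VtG (-(39 / 100)) (1151 / 1250) (7547 / 10000) (82 / 125) 0 1 (17361 / 10000) x := by
  have hA : 0 ≤ x - 0 := by linarith
  have hB : 0 ≤ (1 / 4) - x := by linarith
  have hx : 0 ≤ x := by linarith
  have hM : 0 < 0 + 1 * x ^ 2 + (17361 / 10000) * x := by positivity
  have hs : 0 < (1151 / 1250) + x * (82 / 125) := by positivity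
  have k3 : (529 / 1000) * (0 + 1 * x ^ 2 + (17361 / 10000) * x) ≤ ((1151 / 1250) + x * (82 / 125)) * 1 * x := by
    have hb : 0 ≤ 0 * ((1 / 4) - x) ^ 2 + (24031 / 2500000) * ((x - 0) * ((1 / 4) - x)) + (341531 / 2500000) * (x - 0) ^ 2 := by
      have h1 := mul_nonneg hA hB
      positivity
    nlinarith [hb]
  have k4 : ((1151 / 1250) + x * (82 / 125)) * 1 * x ≤ (137 / 250) * (0 + 1 * x ^ 2 + (17361 / 10000) * x) := by
    have hb : 0 ≤ 0 * ((1 / 4) - x) ^ 2 + (76457 / 625000) * ((x - 0) * ((1 / 4) - x)) + (8957 / 625000) * (x - 0) ^ 2 := by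
      have h1 := mul_nonneg hA hB
      positivity
    nlinarith [hb]
  refine good_ofG (σ := ((1151 / 1250) + x * (82 / 125))) (α1 := 0) (β1 := 0) (α2 := (10147 / 10000)) (β2 := (2969 / 5000))
    (by ring) hs hM hx (by norm_num) (by norm_num) ?_ ?_ ?_ ?_ ?_
  · nlinarith [hM]
  · nlinarith [k4, hM]
  · simp
  · exact mul_le_mul_of_nonneg_left (sqrt_chord hM (by norm_num) k3 k4 (by norm_num) (by norm_num)) (by norm_num)
  · have hb : ∀ A B : ℝ, 0 ≤ A → 0 ≤ B → 0 ≤ (25281953127973041638607 / 15258789062500000000) * B ^ 5 + (48672032414151124063937 / 6103515625000000000) * A ^ 1 * B ^ 4 + (9026583252746261281899 / 610351562500000000) * A ^ 2 * B ^ 3 + (4937631386319227917361 / 381469726562500000) * A ^ 3 * B ^ 2 + (7808704447816792344279 / 1525878906250000000) * A ^ 4 * B ^ 1 + (19677671460475040549179 / 30517578125000000000) * A ^ 5 := by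
      intro A B hA hB
      positivity
    exact le_of_le_of_eq (mul_nonneg (pow_nonneg hx 3) (hb (x - 0) ((1 / 4) - x) hA hB)) (by ring)

lemma D1_00_b {x : ℝ} (hx0 : 0 < x) (hl : 0 ≤ x) (hu : x ≤ (1 / 4)) :
    VtG (-(39 / 100)) (1151 / 1250) (7547 / 10000) (82 / 125) 0 0 (22361 / 10000) x := by
  have hA : 0 ≤ x - 0 := by linarith
  have hB : 0 ≤ (1 / 4) - x := by linarith
  have hx : 0 ≤ x := by linarith
  have hM : 0 < 0 + 0 * x ^ 2 + (22361 / 10000) * x := by positivity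
  have hs : 0 < (1151 / 1250) + x * (82 / 125) := by positivity
  refine good_ofG (σ := ((1151 / 1250) + x * (82 / 125))) (α1 := 0) (β1 := 0) (α2 := 0) (β2 := 0)
    (by ring) hs hM hx (by norm_num) (by norm_num) ?_ ?_ ?_ ?_ ?_
  · nlinarith [hM]
  · nlinarith [hM]
  · simp
  · simp
  · have hb : ∀ A B : ℝ, 0 ≤ A → 0 ≤ B → 0 ≤ (54020683572187010943607 / 976562500000000000000) * B ^ 2 + (133780195703361500598043 / 1953125000000000000000) * A ^ 1 * B ^ 1 + (29166089297953042799179 / 1953125000000000000000) * A ^ 2 := by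
      intro A B hA hB
      positivity
    exact le_of_le_of_eq (mul_nonneg (pow_nonneg hx 3) (hb (x - 0) ((1 / 4) - x) hA hB)) (by ring)

lemma D1_m11_b {x : ℝ} (hl : 0 ≤ x) (hu : x ≤ (1 / 4)) :
    VmG (-(39 / 100)) (1151 / 1250) (7547 / 10000) (82 / 125) 1 1 (22361 / 10000) x := by
  have hA : 0 ≤ x - 0 := by linarith
  have hB : 0 ≤ (1 / 4) - x := by linarith
  have hx : 0 ≤ x := by linarith
  have hM : 0 < 1 + 1 * x ^ 2 + (22361 / 10000) * x := by positivity
  have hs : 0 < (1151 / 1250) + x * (82 / 125) := by positivity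
  have k1 : (667 / 1000) * (1 + 1 * x ^ 2 + (22361 / 10000) * x) ≤ ((1151 / 1250) + x * (82 / 125)) * 1 := by
    have hb : 0 ≤ (2538 / 625) * ((1 / 4) - x) ^ 2 + (11949213 / 2500000) * ((x - 0) * ((1 / 4) - x)) + (129713 / 2500000) * (x - 0) ^ 2 := by
      have h1 := mul_nonneg hA hB
      positivity
    nlinarith [hb]
  have k2 : ((1151 / 1250) + x * (82 / 125)) * 1 ≤ (461 / 500) * (1 + 1 * x ^ 2 + (22361 / 10000) * x) := by
    have hb : 0 ≤ (12 / 625) * ((1 / 4) - x) ^ 2 + (7076421 / 1250000) * ((x - 0) * ((1 / 4) - x)) + (8204921 / 1250000) * (x - 0) ^ 2 := by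
      have h1 := mul_nonneg hA hB
      positivity
    nlinarith [hb]
  have k3 : 0 * (1 + 1 * x ^ 2 + (22361 / 10000) * x) ≤ ((1151 / 1250) + x * (82 / 125)) * 1 * x := by
    have hb : 0 ≤ 0 * ((1 / 4) - x) ^ 2 + (2302 / 625) * ((x - 0) * ((1 / 4) - x)) + (2712 / 625) * (x - 0) ^ 2 := by
      have h1 := mul_nonneg hA hB
      positivity
    nlinarith [hb]
  have k4 : ((1151 / 1250) + x * (82 / 125)) * 1 * x ≤ (169 / 1000) * (1 + 1 * x ^ 2 + (22361 / 10000) * x) := by
    have hb : 0 ≤ (338 / 125) * ((1 / 4) - x) ^ 2 + (8091009 / 2500000) * ((x - 0) * ((1 / 4) - x)) + (113509 / 2500000) * (x - 0) ^ 2 := by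
      have h1 := mul_nonneg hA hB
      positivity
    nlinarith [hb]
  refine good_ofG (σ := ((1151 / 1250) + x * (82 / 125))) (α1 := (11379 / 10000)) (β1 := (552 / 625)) (α2 := (9999 / 10000)) (β2 := (2519 / 5000))
    (by ring) hs hM hx (by norm_num) (by norm_num) ?_ ?_ ?_ ?_ ?_
  · nlinarith [k2, hM]
  · nlinarith [k4, hM]
  · exact mul_le_mul_of_nonneg_left (sqrt_chord hM (by norm_num) k1 k2 (by norm_num) (by norm_num)) (by norm_num)
  · exact mul_le_mul_of_nonneg_left (sqrt_chord hM (by norm_num) k3 k4 (by norm_num) (by norm_num)) (by norm_num)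
  · have hb : ∀ A B : ℝ, 0 ≤ A → 0 ≤ B → 0 ≤ (263391956193655808 / 95367431640625) * B ^ 8 + (3654495917285715024 / 95367431640625) * A ^ 1 * B ^ 7 + (73742274821528185309 / 381469726562500) * A ^ 2 * B ^ 6 + (7698664051004798715343607 / 15258789062500000000) * A ^ 3 * B ^ 5 + (4688941645577217127019937 / 6103515625000000000) * A ^ 4 * B ^ 4 + (431341039329698108192499 / 610351562500000000) * A ^ 5 * B ^ 3 + (146404721354002512180611 / 381469726562500000) * A ^ 6 * B ^ 2 + (170013552315438076376279 / 1525878906250000000) * A ^ 7 * B ^ 1 + (393337783949898282689179 / 30517578125000000000) * A ^ 8 := by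
      intro A B hA hB
      positivity
    exact le_of_le_of_eq (hb (x - 0) ((1 / 4) - x) hA hB) (by ring)

lemma D1_m01_b {x : ℝ} (hx0 : 0 < x) (hl : 0 ≤ x) (hu : x ≤ (1 / 4)) :
    VmG (-(39 / 100)) (1151 / 1250) (7547 / 10000) (82 / 125) 0 1 (27361 / 10000) x := by
  have hA : 0 ≤ x - 0 := by linarith
  have hB : 0 ≤ (1 / 4) - x := by linarith
  have hx : 0 ≤ x := by linarith
  have hM : 0 < 0 + 1 * x ^ 2 + (27361 / 10000) * x := by positivity
  have hs : 0 < (1151 / 1250) + x * (82 / 125) := by positivity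
  have k3 : (67 / 200) * (0 + 1 * x ^ 2 + (27361 / 10000) * x) ≤ ((1151 / 1250) + x * (82 / 125)) * 1 * x := by
    have hb : 0 ≤ 0 * ((1 / 4) - x) ^ 2 + (8413 / 500000) * ((x - 0) * ((1 / 4) - x)) + (168913 / 500000) * (x - 0) ^ 2 := by
      have h1 := mul_nonneg hA hB
      positivity
    nlinarith [hb]
  have k4 : ((1151 / 1250) + x * (82 / 125)) * 1 * x ≤ (73 / 200) * (0 + 1 * x ^ 2 + (27361 / 10000) * x) := by
    have hb : 0 ≤ 0 * ((1 / 4) - x) ^ 2 + (155753 / 500000) * ((x - 0) * ((1 / 4) - x)) + (10253 / 500000) * (x - 0) ^ 2 := by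
      have h1 := mul_nonneg hA hB
      positivity
    nlinarith [hb]
  refine good_ofG (σ := ((1151 / 1250) + x * (82 / 125))) (α1 := 0) (β1 := 0) (α2 := (10021 / 10000)) (β2 := (2669 / 5000))
    (by ring) hs hM hx (by norm_num) (by norm_num) ?_ ?_ ?_ ?_ ?_
  · nlinarith [hM]
  · nlinarith [k4, hM]
  · simp
  · exact mul_le_mul_of_nonneg_left (sqrt_chord hM (by norm_num) k3 k4 (by norm_num) (by norm_num)) (by norm_num)
  · have hb : ∀ A B : ℝ, 0 ≤ A → 0 ≤ B → 0 ≤ (98965154923226030248607 / 15258789062500000000) * B ^ 5 + (181936975147758671851937 / 6103515625000000000) * A ^ 1 * B ^ 4 + (32522188046062864211099 / 610351562500000000) * A ^ 2 * B ^ 3 + (17453578027594491029111 / 381469726562500000) * A ^ 3 * B ^ 2 + (28162740716712728752279 / 1525878906250000000) * A ^ 4 * B ^ 1 + (81324591409741104509179 / 30517578125000000000) * A ^ 5 := by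
      intro A B hA hB
      positivity
    exact le_of_le_of_eq (mul_nonneg (pow_nonneg hx 3) (hb (x - 0) ((1 / 4) - x) hA hB)) (by ring)

lemma D1_11c_a {x : ℝ} (hl : 0 ≤ x) (hu : x ≤ (1 / 4)) :
    VtG (-(39 / 100)) (1151 / 1250) (7547 / 10000) (82 / 125) 1 1 1 x := by
  have hA : 0 ≤ x - 0 := by linarith
  have hB : 0 ≤ (1 / 4) - x := by linarith
  have hx : 0 ≤ x := by linarith
  have hM : 0 < 1 + 1 * x ^ 2 + 1 * x := by positivity
  have hs : 0 < (1151 / 1250) + x * (82 / 125) := by positivity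
  have k1 : (33 / 40) * (1 + 1 * x ^ 2 + 1 * x) ≤ ((1151 / 1250) + x * (82 / 125)) * 1 := by
    have hb : 0 ≤ (958 / 625) * ((1 / 4) - x) ^ 2 + (2987 / 1250) * ((x - 0) * ((1 / 4) - x)) + (159 / 5000) * (x - 0) ^ 2 := by
      have h1 := mul_nonneg hA hB
      positivity
    nlinarith [hb]
  have k2 : ((1151 / 1250) + x * (82 / 125)) * 1 ≤ (461 / 500) * (1 + 1 * x ^ 2 + 1 * x) := by
    have hb : 0 ≤ (12 / 625) * ((1 / 4) - x) ^ 2 + (689 / 625) * ((x - 0) * ((1 / 4) - x)) + (5013 / 2500) * (x - 0) ^ 2 := by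
      have h1 := mul_nonneg hA hB
      positivity
    nlinarith [hb]
  have k3 : 0 * (1 + 1 * x ^ 2 + 1 * x) ≤ ((1151 / 1250) + x * (82 / 125)) * 1 * x := by
    have hb : 0 ≤ 0 * ((1 / 4) - x) ^ 2 + (2302 / 625) * ((x - 0) * ((1 / 4) - x)) + (2712 / 625) * (x - 0) ^ 2 := by
      have h1 := mul_nonneg hA hB
      positivity
    nlinarith [hb]
  have k4 : ((1151 / 1250) + x * (82 / 125)) * 1 * x ≤ (26 / 125) * (1 + 1 * x ^ 2 + 1 * x) := by
    have hb : 0 ≤ (416 / 125) * ((1 / 4) - x) ^ 2 + (2378 / 625) * ((x - 0) * ((1 / 4) - x)) + (18 / 625) * (x - 0) ^ 2 := by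
      have h1 := mul_nonneg hA hB
      positivity
    nlinarith [hb]
  refine good_ofG (σ := ((1151 / 1250) + x * (82 / 125))) (α1 := (6399 / 5000)) (β1 := (10501 / 10000)) (α2 := (9999 / 10000)) (β2 := (5057 / 10000))
    (by ring) hs hM hx (by norm_num) (by norm_num) ?_ ?_ ?_ ?_ ?_
  · nlinarith [k2, hM]
  · nlinarith [k4, hM]
  · exact mul_le_mul_of_nonneg_left (sqrt_chord hM (by norm_num) k1 k2 (by norm_num) (by norm_num)) (by norm_num)
  · exact mul_le_mul_of_nonneg_left (sqrt_chord hM (by norm_num) k3 k4 (by norm_num) (by norm_num)) (by norm_num)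
  · have hb : ∀ A B : ℝ, 0 ≤ A → 0 ≤ B → 0 ≤ (265458944543974144 / 95367431640625) * B ^ 8 + (2956788625633599232 / 95367431640625) * A ^ 1 * B ^ 7 + (13961728742830248192 / 95367431640625) * A ^ 2 * B ^ 6 + (36740001486977619344 / 95367431640625) * A ^ 3 * B ^ 5 + (59152066404082834623 / 95367431640625) * A ^ 4 * B ^ 4 + (59794684179681822471 / 95367431640625) * A ^ 5 * B ^ 3 + (1483931006757369396 / 3814697265625) * A ^ 6 * B ^ 2 + (12916388803295011464 / 95367431640625) * A ^ 7 * B ^ 1 + (3860551983647503179 / 190734863281250) * A ^ 8 := by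
      intro A B hA hB
      positivity
    exact le_of_le_of_eq (hb (x - 0) ((1 / 4) - x) hA hB) (by ring)

end Pool.Agent.ICE
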