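import Pool.Agent.ICE.GRed
import Pool.Agent.ICE.GVD1
import Pool.Agent.ICE.GVD2
import Pool.Agent.ICE.GVB1
import Pool.Agent.ICE.GVB2
import Pool.Agent.ICE.GVA1
import Pool.Agent.ICE.GVA2
import Pool.Agent.ICE.GVA3
import Pool.Agent.ICE.GVA4

/-!
# The faces with constants `γ`, `σ` from the vertex checks
-/

set_option autoImplicit false

namespace Pool.Agent.ICE

open Pool.Agent.ICL

/-- A point of the region. -/
def VVG (γ a b C1 S1 C2 S2 f g t : ℝ) : Prop :=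
  GoodG γ a b C1 S1 C2 S2 (f * a ^ 2) (g * b ^ 2) (f * a ^ 2 + g * b ^ 2 + t * (a * b))
    (t * (a * b) - f * a ^ 2) (t * (a * b) - g * b ^ 2)

/-- A point of the region, mixed case. -/
def VVmG (γ a b C1 S1 C2 S2 f g t : ℝ) : Prop :=
  GoodG γ a b C1 S1 C2 S2 (f * a ^ 2) (g * b ^ 2) (f * a ^ 2 + g * b ^ 2 + t * (a * b))
    (t * (a * b) - f * a ^ 2) (t * (a * b) + g * b ^ 2)

/-- The constant of the far regions. -/
noncomputable def g1 : ℝ := 6184 / 10000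

lemma g1_pos : 0 < g1 := by norm_num [g1]

lemma g0_lt_g1 : g0 < g1 := by
  have h3 : (1732050 / 1000000 : ℝ) ≤ Real.sqrt 3 := Real.le_sqrt_of_sq_le (by norm_num)
  have hs0 : (587785 / 1000000 : ℝ) ≤ sn := by
    refine Real.le_sqrt_of_sq_le ?_
    have := sqrt5_ub
    norm_num
    linarith
  have hs : (587785 / 1000000 : ℝ) ^ 3 ≤ sn ^ 3 := pow_le_pow_left₀ (by norm_num) hs0 3
  rw [g0, g1, div_lt_iff₀ g0_den_pos]
  have h5 := sqrt5_ub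
  have : (1732050 / 1000000 : ℝ) * (587785 / 1000000 : ℝ) ^ 3 ≤ Real.sqrt 3 * sn ^ 3 :=
    mul_le_mul h3 hs (by norm_num) (by positivity)
  norm_num at this ⊢
  nlinarith

/-- A point of a segment of the real line. -/
lemma seg_exists {l u τ : ℝ} (hl : l ≤ τ) (hu : τ ≤ u) :
    ∃ θ : ℝ, 0 ≤ θ ∧ θ ≤ 1 ∧ τ = (1 - θ) * l + θ * u := by
  rcases eq_or_lt_of_le (hl.trans hu) with h | h
  · exact ⟨0, le_rfl, zero_le_one, by linarith⟩
  · refine ⟨(τ - l) / (u - l), div_nonneg (by linarith) (by linarith), ?_, ?_⟩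
    · rw [div_le_one (by linarith)]
      linarith
    · have : u - l ≠ 0 := by linarith
      field_simp
      ring

/-- The parameters of the near region. -/
lemma near_par {a b : ℝ} (ha : 0 < a) (hba : b ≤ a) (h : a ≤ 2 * b) :
    ∃ l d : ℝ, 0 < l ∧ -(1 / 3) ≤ d ∧ d ≤ 1 / 3 ∧ a = l * (1 + d) ∧ b = l * (1 - d) := by
  have hs : 0 < a + b := by linarith
  refine ⟨(a + b) / 2, (a - b) / (a + b), by positivity, ?_, ?_, ?_, ?_⟩
  · have : 0 ≤ (a - b) / (a + b) := div_nonneg (by linarith) hs.le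
    linarith
  · rw [div_le_iff₀ hs]
    linarith
  · field_simp
    ring
  · field_simp
    ring

section

variable {γ a b C1 S1 C2 S2 f g t f' g' t' f'' g'' t'' θ x : ℝ}

lemma VVG.mono {γ' : ℝ} (h : VVG γ' a b C1 S1 C2 S2 f g t) (hg : γ ≤ γ') : VVG γ a b C1 S1 C2 S2 f g t :=
  GoodG.mono h hg

lemma VVmG.mono {γ' : ℝ} (h : VVmG γ' a b C1 S1 C2 S2 f g t) (hg : γ ≤ γ') : VVmG γ a b C1 S1 C2 S2 f g t :=
  GoodG.mono h hg

lemma VVG_of_Vt (h : VtG C1 S1 C2 S2 f g t x) : VVG g1 1 x C1 S1 C2 S2 f g t := by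
  unfold VtG at h
  unfold VVG g1
  have e1 : f * (1 : ℝ) ^ 2 = f := by ring
  have e2 : t * (1 * x) = t * x := by ring
  rw [e1, e2]
  exact h

lemma VVmG_of_Vm (h : VmG C1 S1 C2 S2 f g t x) : VVmG g1 1 x C1 S1 C2 S2 f g t := by
  unfold VmG at h
  unfold VVmG g1
  have e1 : f * (1 : ℝ) ^ 2 = f := by ring
  have e2 : t * (1 * x) = t * x := by ring
  rw [e1, e2]
  exact h

/-- Convexity of the square. -/
lemma sq_conv (hγ : 0 ≤ γ) {M M' : ℝ} (h0 : 0 ≤ θ) (h1 : θ ≤ 1) :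
    γ * ((1 - θ) * M + θ * M') ^ 2 ≤ (1 - θ) * (γ * M ^ 2) + θ * (γ * M' ^ 2) := by
  have : 0 ≤ γ * (θ * (1 - θ) * (M - M') ^ 2) :=
    mul_nonneg hγ (mul_nonneg (mul_nonneg h0 (by linarith)) (sq_nonneg _))
  linarith

lemma VVG_conv (hγ : 0 ≤ γ) (ha : 0 < a) (hb : 0 ≤ b) (hs : 0 < a * S1 + b * S2) (h0 : 0 ≤ θ)
    (h1 : θ ≤ 1) (h : VVG γ a b C1 S1 C2 S2 f g t) (h' : VVG γ a b C1 S1 C2 S2 f' g' t')
    (e1 : f'' = (1 - θ) * f + θ * f') (e2 : g'' = (1 - θ) * g + θ * g')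
    (e3 : t'' = (1 - θ) * t + θ * t') : VVG γ a b C1 S1 C2 S2 f'' g'' t'' := by
  have := CONVG (g := γ) ha hb hs h0 h1 h h' (sq_conv hγ h0 h1)
  unfold VVG
  subst e1 e2 e3
  convert this using 1 <;> ring

lemma VVmG_conv (hγ : 0 ≤ γ) (ha : 0 < a) (hb : 0 ≤ b) (hs : 0 < a * S1 + b * S2) (h0 : 0 ≤ θ)
    (h1 : θ ≤ 1) (h : VVmG γ a b C1 S1 C2 S2 f g t) (h' : VVmG γ a b C1 S1 C2 S2 f' g' t')
    (e1 : f'' = (1 - θ) * f + θ * f') (e2 : g'' = (1 - θ) * g + θ * g')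
    (e3 : t'' = (1 - θ) * t + θ * t') : VVmG γ a b C1 S1 C2 S2 f'' g'' t'' := by
  have := CONVG (g := γ) ha hb hs h0 h1 h h' (sq_conv hγ h0 h1)
  unfold VVmG
  subst e1 e2 e3
  convert this using 1 <;> ring

/-- From the two rational values of `√5` to a value between. -/
lemma VVG_s {σ : ℝ} (hσ : 2236 / 1000 ≤ σ) (hσ' : σ ≤ 22361 / 10000) (hγ : 0 ≤ γ) (c : ℝ) (ha : 0 < a) (hb : 0 ≤ b)
    (hs : 0 < a * S1 + b * S2) (h : VVG γ a b C1 S1 C2 S2 f g t) (h' : VVG γ a b C1 S1 C2 S2 f g t')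
    (e : t = 2236 / 1000 + c) (e' : t' = 22361 / 10000 + c) : VVG γ a b C1 S1 C2 S2 f g (σ + c) := by
  obtain ⟨θ, h0, h1, hθ⟩ := seg_exists hσ hσ'
  refine VVG_conv hγ ha hb hs h0 h1 h h' (by ring) (by ring) ?_
  rw [e, e', hθ]
  ring

lemma VVmG_s {σ : ℝ} (hσ : 2236 / 1000 ≤ σ) (hσ' : σ ≤ 22361 / 10000) (hγ : 0 ≤ γ) (c : ℝ) (ha : 0 < a) (hb : 0 ≤ b)
    (hs : 0 < a * S1 + b * S2) (h : VVmG γ a b C1 S1 C2 S2 f g t) (h' : VVmG γ a b C1 S1 C2 S2 f g t')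
    (e : t = 2236 / 1000 + c) (e' : t' = 22361 / 10000 + c) : VVmG γ a b C1 S1 C2 S2 f g (σ + c) := by
  obtain ⟨θ, h0, h1, hθ⟩ := seg_exists hσ hσ'
  refine VVmG_conv hγ ha hb hs h0 h1 h h' (by ring) (by ring) ?_
  rw [e, e', hθ]
  ring

/-- Scaling. -/
lemma IneqG_scale {a b A1 A2 M r1 r2 l : ℝ} (hl : 0 < l) (h : IneqG γ a b A1 A2 M r1 r2) :
    IneqG γ (l * a) (l * b) (l ^ 2 * A1) (l ^ 2 * A2) (l ^ 2 * M) (l ^ 2 * r1) (l ^ 2 * r2) := by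
  intro p q k hp hq hk
  have h1 := h (p / l) (q / l) (k / l) (by positivity) (by positivity) (by positivity)
  have key : ∀ X Y c : ℝ, Real.sqrt ((l ^ 2 * X) ^ 2 + (c * (l * Y)) ^ 2)
      = l ^ 2 * Real.sqrt (X ^ 2 + (c / l * Y) ^ 2) := by
    intro X Y c
    have : (l ^ 2 * X) ^ 2 + (c * (l * Y)) ^ 2 = (l ^ 2) ^ 2 * (X ^ 2 + (c / l * Y) ^ 2) := by
      field_simp
    rw [this, Real.sqrt_mul (by positivity), Real.sqrt_sq (by positivity)]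
  have hA : Ag (l * a) (l * b) (l ^ 2 * A1) (l ^ 2 * A2) (l ^ 2 * r1) (l ^ 2 * r2) p q k
      = l ^ 2 * Ag a b A1 A2 r1 r2 (p / l) (q / l) (k / l) := by
    unfold Ag
    rw [key, key, key, key]
    ring
  rw [hA]
  have hV : p * (l ^ 2 * A1) + q * (l ^ 2 * A2) + k * (l ^ 2 * M)
      = l ^ 3 * (p / l * A1 + q / l * A2 + k / l * M) := by
    field_simp
  rw [hV]
  have h2 := mul_le_mul_of_nonneg_left h1 (show 0 ≤ l ^ 6 by positivity)
  calc 27 * γ * (l ^ 3 * (p / l * A1 + q / l * A2 + k / l * M)) ^ 2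
      = l ^ 6 * (27 * γ * (p / l * A1 + q / l * A2 + k / l * M) ^ 2) := by ring
    _ ≤ _ := h2
    _ = _ := by ring

lemma VVG_ineq (hγ : 0 < γ) {l A1 A2 τ : ℝ} {a' b' : ℝ} (hl : 0 < l) (ha : 0 < a) (hb : 0 ≤ b)
    (u1 : C1 ^ 2 + S1 ^ 2 ≤ 1) (u2 : C2 ^ 2 + S2 ^ 2 ≤ 1) (hs : 0 < a * S1 + b * S2)
    (h : VVG γ a b C1 S1 C2 S2 f g τ) (ea : a' = l * a) (eb : b' = l * b) (e1 : A1 = f * a' ^ 2)
    (e2 : A2 = g * b' ^ 2) (e3 : t = τ * (a' * b')) :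
    IneqG γ a' b' A1 A2 (A1 + A2 + t) (t - A1) (t - A2) := by
  have h1 := IneqG_scale hl (KEYG hγ ha hb u1 u2 hs h)
  subst e1 e2 e3 ea eb
  convert h1 using 1 <;> ring

lemma VVmG_ineq (hγ : 0 < γ) {l A1 A2 τ : ℝ} {a' b' : ℝ} (hl : 0 < l) (ha : 0 < a) (hb : 0 ≤ b)
    (u1 : C1 ^ 2 + S1 ^ 2 ≤ 1) (u2 : C2 ^ 2 + S2 ^ 2 ≤ 1) (hs : 0 < a * S1 + b * S2)
    (h : VVmG γ a b C1 S1 C2 S2 f g τ) (ea : a' = l * a) (eb : b' = l * b) (e1 : A1 = f * a' ^ 2)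
    (e2 : A2 = g * b' ^ 2) (e3 : t = τ * (a' * b')) :
    IneqG γ a' b' A1 A2 (A1 + A2 + t) (t - A1) (t + A2) := by
  have h1 := IneqG_scale hl (KEYG hγ ha hb u1 u2 hs h)
  subst e1 e2 e3 ea eb
  convert h1 using 1 <;> ring

/-- `VVmG` from `VVG`. -/
lemma VVmG_of_VVG (hC : 0 ≤ C2) (hg : 0 ≤ g) (h : VVG γ a b C1 S1 C2 S2 f g t) :
    VVmG γ a b C1 S1 C2 S2 f g t := by
  obtain ⟨h1, h2, h3, h4, h5, h6⟩ := h
  refine ⟨h1, h2, h3, h4, h5, h6.trans (mul_le_mul_of_nonneg_left ?_ (sq_nonneg _))⟩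
  have : 0 ≤ g * b ^ 2 := by positivity
  nlinarith

end

/-- The data of a test in the far region. -/
structure DFG (σ C1 S1 C2 S2 x : ℝ) : Prop where
  u1 : C1 ^ 2 + S1 ^ 2 ≤ 1
  u2 : C2 ^ 2 + S2 ^ 2 ≤ 1
  hC : 0 ≤ C2
  sp : 0 < 1 * S1 + x * S2
  v11 : VVG g1 1 x C1 S1 C2 S2 1 1 (σ + -1)
  v10 : VVG g1 1 x C1 S1 C2 S2 1 0 (σ + -1 / 2)
  v01 : VVG g1 1 x C1 S1 C2 S2 0 1 (σ + -1 / 2)
  v00 : VVG g1 1 x C1 S1 C2 S2 0 0 (σ + 0)
  m11 : VVmG g1 1 x C1 S1 C2 S2 1 1 (σ + 0)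
  m01 : VVmG g1 1 x C1 S1 C2 S2 0 1 (σ + 1 / 2)
  c11 : VVG g1 1 x C1 S1 C2 S2 1 1 1

lemma DFG1 {σ : ℝ} (hσ : 2236 / 1000 ≤ σ) (hσ' : σ ≤ 22361 / 10000) {x : ℝ} (h0 : 0 < x) (h1 : x ≤ 1 / 4) :
    DFG σ (-(39 / 100)) (1151 / 1250) (7547 / 10000) (82 / 125) x := by
  have hs : (0 : ℝ) < 1 * (1151 / 1250) + x * (82 / 125) := by positivity
  exact
    { u1 := by norm_num
      u2 := by norm_num
      hC := by norm_num
      sp := hs
      v11 := VVG_s hσ hσ' g1_pos.le _ one_pos h0.le hs (VVG_of_Vt (D1_11_a h0.le h1)) (VVG_of_Vt (D1_11_b h0.le h1))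
        (by norm_num) (by norm_num)
      v10 := VVG_s hσ hσ' g1_pos.le _ one_pos h0.le hs (VVG_of_Vt (D1_10_a h0.le h1)) (VVG_of_Vt (D1_10_b h0.le h1))
        (by norm_num) (by norm_num)
      v01 := VVG_s hσ hσ' g1_pos.le _ one_pos h0.le hs (VVG_of_Vt (D1_01_a h0 h0.le h1)) (VVG_of_Vt (D1_01_b h0 h0.le h1))
        (by norm_num) (by norm_num)
      v00 := VVG_s hσ hσ' g1_pos.le _ one_pos h0.le hs (VVG_of_Vt (D1_00_a h0 h0.le h1)) (VVG_of_Vt (D1_00_b h0 h0.le h1))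
        (by norm_num) (by norm_num)
      m11 := VVmG_s hσ hσ' g1_pos.le _ one_pos h0.le hs (VVmG_of_Vm (D1_m11_a h0.le h1)) (VVmG_of_Vm (D1_m11_b h0.le h1))
        (by norm_num) (by norm_num)
      m01 := VVmG_s hσ hσ' g1_pos.le _ one_pos h0.le hs (VVmG_of_Vm (D1_m01_a h0 h0.le h1))
        (VVmG_of_Vm (D1_m01_b h0 h0.le h1)) (by norm_num) (by norm_num)
      c11 := VVG_of_Vt (D1_11c_a h0.le h1) }

lemma DFG2 {σ : ℝ} (hσ : 2236 / 1000 ≤ σ) (hσ' : σ ≤ 22361 / 10000) {x : ℝ} (h0 : 1 / 4 ≤ x) (h1 : x ≤ 1 / 2) :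
    DFG σ (-(26 / 125)) (489 / 500) (707 / 1000) (707 / 1000) x := by
  have hx : 0 ≤ x := by linarith
  have hs : (0 : ℝ) < 1 * (489 / 500) + x * (707 / 1000) := by positivity
  exact
    { u1 := by norm_num
      u2 := by norm_num
      hC := by norm_num
      sp := hs
      v11 := VVG_s hσ hσ' g1_pos.le _ one_pos hx hs (VVG_of_Vt (D2_11_a h0 h1)) (VVG_of_Vt (D2_11_b h0 h1))
        (by norm_num) (by norm_num)
      v10 := VVG_s hσ hσ' g1_pos.le _ one_pos hx hs (VVG_of_Vt (D2_10_a h0 h1)) (VVG_of_Vt (D2_10_b h0 h1))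
        (by norm_num) (by norm_num)
      v01 := VVG_s hσ hσ' g1_pos.le _ one_pos hx hs (VVG_of_Vt (D2_01_a h0 h1)) (VVG_of_Vt (D2_01_b h0 h1))
        (by norm_num) (by norm_num)
      v00 := VVG_s hσ hσ' g1_pos.le _ one_pos hx hs (VVG_of_Vt (D2_00_a h0 h1)) (VVG_of_Vt (D2_00_b h0 h1))
        (by norm_num) (by norm_num)
      m11 := VVmG_s hσ hσ' g1_pos.le _ one_pos hx hs (VVmG_of_Vm (D2_m11_a h0 h1)) (VVmG_of_Vm (D2_m11_b h0 h1))
        (by norm_num) (by norm_num)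
      m01 := VVmG_s hσ hσ' g1_pos.le _ one_pos hx hs (VVmG_of_Vm (D2_m01_a h0 h1)) (VVmG_of_Vm (D2_m01_b h0 h1))
        (by norm_num) (by norm_num)
      c11 := VVG_of_Vt (D2_11c_a h0 h1) }

lemma DFG_exists {σ : ℝ} (hσ : 2236 / 1000 ≤ σ) (hσ' : σ ≤ 22361 / 10000) {x : ℝ} (h0 : 0 < x) (h1 : x ≤ 1 / 2) :
    ∃ C1 S1 C2 S2 : ℝ, DFG σ C1 S1 C2 S2 x := by
  rcases le_total x (1 / 4) with h | h
  · exact ⟨_, _, _, _, DFG1 hσ hσ' h0 h⟩
  · exact ⟨_, _, _, _, DFG2 hσ hσ' h h1⟩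

section

variable {σ C1 S1 C2 S2 x f g τ : ℝ}

/-- Lower boundary: the decagon constraint is tight. -/
lemma DFG.low (h : DFG σ C1 S1 C2 S2 x) (hx : 0 ≤ x) (hf : 0 ≤ f) (hf1 : f ≤ 1) (hg : 0 ≤ g)
    (hg1 : g ≤ 1) : VVG g1 1 x C1 S1 C2 S2 f g (σ - (f + g) / 2) := by
  have k0 : VVG g1 1 x C1 S1 C2 S2 f 0 (σ - f / 2) :=
    VVG_conv g1_pos.le one_pos hx h.sp hf hf1 h.v00 h.v10 (by ring) (by ring) (by ring)
  have k1 : VVG g1 1 x C1 S1 C2 S2 f 1 (σ - f / 2 - 1 / 2) :=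
    VVG_conv g1_pos.le one_pos hx h.sp hf hf1 h.v01 h.v11 (by ring) (by ring) (by ring)
  exact VVG_conv g1_pos.le one_pos hx h.sp hg hg1 k0 k1 (by ring) (by ring) (by ring)

/-- Upper boundary, mixed. -/
lemma DFG.upp (h : DFG σ C1 S1 C2 S2 x) (hx : 0 ≤ x) (hf : 0 ≤ f) (hf1 : f ≤ 1) (hg : 0 ≤ g)
    (hg1 : g ≤ 1) : VVmG g1 1 x C1 S1 C2 S2 f g (σ - (f - g) / 2) := by
  have k0 : VVmG g1 1 x C1 S1 C2 S2 f 0 (σ - f / 2) :=
    VVmG_conv g1_pos.le one_pos hx h.sp hf hf1 (VVmG_of_VVG h.hC le_rfl h.v00) (VVmG_of_VVG h.hC le_rfl h.v10)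
      (by ring) (by ring) (by ring)
  have k1 : VVmG g1 1 x C1 S1 C2 S2 f 1 (σ - f / 2 + 1 / 2) :=
    VVmG_conv g1_pos.le one_pos hx h.sp hf hf1 h.m01 h.m11 (by ring) (by ring) (by ring)
  exact VVmG_conv g1_pos.le one_pos hx h.sp hg hg1 k0 k1 (by ring) (by ring) (by ring)

lemma DFG.mid (h : DFG σ C1 S1 C2 S2 x) (hx : 0 ≤ x) (hf : 0 ≤ f) (hf1 : f ≤ 1) (hg : 0 ≤ g)
    (hg1 : g ≤ 1) (h1 : σ - (f + g) / 2 ≤ τ) (h2 : τ ≤ σ - (f - g) / 2) :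
    VVmG g1 1 x C1 S1 C2 S2 f g τ := by
  obtain ⟨θ, t0, t1, ht⟩ := seg_exists h1 h2
  exact VVmG_conv g1_pos.le one_pos hx h.sp t0 t1 (VVmG_of_VVG h.hC hg (h.low hx hf hf1 hg hg1))
    (h.upp hx hf hf1 hg hg1) (by ring) (by ring) ht

lemma DFG.faceA (h : DFG σ C1 S1 C2 S2 x) (hx : 0 ≤ x) (h1 : 1 ≤ τ) (h2 : τ ≤ σ - 1) :
    VVG g1 1 x C1 S1 C2 S2 1 1 τ := by
  obtain ⟨θ, t0, t1, ht⟩ := seg_exists h1 h2
  exact VVG_conv g1_pos.le one_pos hx h.sp t0 t1 h.c11 h.v11 (by ring) (by ring) (ht.trans (by ring))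

end

/-- The data of a test in the middle region. -/
structure BFG (σ C1 S1 C2 S2 x : ℝ) : Prop where
  u1 : C1 ^ 2 + S1 ^ 2 ≤ 1
  u2 : C2 ^ 2 + S2 ^ 2 ≤ 1
  sp : 0 < 1 * S1 + x * S2
  v1h : VVG g1 1 x C1 S1 C2 S2 1 (1 / 2) (σ + -3 / 4)
  vh1 : VVG g1 1 x C1 S1 C2 S2 (1 / 2) 1 (σ + -3 / 4)
  v10 : VVG g1 1 x C1 S1 C2 S2 1 0 (σ + -1 / 2)
  v01 : VVG g1 1 x C1 S1 C2 S2 0 1 (σ + -1 / 2)
  v00 : VVG g1 1 x C1 S1 C2 S2 0 0 (σ + 0)

lemma BFG1 {σ : ℝ} (hσ : 2236 / 1000 ≤ σ) (hσ' : σ ≤ 22361 / 10000) {x : ℝ} (h0 : 1 / 2 ≤ x) (h1 : x ≤ 3 / 4) :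
    BFG σ (17 / 1000) (4999 / 5000) (139 / 200) (719 / 1000) x := by
  have hx : 0 ≤ x := by linarith
  have hs : (0 : ℝ) < 1 * (4999 / 5000) + x * (719 / 1000) := by positivity
  exact
    { u1 := by norm_num
      u2 := by norm_num
      sp := hs
      v1h := VVG_s hσ hσ' g1_pos.le _ one_pos hx hs (VVG_of_Vt (B1_1h_a h0 h1)) (VVG_of_Vt (B1_1h_b h0 h1))
        (by norm_num) (by norm_num)
      vh1 := VVG_s hσ hσ' g1_pos.le _ one_pos hx hs (VVG_of_Vt (B1_h1_a h0 h1)) (VVG_of_Vt (B1_h1_b h0 h1))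
        (by norm_num) (by norm_num)
      v10 := VVG_s hσ hσ' g1_pos.le _ one_pos hx hs (VVG_of_Vt (B1_10_a h0 h1)) (VVG_of_Vt (B1_10_b h0 h1))
        (by norm_num) (by norm_num)
      v01 := VVG_s hσ hσ' g1_pos.le _ one_pos hx hs (VVG_of_Vt (B1_01_a h0 h1)) (VVG_of_Vt (B1_01_b h0 h1))
        (by norm_num) (by norm_num)
      v00 := VVG_s hσ hσ' g1_pos.le _ one_pos hx hs (VVG_of_Vt (B1_00_a h0 h1)) (VVG_of_Vt (B1_00_b h0 h1))
        (by norm_num) (by norm_num) }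

lemma BFG2 {σ : ℝ} (hσ : 2236 / 1000 ≤ σ) (hσ' : σ ≤ 22361 / 10000) {x : ℝ} (h0 : 3 / 4 ≤ x) (h1 : x ≤ 1) :
    BFG σ (121 / 500) (97 / 100) (97 / 200) (1749 / 2000) x := by
  have hx : 0 ≤ x := by linarith
  have hs : (0 : ℝ) < 1 * (97 / 100) + x * (1749 / 2000) := by positivity
  exact
    { u1 := by norm_num
      u2 := by norm_num
      sp := hs
      v1h := VVG_s hσ hσ' g1_pos.le _ one_pos hx hs (VVG_of_Vt (B2_1h_a h0 h1)) (VVG_of_Vt (B2_1h_b h0 h1))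
        (by norm_num) (by norm_num)
      vh1 := VVG_s hσ hσ' g1_pos.le _ one_pos hx hs (VVG_of_Vt (B2_h1_a h0 h1)) (VVG_of_Vt (B2_h1_b h0 h1))
        (by norm_num) (by norm_num)
      v10 := VVG_s hσ hσ' g1_pos.le _ one_pos hx hs (VVG_of_Vt (B2_10_a h0 h1)) (VVG_of_Vt (B2_10_b h0 h1))
        (by norm_num) (by norm_num)
      v01 := VVG_s hσ hσ' g1_pos.le _ one_pos hx hs (VVG_of_Vt (B2_01_a h0 h1)) (VVG_of_Vt (B2_01_b h0 h1))
        (by norm_num) (by norm_num)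
      v00 := VVG_s hσ hσ' g1_pos.le _ one_pos hx hs (VVG_of_Vt (B2_00_a h0 h1)) (VVG_of_Vt (B2_00_b h0 h1))
        (by norm_num) (by norm_num) }

lemma BFG_exists {σ : ℝ} (hσ : 2236 / 1000 ≤ σ) (hσ' : σ ≤ 22361 / 10000) {x : ℝ} (h0 : 1 / 2 ≤ x) (h1 : x ≤ 1) :
    ∃ C1 S1 C2 S2 : ℝ, BFG σ C1 S1 C2 S2 x := by
  rcases le_total x (3 / 4) with h | h
  · exact ⟨_, _, _, _, BFG1 hσ hσ' h0 h⟩
  · exact ⟨_, _, _, _, BFG2 hσ hσ' h h1⟩

lemma BFG.low {σ C1 S1 C2 S2 x f g : ℝ} (h : BFG σ C1 S1 C2 S2 x) (hx : 0 ≤ x) (hf : 0 ≤ f)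
    (hf1 : f ≤ 1) (hg : 0 ≤ g) (hg1 : g ≤ 1) (hfg : f + g ≤ 3 / 2) :
    VVG g1 1 x C1 S1 C2 S2 f g (σ - (f + g) / 2) := by
  have k0 : VVG g1 1 x C1 S1 C2 S2 f 0 (σ - f / 2) :=
    VVG_conv g1_pos.le one_pos hx h.sp hf hf1 h.v00 h.v10 (by ring) (by ring) (by ring)
  rcases le_total f (1 / 2) with h2 | h2
  · have k1 : VVG g1 1 x C1 S1 C2 S2 f 1 (σ - f / 2 - 1 / 2) :=
      VVG_conv g1_pos.le (θ := 2 * f) one_pos hx h.sp (by linarith) (by linarith) h.v01 h.vh1 (by ring) (by ring)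
        (by ring)
    exact VVG_conv g1_pos.le one_pos hx h.sp hg hg1 k0 k1 (by ring) (by ring) (by ring)
  · have k1 : VVG g1 1 x C1 S1 C2 S2 f (3 / 2 - f) (σ - 3 / 4) :=
      VVG_conv g1_pos.le (θ := 2 * f - 1) one_pos hx h.sp (by linarith) (by linarith) h.vh1 h.v1h (by ring)
        (by ring) (by ring)
    have hpos : 0 < 3 / 2 - f := by linarith
    have e : g = g / (3 / 2 - f) * (3 / 2 - f) := (div_mul_cancel₀ g hpos.ne').symm
    refine VVG_conv g1_pos.le (θ := g / (3 / 2 - f)) one_pos hx h.sp (by positivity) ?_ k0 k1 (by ring) ?_ ?_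
    · rw [div_le_one hpos]
      linarith
    · linarith
    · linear_combination (-(1 / 2 : ℝ)) * e

section

variable {γ σ d f g τ : ℝ}

/-- The value at the point `(1/2, 1)` from the value at the point `(1, 1/2)`. -/
lemma near_swap {c : ℝ} (h : VVG γ (1 + -d) (1 - -d) (C1A (-d)) (S1A (-d)) (C2A (-d)) (S2A (-d)) 1 (1 / 2) c) :
    VVG γ (1 + d) (1 - d) (C1A d) (S1A d) (C2A d) (S2A d) (1 / 2) 1 c := by
  have h' := GoodG_swap h
  rw [← C2A_eq, ← S2A_eq, C2A_eq (-d), S2A_eq (-d), neg_neg] at h'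
  unfold VVG
  convert h' using 1 <;> ring

/-- The three vertices of the near region. -/
structure NFG (γ σ d : ℝ) : Prop where
  v11 : VVG γ (1 + d) (1 - d) (C1A d) (S1A d) (C2A d) (S2A d) 1 1 (σ - 1)
  v1h : VVG γ (1 + d) (1 - d) (C1A d) (S1A d) (C2A d) (S2A d) 1 (1 / 2) (σ - 3 / 4)
  vh1 : VVG γ (1 + d) (1 - d) (C1A d) (S1A d) (C2A d) (S2A d) (1 / 2) 1 (σ - 3 / 4)

lemma NFG.low (hγ : 0 ≤ γ) (h : NFG γ σ d) (h1 : -(1 / 3) ≤ d) (h2 : d ≤ 1 / 3) (hf : f ≤ 1) (hg : g ≤ 1)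
    (hfg : 3 / 2 ≤ f + g) :
    VVG γ (1 + d) (1 - d) (C1A d) (S1A d) (C2A d) (S2A d) f g (σ - (f + g) / 2) := by
  have ha : 0 < 1 + d := by linarith
  have hb : 0 ≤ 1 - d := by linarith
  have hs := sgA_pos d
  rcases eq_or_lt_of_le (show f + g ≤ 2 by linarith) with h3 | h3
  · have e1 : f = 1 := by linarith
    have e2 : g = 1 := by linarith
    rw [e1, e2]
    norm_num
    exact h.v11
  · set μ := 2 * (2 - f - g) with hμ
    have hμ0 : 0 < μ := by linarith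
    have hμ1 : μ ≤ 1 := by linarith
    have k : VVG γ (1 + d) (1 - d) (C1A d) (S1A d) (C2A d) (S2A d) (1 - (1 - f) / μ) (1 - (1 - g) / μ)
        (σ - 3 / 4) := by
      refine VVG_conv hγ (θ := 2 * ((1 - f) / μ)) ha hb hs ?_ ?_ h.v1h h.vh1 ?_ ?_ ?_
      · have : 0 ≤ (1 - f) / μ := div_nonneg (by linarith) hμ0.le
        linarith
      · rw [← mul_div_assoc, div_le_one hμ0]
        linarith
      · ring
      · have : (1 - f) / μ + (1 - g) / μ = 1 / 2 := by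
          rw [← add_div, div_eq_iff hμ0.ne']
          linarith
        linear_combination (-1 : ℝ) * this
      · ring
    refine VVG_conv hγ (θ := μ) ha hb hs hμ0.le hμ1 h.v11 k ?_ ?_ ?_
    · field_simp
      ring
    · field_simp
      ring
    · rw [hμ]
      ring

lemma near_1h (h1 : -(1 / 3) ≤ d) (h2 : d ≤ 1 / 3) (hσ : 2236 / 1000 ≤ σ) (hσ' : σ ≤ Real.sqrt 5) :
    VVG (g0 * (101 / 100)) (1 + d) (1 - d) (C1A d) (S1A d) (C2A d) (S2A d) 1 (1 / 2) (σ - 3 / 4) := by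
  have ha : 0 < 1 + d := by linarith
  have hb : 0 ≤ 1 - d := by linarith
  obtain ⟨θ, t0, t1, ht⟩ := seg_exists hσ hσ'
  have hg : 0 ≤ g0 * (101 / 100) := by
    have := g0_pos
    positivity
  exact VVG_conv hg ha hb (sgA_pos d) t0 t1 (A_1k h1 h2) (A_1h h1 h2) (by ring) (by ring)
    (by rw [ht]; ring)

/-- The points `(1, 1, τ)` for `τ < √5 - 1`. -/
lemma near_11 (h1 : -(1 / 3) ≤ d) (h2 : d ≤ 1 / 3) {θ : ℝ} (t0 : 0 ≤ θ) (t1 : θ ≤ 1)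
    (ht : τ = (1 - θ) * (Real.sqrt 5 - 1) + θ * 1) :
    VVG (g0 * (1 + θ / 400)) (1 + d) (1 - d) (C1A d) (S1A d) (C2A d) (S2A d) 1 1 τ := by
  have ha : 0 < 1 + d := by linarith
  have hb : 0 < 1 - d := by linarith
  have hg := g0_pos
  have hab : 0 < (1 + d) * (1 - d) := mul_pos ha hb
  have h5 := sqrt5_ub
  have h5' := sqrt5_lb
  have k1 : VVG g0 (1 + d) (1 - d) (C1A d) (S1A d) (C2A d) (S2A d) 1 1 (Real.sqrt 5 - 1) := by
    refine VVG.mono (A_11 h1 h2) ?_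
    have : 0 ≤ g0 * (1 / 4 * d ^ 2) := by positivity
    linarith
  have k2 : VVG (g0 * (101 / 100)) (1 + d) (1 - d) (C1A d) (S1A d) (C2A d) (S2A d) 1 1 1 := A_11c h1 h2
  set M := 1 * (1 + d) ^ 2 + 1 * (1 - d) ^ 2 + (Real.sqrt 5 - 1) * ((1 + d) * (1 - d)) with hM
  set M' := 1 * (1 + d) ^ 2 + 1 * (1 - d) ^ 2 + 1 * ((1 + d) * (1 - d)) with hM'
  have hM'0 : 0 < M' := by positivity
  have hM0 : 0 ≤ M := by
    have : 0 < (Real.sqrt 5 - 1) * ((1 + d) * (1 - d)) := mul_pos (by linarith) hab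
    positivity
  have hMM : M ≤ 11 / 10 * M' := by
    rw [hM, hM']
    nlinarith [sq_nonneg d, mul_pos hab (show (0 : ℝ) < 2236068 / 1000000 - Real.sqrt 5 + 1 by linarith)]
  have hsq : M ^ 2 ≤ 121 / 100 * M' ^ 2 := by
    have := pow_le_pow_left₀ hM0 hMM 2
    linarith
  have d1 : g0 * (1 + θ / 400) * ((1 - θ) * M + θ * M') ^ 2
      ≤ (1 - θ) * (g0 * M ^ 2) + θ * (g0 * (101 / 100) * M' ^ 2) := by
    have c1 := sq_conv (γ := g0 * (1 + θ / 400)) (M := M) (M' := M') (by positivity) t0 t1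
    refine c1.trans ?_
    have e : (1 - θ) * (g0 * M ^ 2) + θ * (g0 * (101 / 100) * M' ^ 2)
        - ((1 - θ) * (g0 * (1 + θ / 400) * M ^ 2) + θ * (g0 * (1 + θ / 400) * M' ^ 2))
        = g0 * θ / 400 * (4 * M' ^ 2 - (1 - θ) * M ^ 2 - θ * M' ^ 2) := by ring
    have e2 : 0 ≤ 4 * M' ^ 2 - (1 - θ) * M ^ 2 - θ * M' ^ 2 := by
      have := mul_le_mul_of_nonneg_left hsq (sub_nonneg.2 t1)
      have h3 : 0 < M' ^ 2 := by positivity
      nlinarith [mul_nonneg t0 h3.le]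
    have e3 : 0 ≤ g0 * θ / 400 * (4 * M' ^ 2 - (1 - θ) * M ^ 2 - θ * M' ^ 2) := by positivity
    linarith
  have := CONVG (g := g0 * (1 + θ / 400)) ha hb.le (sgA_pos d) t0 t1 k1 k2 d1
  unfold VVG
  rw [ht]
  convert this using 1 <;> ring

end

/-- The constant for `σ < √5`. -/
noncomputable def gS (σ : ℝ) : ℝ := min g1 (g0 * (1 + (Real.sqrt 5 - σ) / (Real.sqrt 5 - 2) / 400))

section

variable {σ : ℝ}

lemma th_pos (hσ' : σ < Real.sqrt 5) : 0 < (Real.sqrt 5 - σ) / (Real.sqrt 5 - 2) := by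
  have := sqrt5_lb
  exact div_pos (by linarith) (by linarith)

lemma th_le (hσ : 2236 / 1000 ≤ σ) : (Real.sqrt 5 - σ) / (Real.sqrt 5 - 2) ≤ 1 := by
  have := sqrt5_lb
  rw [div_le_one (by linarith)]
  linarith

lemma g0_lt_gS (hσ' : σ < Real.sqrt 5) : g0 < gS σ := by
  refine lt_min g0_lt_g1 ?_
  have h1 := th_pos hσ'
  have h2 := g0_pos
  have : 0 < g0 * ((Real.sqrt 5 - σ) / (Real.sqrt 5 - 2) / 400) := by positivity
  linarith

lemma gS_pos (hσ' : σ < Real.sqrt 5) : 0 < gS σ := g0_pos.trans (g0_lt_gS hσ')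

lemma gS_le101 (hσ : 2236 / 1000 ≤ σ) : gS σ ≤ g0 * (101 / 100) := by
  refine (min_le_right _ _).trans ?_
  have h1 := th_le hσ
  have h2 := g0_pos
  nlinarith

lemma near_face (hσ : 2236 / 1000 ≤ σ) (hσ' : σ < Real.sqrt 5) {d τ : ℝ} (h1 : -(1 / 3) ≤ d) (h2 : d ≤ 1 / 3)
    (h3 : 1 ≤ τ) (h4 : τ ≤ σ - 1) :
    VVG (gS σ) (1 + d) (1 - d) (C1A d) (S1A d) (C2A d) (S2A d) 1 1 τ := by
  have h5 := sqrt5_lb
  have hp : 0 < Real.sqrt 5 - 2 := by linarith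
  have k := near_11 (τ := τ) h1 h2 (θ := (Real.sqrt 5 - 1 - τ) / (Real.sqrt 5 - 2))
    (div_nonneg (by linarith) hp.le) (by rw [div_le_one hp]; linarith) (by field_simp; ring)
  refine k.mono ((min_le_right _ _).trans ?_)
  have h6 : (Real.sqrt 5 - σ) / (Real.sqrt 5 - 2) ≤ (Real.sqrt 5 - 1 - τ) / (Real.sqrt 5 - 2) :=
    div_le_div_of_nonneg_right (by linarith) hp.le
  have h7 := g0_pos
  nlinarith

lemma near_NFG (hσ : 2236 / 1000 ≤ σ) (hσ' : σ < Real.sqrt 5) {d : ℝ} (h1 : -(1 / 3) ≤ d) (h2 : d ≤ 1 / 3) :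
    NFG (gS σ) σ d :=
  { v11 := near_face hσ hσ' h1 h2 (by linarith) le_rfl
    v1h := (near_1h h1 h2 hσ hσ'.le).mono (gS_le101 hσ)
    vh1 := near_swap ((near_1h (d := -d) (by linarith) (by linarith) hσ hσ'.le).mono (gS_le101 hσ)) }

end

section

variable {γ σ : ℝ}

theorem FAG_of (hγ : 0 < γ) (hγ1 : γ ≤ g1) (hσ : 2236 / 1000 ≤ σ) (hσ' : σ ≤ 22361 / 10000)
    (hN : ∀ d τ : ℝ, -(1 / 3) ≤ d → d ≤ 1 / 3 → 1 ≤ τ → τ ≤ σ - 1 →
      VVG γ (1 + d) (1 - d) (C1A d) (S1A d) (C2A d) (S2A d) 1 1 τ) : FAG γ σ := by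
  intro a b t ha hb hba h1 h2
  rcases eq_or_lt_of_le hb with h0 | h0
  · -- `b = 0`
    have hb0 : b = 0 := h0.symm
    have ht : t = 1 * (a * b) := by
      rw [hb0] at h1 h2 ⊢
      linarith
    refine VVG_ineq hγ (f := 1) (g := 1) (a := 1) (b := 0) (C1 := -(39 / 100)) (S1 := 1151 / 1250)
      (C2 := 7547 / 10000) (S2 := 82 / 125) ha one_pos le_rfl (by norm_num) (by norm_num) (by norm_num)
      ((VVG_of_Vt (D1_11c_a le_rfl (by norm_num))).mono hγ1) (by ring) (by rw [hb0]; ring) (by ring) (by ring) ht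
  · have hab : 0 < a * b := by positivity
    have hτ : t = t / (a * b) * (a * b) := by field_simp
    have hτ1 : 1 ≤ t / (a * b) := by rwa [le_div_iff₀ hab, one_mul]
    have hτ2 : t / (a * b) ≤ σ - 1 := by rwa [div_le_iff₀ hab]
    rcases le_total a (2 * b) with h3 | h3
    · obtain ⟨l, d, hl, d1, d2, ea, eb⟩ := near_par ha hba h3
      exact VVG_ineq hγ hl (by linarith) (by linarith) (unitA1 d) (unitA2 d) (sgA_pos d)
        (hN d _ d1 d2 hτ1 hτ2) ea eb (by ring) (by ring) hτ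
    · have hx0 : 0 < b / a := by positivity
      have hx1 : b / a ≤ 1 / 2 := by
        rw [div_le_iff₀ ha]
        linarith
      obtain ⟨C1, S1, C2, S2, hD⟩ := DFG_exists hσ hσ' hx0 hx1
      exact VVG_ineq hγ ha one_pos hx0.le hD.u1 hD.u2 hD.sp ((hD.faceA hx0.le hτ1 hτ2).mono hγ1) (by ring)
        (by field_simp) (by ring) (by ring) hτ

/-- Face B for one pair `(a, b)`. -/
theorem FBG_at (hγ : 0 < γ) (hγ1 : γ ≤ g1) (hσ : 2236 / 1000 ≤ σ) (hσ' : σ ≤ 22361 / 10000)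
    {a b A1 A2 t : ℝ} (hb : 0 < b) (hba : b ≤ a)
    (hN : a ≤ 2 * b → ∃ l d : ℝ, 0 < l ∧ -(1 / 3) ≤ d ∧ d ≤ 1 / 3 ∧ a = l * (1 + d) ∧ b = l * (1 - d) ∧
      NFG γ σ d)
    (hA1 : 0 ≤ A1) (hA1' : A1 ≤ a ^ 2) (hA2 : 0 ≤ A2) (hA2' : A2 ≤ b ^ 2)
    (h : t * (a * b) + (A1 * b ^ 2 + A2 * a ^ 2) / 2 = σ * (a * b) ^ 2) :
    IneqG γ a b A1 A2 (A1 + A2 + t) (t - A1) (t - A2) := by
  have ha : 0 < a := by linarith
  have hab : 0 < a * b := by positivity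
  have ha2 : 0 < a ^ 2 := by positivity
  have hb2 : 0 < b ^ 2 := by positivity
  set f := A1 / a ^ 2 with hf
  set g := A2 / b ^ 2 with hg
  have ef : A1 = f * a ^ 2 := by rw [hf]; field_simp
  have eg : A2 = g * b ^ 2 := by rw [hg]; field_simp
  have f0 : 0 ≤ f := by positivity
  have g0' : 0 ≤ g := by positivity
  have f1 : f ≤ 1 := by rwa [hf, div_le_one ha2]
  have g1' : g ≤ 1 := by rwa [hg, div_le_one hb2]
  have et : t = (σ - (f + g) / 2) * (a * b) := by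
    rw [ef, eg] at h
    have : (a * b) * t = (a * b) * ((σ - (f + g) / 2) * (a * b)) := by linear_combination h
    exact mul_left_cancel₀ hab.ne' this
  rcases le_total a (2 * b) with h3 | h3
  · rcases le_total (3 / 2) (f + g) with h4 | h4
    · obtain ⟨l, d, hl, d1, d2, ea, eb, hNF⟩ := hN h3
      exact VVG_ineq hγ hl (by linarith) (by linarith) (unitA1 d) (unitA2 d) (sgA_pos d)
        (hNF.low hγ.le d1 d2 f1 g1' h4) ea eb ef eg et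
    · have hx0 : 1 / 2 ≤ b / a := by
        rw [le_div_iff₀ ha]
        linarith
      have hx1 : b / a ≤ 1 := by
        rw [div_le_iff₀ ha]
        linarith
      have hx : 0 ≤ b / a := by positivity
      obtain ⟨C1, S1, C2, S2, hB⟩ := BFG_exists hσ hσ' hx0 hx1
      exact VVG_ineq hγ ha one_pos hx hB.u1 hB.u2 hB.sp ((hB.low hx f0 f1 g0' g1' h4).mono hγ1) (by ring)
        (by field_simp) ef eg et
  · have hx0 : 0 < b / a := by positivity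
    have hx1 : b / a ≤ 1 / 2 := by
      rw [div_le_iff₀ ha]
      linarith
    obtain ⟨C1, S1, C2, S2, hD⟩ := DFG_exists hσ hσ' hx0 hx1
    exact VVG_ineq hγ ha one_pos hx0.le hD.u1 hD.u2 hD.sp ((hD.low hx0.le f0 f1 g0' g1').mono hγ1) (by ring)
      (by field_simp) ef eg et

theorem MXG_all (hσ : 2236 / 1000 ≤ σ) (hσ' : σ ≤ 22361 / 10000) : MXG g1 σ := by
  intro a b A1 A2 t hb hba hA1 hA1' hA2 hA2' h h'
  have ha : 0 < a := by linarith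
  have hab : 0 < a * b := by positivity
  have ha2 : 0 < a ^ 2 := by positivity
  have hb2 : 0 < b ^ 2 := by positivity
  set f := A1 / a ^ 2 with hf
  set g := A2 / b ^ 2 with hg
  have ef : A1 = f * a ^ 2 := by rw [hf]; field_simp
  have eg : A2 = g * b ^ 2 := by rw [hg]; field_simp
  have f0 : 0 ≤ f := by positivity
  have g0' : 0 ≤ g := by positivity
  have f1 : f ≤ 1 := by rwa [hf, div_le_one ha2]
  have g1' : g ≤ 1 := by rwa [hg, div_le_one hb2]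
  set τ := t / (a * b) with hτ
  have et : t = τ * (a * b) := by rw [hτ]; field_simp
  have t1 : σ - (f + g) / 2 ≤ τ := by
    rw [ef, eg, et] at h
    have : (σ - (f + g) / 2) * (a * b) ^ 2 ≤ τ * (a * b) ^ 2 := by linarith
    exact le_of_mul_le_mul_right this (by positivity)
  have t2 : τ ≤ σ - (f - g) / 2 := by
    rw [ef, eg, et] at h'
    have : τ * (a * b) ^ 2 ≤ (σ - (f - g) / 2) * (a * b) ^ 2 := by linarith
    exact le_of_mul_le_mul_right this (by positivity)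
  have hx0 : 0 < b / a := by positivity
  have hx1 : b / a ≤ 1 / 2 := by
    rw [div_le_iff₀ ha]
    linarith
  obtain ⟨C1, S1, C2, S2, hD⟩ := DFG_exists hσ hσ' hx0 hx1
  exact VVmG_ineq g1_pos ha one_pos hx0.le hD.u1 hD.u2 hD.sp (hD.mid hx0.le f0 f1 g0' g1' t1 t2) (by ring)
    (by field_simp) ef eg et

end

/-- The reduced inequality with a smaller constant `σ < √5` holds with a larger constant than `g0`. -/
theorem RIG_lt (σ : ℝ) (hσ : 2236 / 1000 ≤ σ) (hσ' : σ < Real.sqrt 5) : ∃ γ : ℝ, g0 < γ ∧ RIG γ σ := by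
  have h5 := sqrt5_ub
  have hσ2 : σ ≤ 22361 / 10000 := by linarith
  have hp := gS_pos hσ'
  have hle : gS σ ≤ g1 := min_le_left _ _
  have hFA : FAG (gS σ) σ := FAG_of hp hle hσ hσ2 fun d τ d1 d2 t1 t2 => near_face hσ hσ' d1 d2 t1 t2
  have hFB : FBG (gS σ) σ := by
    intro a b A1 A2 t hb hba hA1 hA1' hA2 hA2' h
    refine FBG_at hp hle hσ hσ2 hb hba (fun h3 => ?_) hA1 hA1' hA2 hA2' h
    obtain ⟨l, d, hl, d1, d2, ea, eb⟩ := near_par (by linarith) hba h3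
    exact ⟨l, d, hl, d1, d2, ea, eb, near_NFG hσ hσ' d1 d2⟩
  have hMX : MXG (gS σ) σ := fun a b A1 A2 t h1 h2 h3 h4 h5 h6 h7 h8 =>
    (MXG_all hσ hσ2 a b A1 A2 t h1 h2 h3 h4 h5 h6 h7 h8).mono hle
  exact ⟨gS σ, g0_lt_gS hσ', t_SGG (by linarith) (t_NNG (by linarith) hFA hFB) hMX hp.le⟩

theorem MXT_all : MXT g1 := by
  have h5 := sqrt5_ub
  have h5' := sqrt5_lb
  exact MXG_all (by linarith) (by linarith)

theorem FBS_all : FBS := by
  intro a b A1 A2 t hb hba hA1 hA1' hA2 hA2' h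
  have h5 := sqrt5_ub
  have h5' := sqrt5_lb
  have ha : 0 < a := by linarith
  have hg := g0_pos
  set e := min (1 / 4 * ((a - b) / (a + b)) ^ 2) (1 / 100) with he
  have hq : 0 < (a - b) / (a + b) := div_pos (by linarith) (by linarith)
  have he0 : 0 < e := lt_min (by positivity) (by norm_num)
  set γ := min g1 (g0 * (1 + e)) with hγ
  have hγ0 : g0 < γ := lt_min g0_lt_g1 (by nlinarith [mul_pos hg he0])
  have hγ1 : γ ≤ g1 := min_le_left _ _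
  have hγ101 : γ ≤ g0 * (101 / 100) := by
    refine (min_le_right _ _).trans ?_
    have := min_le_right (1 / 4 * ((a - b) / (a + b)) ^ 2) (1 / 100)
    nlinarith
  refine ⟨γ, hγ0, FBG_at (hg.trans hγ0) hγ1 (by linarith) (by linarith) hb hba.le (fun h3 => ?_) hA1 hA1' hA2 hA2' h⟩
  have hs : 0 < a + b := by linarith
  have d1 : -(1 / 3) ≤ (a - b) / (a + b) := by linarith
  have d2 : (a - b) / (a + b) ≤ 1 / 3 := by
    rw [div_le_iff₀ hs]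
    linarith
  refine ⟨(a + b) / 2, (a - b) / (a + b), by positivity, d1, d2, ?_, ?_, ?_⟩
  · field_simp
    ring
  · field_simp
    ring
  · refine
      { v11 := VVG.mono (A_11 d1 d2) ?_
        v1h := (near_1h d1 d2 (by linarith) le_rfl).mono hγ101
        vh1 := near_swap ((near_1h (by linarith) (by linarith) (by linarith) le_rfl).mono hγ101) }
    refine (min_le_right _ _).trans ?_
    have := min_le_left (1 / 4 * ((a - b) / (a + b)) ^ 2) (1 / 100)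
    nlinarith

/-- Face B with `√5` and `g0`. -/
theorem t_FB' : FB := by
  intro a b A1 A2 t hb hba hA1 hA1' hA2 hA2' h
  have h5 := sqrt5_ub
  have h5' := sqrt5_lb
  have hg := g0_pos
  have hle : g0 ≤ g0 * (101 / 100) := by linarith
  refine FBG_at hg g0_lt_g1.le (by linarith) (by linarith) hb hba (fun h3 => ?_) hA1 hA1' hA2 hA2' h
  obtain ⟨l, d, hl, d1, d2, ea, eb⟩ := near_par (by linarith) hba h3
  refine ⟨l, d, hl, d1, d2, ea, eb, ?_⟩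
  refine
    { v11 := VVG.mono (A_11 d1 d2) ?_
      v1h := (near_1h d1 d2 (by linarith) le_rfl).mono hle
      vh1 := near_swap ((near_1h (by linarith) (by linarith) (by linarith) le_rfl).mono hle) }
  have : 0 ≤ g0 * (1 / 4 * d ^ 2) := by positivity
  linarith

/-- Face A with `√5` and `g0`. -/
theorem t_FA' : FA := by
  have h5 := sqrt5_ub
  have h5' := sqrt5_lb
  have hp : 0 < Real.sqrt 5 - 2 := by linarith
  have hg := g0_pos
  refine FAG_of hg g0_lt_g1.le (by linarith) (by linarith) fun d τ d1 d2 t1 t2 => ?_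
  have k := near_11 (τ := τ) d1 d2 (θ := (Real.sqrt 5 - 1 - τ) / (Real.sqrt 5 - 2))
    (div_nonneg (by linarith) hp.le) (by rw [div_le_one hp]; linarith) (by field_simp; ring)
  refine k.mono ?_
  have h6 : 0 ≤ (Real.sqrt 5 - 1 - τ) / (Real.sqrt 5 - 2) := div_nonneg (by linarith) hp.le
  nlinarith

/-- The reduced inequality. -/
theorem t_RI' : RI := by
  have h5 := sqrt5_ub
  have h5' := sqrt5_lb
  have hMX : MXG g0 (Real.sqrt 5) := fun a b A1 A2 t h1 h2 h3 h4 h5 h6 h7 h8 =>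
    (MXG_all (by linarith) (by linarith) a b A1 A2 t h1 h2 h3 h4 h5 h6 h7 h8).mono g0_lt_g1.le
  exact t_SGG (by linarith) (t_NNG (by linarith) t_FA' t_FB') hMX g0_pos.le

end Pool.Agent.ICE
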