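import Pool.Agent.ICE.GCore
import Pool.Agent.ICL.NN
import Pool.Agent.ICL.SG
import Pool.Agent.ICL.W2

/-!
# The reductions with general constants `γ` (for `g0`) and `σ` (for `√5`)
-/

set_option autoImplicit false

namespace Pool.Agent.ICE

open Pool.Agent.ICL

/-- W2 with `σ`. -/
def W2G (σ : ℝ) : Prop := ∀ a b A1 A2 t : ℝ, 0 < a → 0 < b → 0 ≤ A1 → A1 ≤ a ^ 2 → 0 ≤ A2 → A2 ≤ b ^ 2 → 0 ≤ t →
  t * (a * b) + (A1 * b ^ 2 + A2 * a ^ 2) / 2 ≤ σ * (a * b) ^ 2 →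
  t ≤ (σ - 1) * (Real.sqrt A1 * Real.sqrt A2) ∨
  ∃ a' b' : ℝ, 0 < a' ∧ a' ≤ a ∧ 0 < b' ∧ b' ≤ b ∧ A1 ≤ a' ^ 2 ∧ A2 ≤ b' ^ 2 ∧
    t * (a' * b') + (A1 * b' ^ 2 + A2 * a' ^ 2) / 2 = σ * (a' * b') ^ 2

/-- Face A. -/
def FAG (γ σ : ℝ) : Prop := ∀ a b t : ℝ, 0 < a → 0 ≤ b → b ≤ a → a * b ≤ t → t ≤ (σ - 1) * (a * b) →
  IneqG γ a b (a ^ 2) (b ^ 2) (a ^ 2 + b ^ 2 + t) (t - a ^ 2) (t - b ^ 2)

/-- Face B. -/
def FBG (γ σ : ℝ) : Prop := ∀ a b A1 A2 t : ℝ, 0 < b → b ≤ a → 0 ≤ A1 → A1 ≤ a ^ 2 → 0 ≤ A2 → A2 ≤ b ^ 2 →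
  t * (a * b) + (A1 * b ^ 2 + A2 * a ^ 2) / 2 = σ * (a * b) ^ 2 →
  IneqG γ a b A1 A2 (A1 + A2 + t) (t - A1) (t - A2)

/-- The mixed case. -/
def MXG (γ σ : ℝ) : Prop := ∀ a b A1 A2 t : ℝ, 0 < b → 2 * b ≤ a → 0 ≤ A1 → A1 ≤ a ^ 2 → 0 ≤ A2 → A2 ≤ b ^ 2 →
  σ * (a * b) ^ 2 ≤ t * (a * b) + (A1 * b ^ 2 + A2 * a ^ 2) / 2 →
  t * (a * b) + (A1 * b ^ 2 - A2 * a ^ 2) / 2 ≤ σ * (a * b) ^ 2 →
  IneqG γ a b A1 A2 (A1 + A2 + t) (t - A1) (t + A2)

/-- The nonnegative case. -/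
def NNCG (γ σ : ℝ) : Prop := ∀ a b A1 A2 t : ℝ, 0 ≤ a → 0 ≤ b → 0 ≤ A1 → A1 ≤ a ^ 2 → 0 ≤ A2 → A2 ≤ b ^ 2 → 0 ≤ t →
  t * (a * b) + (A1 * b ^ 2 + A2 * a ^ 2) / 2 ≤ σ * (a * b) ^ 2 → t ≤ σ * (a * b) →
  IneqG γ a b A1 A2 (A1 + A2 + t) (t - A1) (t - A2)

namespace M_W2

open Pool.Agent.ICL.M_W2

/-- The slack of the constraint. -/
noncomputable def GG (σ A1 A2 t a b : ℝ) : ℝ :=
  σ * (a * b) ^ 2 - (t * (a * b) + (A1 * b ^ 2 + A2 * a ^ 2) / 2)

theorem G_cont (σ A1 A2 t a b a0 b0 : ℝ) :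
    Continuous (fun r => GG σ A1 A2 t (seg a a0 r) (seg b b0 r)) := by
  have h1 := seg_cont a a0
  have h2 := seg_cont b b0
  unfold GG
  fun_prop

end M_W2

open Pool.Agent.ICL.M_W2 M_W2 in
theorem t_W2G {σ : ℝ} (hσ : 2 ≤ σ) : W2G σ := by
  intro a b A1 A2 t ha hb hA1 hA1a hA2 hA2b ht hcon
  by_cases hcase : t ≤ (σ - 1) * (Real.sqrt A1 * Real.sqrt A2)
  · exact Or.inl hcase
  right
  rw [not_le] at hcase
  set a0 := Real.sqrt A1 with ha0d
  set b0 := Real.sqrt A2 with hb0d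
  have ha0 : 0 ≤ a0 := Real.sqrt_nonneg _
  have hb0 : 0 ≤ b0 := Real.sqrt_nonneg _
  have ha0s : a0 ^ 2 = A1 := Real.sq_sqrt hA1
  have hb0s : b0 ^ 2 = A2 := Real.sq_sqrt hA2
  have ha0a : a0 ≤ a := by
    rw [ha0d]
    exact Real.sqrt_le_iff.2 ⟨ha.le, hA1a⟩
  have hb0b : b0 ≤ b := by
    rw [hb0d]
    exact Real.sqrt_le_iff.2 ⟨hb.le, hA2b⟩
  have h5 : 1 < σ := by linarith
  have hg0 : 0 ≤ GG σ A1 A2 t (seg a a0 0) (seg b b0 0) := by
    rw [seg_zero, seg_zero]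
    unfold GG
    linarith
  have hgc := G_cont σ A1 A2 t a b a0 b0
  have key : ∃ r : ℝ, 0 ≤ r ∧ r < 1 ∧ GG σ A1 A2 t (seg a a0 r) (seg b b0 r) ≤ 0 := by
    by_cases hp : 0 < a0 * b0
    · have hg1 : GG σ A1 A2 t (seg a a0 1) (seg b b0 1) < 0 := by
        rw [seg_one, seg_one]
        unfold GG
        rw [← ha0s, ← hb0s]
        nlinarith [mul_pos hp (sub_pos.2 hcase)]
      obtain ⟨r, ⟨hr0, hr1⟩, hr⟩ := intermediate_value_Icc' (zero_le_one' ℝ) hgc.continuousOn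
        (show (0 : ℝ) ∈ Set.Icc _ _ from ⟨hg1.le, hg0⟩)
      refine ⟨r, hr0, lt_of_le_of_ne hr1 ?_, le_of_eq hr⟩
      intro h
      subst h
      linarith
    · have hp0 : a0 * b0 = 0 := le_antisymm (not_lt.1 hp) (mul_nonneg ha0 hb0)
      have ht0 : 0 < t := by
        rw [hp0, mul_zero] at hcase
        exact hcase
      have hk : ∀ r : ℝ, 0 ≤ r → r < 1 →
          σ * (seg a a0 r * seg b b0 r) ≤ t →
          GG σ A1 A2 t (seg a a0 r) (seg b b0 r) ≤ 0 := by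
        intro r hr hr1 hle
        have h1 := seg_pos ha ha0 hr hr1
        have h2 := seg_pos hb hb0 hr hr1
        unfold GG
        nlinarith [mul_nonneg (mul_pos h1 h2).le (sub_nonneg.2 hle),
          mul_nonneg hA1 (sq_nonneg (seg b b0 r)), mul_nonneg hA2 (sq_nonneg (seg a a0 r))]
      by_cases hk0 : σ * (seg a a0 0 * seg b b0 0) ≤ t
      · exact ⟨0, le_refl _, one_pos, hk 0 (le_refl _) one_pos hk0⟩
      · rw [not_le] at hk0
        have hkc : Continuous (fun r => σ * (seg a a0 r * seg b b0 r)) := by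
          have h1 := seg_cont a a0
          have h2 := seg_cont b b0
          fun_prop
        have hk1 : σ * (seg a a0 1 * seg b b0 1) < t := by
          rw [seg_one, seg_one, hp0, mul_zero]
          exact ht0
        obtain ⟨r, ⟨hr0, hr1⟩, hr⟩ := intermediate_value_Icc' (zero_le_one' ℝ) hkc.continuousOn
          (show t ∈ Set.Icc _ _ from ⟨hk1.le, hk0.le⟩)
        have hrlt : r < 1 := by
          refine lt_of_le_of_ne hr1 ?_
          intro h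
          subst h
          simp only at hr
          linarith
        exact ⟨r, hr0, hrlt, hk r hr0 hrlt (le_of_eq hr)⟩
  obtain ⟨r1, hr10, hr11, hr1g⟩ := key
  obtain ⟨r, ⟨hr0, hr1⟩, hr⟩ := intermediate_value_Icc' hr10 hgc.continuousOn
    (show (0 : ℝ) ∈ Set.Icc _ _ from ⟨hr1g, hg0⟩)
  have hrlt : r < 1 := lt_of_le_of_lt hr1 hr11
  have hA : a0 ≤ seg a a0 r := le_seg ha0a hrlt.le
  have hB : b0 ≤ seg b b0 r := le_seg hb0b hrlt.le
  refine ⟨seg a a0 r, seg b b0 r, seg_pos ha ha0 hr0 hrlt, seg_le ha0a hr0,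
    seg_pos hb hb0 hr0 hrlt, seg_le hb0b hr0, ?_, ?_, ?_⟩
  · rw [← ha0s]
    exact pow_le_pow_left₀ ha0 hA 2
  · rw [← hb0s]
    exact pow_le_pow_left₀ hb0 hB 2
  · simp only [GG] at hr
    linarith


namespace M_NN

open Pool.Agent.ICL.M_NN (Ag_nonneg sqrt_mono_aux minkowski sqrt_factor)

theorem mono {γ a b a' b' A1 A2 M r1 r2 : ℝ} (ha0 : 0 ≤ a') (ha : a' ≤ a) (hb0 : 0 ≤ b')
    (hb : b' ≤ b) (H : IneqG γ a' b' A1 A2 M r1 r2) : IneqG γ a b A1 A2 M r1 r2 := by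
  intro p q h hp hq hh
  have h1 := H p q h hp hq hh
  have h2 : Ag a' b' A1 A2 r1 r2 p q h ≤ Ag a b A1 A2 r1 r2 p q h := by
    unfold Ag
    have e1 := sqrt_mono_aux (A := A1) hp ha0 ha
    have e2 := sqrt_mono_aux (A := A2) hq hb0 hb
    have e3 := sqrt_mono_aux (A := r1) hh ha0 ha
    have e4 := sqrt_mono_aux (A := r2) hh hb0 hb
    linarith
  have h3 := pow_le_pow_left₀ (Ag_nonneg a' b' A1 A2 r1 r2 p q h) h2 3
  linarith

theorem symm {γ a b A1 A2 M r1 r2 : ℝ} (H : IneqG γ b a A2 A1 M r2 r1) : IneqG γ a b A1 A2 M r1 r2 := by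
  intro p q h hp hq hh
  have h1 := H q p h hq hp hh
  have e1 : Ag b a A2 A1 r2 r1 q p h = Ag a b A1 A2 r1 r2 p q h := by
    unfold Ag
    ring
  have e2 : q * A2 + p * A1 + h * M = p * A1 + q * A2 + h * M := by ring
  rw [e1, e2] at h1
  exact h1

/-- both pentagons regular, `b ≤ a` -/
theorem case1 {γ σ : ℝ} (hσ : 2 ≤ σ) (hFA : FAG γ σ) {a b t : ℝ} (hb : 0 ≤ b) (hba : b ≤ a) (ht : 0 ≤ t)
    (ht2 : t ≤ (σ - 1) * (a * b)) :
    IneqG γ a b (a ^ 2) (b ^ 2) (a ^ 2 + b ^ 2 + t) (t - a ^ 2) (t - b ^ 2) := by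
  have ha : 0 ≤ a := le_trans hb hba
  rcases ha.eq_or_lt with h0 | h0
  · subst h0
    have hb0 : b = 0 := le_antisymm hba hb
    subst hb0
    have ht0 : t = 0 := by
      apply le_antisymm _ ht
      simpa using ht2
    subst ht0
    intro p q h hp hq hh
    have h1 := pow_nonneg (Ag_nonneg 0 0 (0 ^ 2) (0 ^ 2) (0 - 0 ^ 2) (0 - 0 ^ 2) p q h) 3
    have e : 27 * γ * (p * 0 ^ 2 + q * 0 ^ 2 + h * (0 ^ 2 + 0 ^ 2 + 0)) ^ 2 = 0 := by ring
    rw [e]
    linarith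
  · rcases le_or_gt (a * b) t with hab | hab
    · exact hFA a b t h0 hb hba hab ht2
    · intro p q h hp hq hh
      have h5 := hσ
      have hab0 : 0 ≤ a * b := mul_nonneg ha hb
      have hF := hFA a b (a * b) h0 hb hba le_rfl (by nlinarith) p q h hp hq hh
      set A' := Ag a b (a ^ 2) (b ^ 2) (a * b - a ^ 2) (a * b - b ^ 2) p q h with hA'
      set A := Ag a b (a ^ 2) (b ^ 2) (t - a ^ 2) (t - b ^ 2) p q h with hA
      have hAA : A' ≤ A := by
        rw [hA', hA]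
        unfold Ag
        have e1 : Real.sqrt ((a * b - a ^ 2) ^ 2 + (h * a) ^ 2) =
            a * Real.sqrt ((a - b) ^ 2 + h ^ 2) := by
          rw [← sqrt_factor ha]
          congr 1
          ring
        have e2 : Real.sqrt ((a * b - b ^ 2) ^ 2 + (h * b) ^ 2) =
            b * Real.sqrt ((a - b) ^ 2 + h ^ 2) := by
          rw [← sqrt_factor hb]
          congr 1
          ring
        have e3 : Real.sqrt (((a ^ 2 - t) + (t - b ^ 2)) ^ 2 + (h * a + h * b) ^ 2) =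
            (a + b) * Real.sqrt ((a - b) ^ 2 + h ^ 2) := by
          rw [← sqrt_factor (add_nonneg ha hb)]
          congr 1
          ring
        have e4 := minkowski (a ^ 2 - t) (h * a) (t - b ^ 2) (h * b)
        rw [e3] at e4
        have e5 : (a ^ 2 - t) ^ 2 = (t - a ^ 2) ^ 2 := by ring
        rw [e5] at e4
        rw [e1, e2]
        linarith
      have hA0 : 0 ≤ A' := Ag_nonneg _ _ _ _ _ _ _ _ _
      have hcube := pow_le_pow_left₀ hA0 hAA 3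
      rcases le_or_gt 0 γ with hg | hg
      · have hV0 : 0 ≤ p * a ^ 2 + q * b ^ 2 + h * (a ^ 2 + b ^ 2 + t) := by positivity
        have hV : p * a ^ 2 + q * b ^ 2 + h * (a ^ 2 + b ^ 2 + t) ≤
            p * a ^ 2 + q * b ^ 2 + h * (a ^ 2 + b ^ 2 + a * b) := by
          have : h * t ≤ h * (a * b) := mul_le_mul_of_nonneg_left hab.le hh
          nlinarith
        have hV2 := pow_le_pow_left₀ hV0 hV 2
        have hV3 := mul_le_mul_of_nonneg_left hV2 (by positivity : 0 ≤ 27 * γ)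
        linarith
      · have hA3 : 0 ≤ A ^ 3 := pow_nonneg (le_trans hA0 hAA) 3
        have hneg : 27 * γ * (p * a ^ 2 + q * b ^ 2 + h * (a ^ 2 + b ^ 2 + t)) ^ 2 ≤ 0 := by
          apply mul_nonpos_of_nonpos_of_nonneg _ (sq_nonneg _)
          linarith
        linarith

/-- the case `t ≤ (√5 - 1) √A1 √A2` -/
theorem case1' {γ σ : ℝ} (hσ : 2 ≤ σ) (hFA : FAG γ σ) {a b A1 A2 t : ℝ} (ha : 0 ≤ a) (hb : 0 ≤ b) (hA1 : 0 ≤ A1)
    (hA1a : A1 ≤ a ^ 2) (hA2 : 0 ≤ A2) (hA2b : A2 ≤ b ^ 2) (ht : 0 ≤ t)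
    (ht2 : t ≤ (σ - 1) * (Real.sqrt A1 * Real.sqrt A2)) :
    IneqG γ a b A1 A2 (A1 + A2 + t) (t - A1) (t - A2) := by
  have ha1 : Real.sqrt A1 ≤ a := by
    rw [← Real.sqrt_sq ha]
    exact Real.sqrt_le_sqrt hA1a
  have hb1 : Real.sqrt A2 ≤ b := by
    rw [← Real.sqrt_sq hb]
    exact Real.sqrt_le_sqrt hA2b
  have ha0 := Real.sqrt_nonneg A1
  have hb0 := Real.sqrt_nonneg A2
  have s1 : Real.sqrt A1 ^ 2 = A1 := Real.sq_sqrt hA1
  have s2 : Real.sqrt A2 ^ 2 = A2 := Real.sq_sqrt hA2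
  refine mono ha0 ha1 hb0 hb1 ?_
  rcases le_total (Real.sqrt A2) (Real.sqrt A1) with hle | hle
  · have h1 := case1 hσ hFA hb0 hle ht ht2
    rw [s1, s2] at h1
    exact h1
  · have h1 := case1 hσ hFA ha0 hle ht (by rw [mul_comm (Real.sqrt A2)]; exact ht2)
    rw [s1, s2] at h1
    have h2 := symm h1
    rw [show A2 + A1 + t = A1 + A2 + t by ring] at h2
    exact h2

end M_NN

open M_NN in
theorem t_NNG {γ σ : ℝ} (hσ : 2 ≤ σ) (hFA : FAG γ σ) (hFB : FBG γ σ) : NNCG γ σ := by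
  intro a b A1 A2 t ha hb hA1 hA1a hA2 hA2b ht hc ht5
  have hs0 : 0 ≤ (σ - 1) * (Real.sqrt A1 * Real.sqrt A2) := by
    have := hσ
    have h1 := mul_nonneg (Real.sqrt_nonneg A1) (Real.sqrt_nonneg A2)
    exact mul_nonneg (by linarith) h1
  rcases ha.eq_or_lt with h0 | h0
  · subst h0
    have ht0 : t ≤ 0 := by simpa using ht5
    exact case1' hσ hFA ha hb hA1 hA1a hA2 hA2b ht (le_trans ht0 hs0)
  rcases hb.eq_or_lt with h1 | h1
  · subst h1
    have ht0 : t ≤ 0 := by simpa using ht5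
    exact case1' hσ hFA ha hb hA1 hA1a hA2 hA2b ht (le_trans ht0 hs0)
  rcases t_W2G hσ a b A1 A2 t h0 h1 hA1 hA1a hA2 hA2b ht hc with hw | ⟨a', b', ha', haa, hb', hbb, h1', h2', he⟩
  · exact case1' hσ hFA ha hb hA1 hA1a hA2 hA2b ht hw
  · refine mono ha'.le haa hb'.le hbb ?_
    rcases le_total b' a' with hle | hle
    · exact hFB a' b' A1 A2 t hb' hle hA1 h1' hA2 h2' he
    · have h3 := hFB b' a' A2 A1 t ha' hle hA2 h2' hA1 h1' (by
        rw [mul_comm b' a']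
        linarith)
      have h4 := symm h3
      rw [show A2 + A1 + t = A1 + A2 + t by ring] at h4
      exact h4


namespace M_SG

open Pool.Agent.ICL.M_SG (ag_nonneg sqrt_mono cauchy ring_mono)

/-- The reduced inequality for given data and all `p q h`. -/
def PP (γ a b A1 A2 t : ℝ) : Prop :=
  ∀ p q h : ℝ, 27 * γ * (p * A1 + q * A2 + h * (A1 + A2 + t)) ^ 2
    ≤ 4 * Ag a b A1 A2 (t - A1) (t - A2) p q h ^ 3

theorem neg {γ a b A1 A2 t : ℝ} (H : PP γ a b (-A1) (-A2) (-t)) : PP γ a b A1 A2 t := by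
  intro p q h
  have h1 := H p q h
  have h2 : Ag a b (-A1) (-A2) (-t - -A1) (-t - -A2) p q h = Ag a b A1 A2 (t - A1) (t - A2) p q h := by
    unfold Ag
    have e1 : (-A1) ^ 2 = A1 ^ 2 := by ring
    have e2 : (-A2) ^ 2 = A2 ^ 2 := by ring
    have e3 : (-t - -A1) ^ 2 = (t - A1) ^ 2 := by ring
    have e4 : (-t - -A2) ^ 2 = (t - A2) ^ 2 := by ring
    rw [e1, e2, e3, e4]
  have h3 : (p * -A1 + q * -A2 + h * (-A1 + -A2 + -t)) ^ 2 = (p * A1 + q * A2 + h * (A1 + A2 + t)) ^ 2 := by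
    ring
  rw [h2, h3] at h1
  exact h1

theorem swap {γ a b A1 A2 t : ℝ} (H : PP γ b a A2 A1 t) : PP γ a b A1 A2 t := by
  intro p q h
  have h1 := H q p h
  have h2 : Ag b a A2 A1 (t - A2) (t - A1) q p h = Ag a b A1 A2 (t - A1) (t - A2) p q h := by
    unfold Ag
    ring
  have h3 : (q * A2 + p * A1 + h * (A2 + A1 + t)) ^ 2 = (p * A1 + q * A2 + h * (A1 + A2 + t)) ^ 2 := by
    ring
  rw [h2, h3] at h1
  exact h1

/-- The comparison with nonnegative data. -/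
theorem base {γ a b A1 A2 t X Y M R1 R2 : ℝ} (hg : 0 ≤ γ) (hX : |A1| = X) (hY : |A2| = Y)
    (hM : |A1 + A2 + t| ≤ M)
    (hR : ∀ h : ℝ, 0 ≤ h → Real.sqrt (R1 ^ 2 + (h * a) ^ 2) + Real.sqrt (R2 ^ 2 + (h * b) ^ 2) ≤
      Real.sqrt ((t - A1) ^ 2 + (h * a) ^ 2) + Real.sqrt ((t - A2) ^ 2 + (h * b) ^ 2))
    (H : IneqG γ a b X Y M R1 R2) : PP γ a b A1 A2 t := by
  intro p q h
  have h1 := H |p| |q| |h| (abs_nonneg p) (abs_nonneg q) (abs_nonneg h)
  have hV : |p * A1 + q * A2 + h * (A1 + A2 + t)| ≤ |p| * X + |q| * Y + |h| * M := by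
    calc |p * A1 + q * A2 + h * (A1 + A2 + t)| ≤ |p * A1| + |q * A2| + |h * (A1 + A2 + t)| := by
          refine (abs_add_le _ _).trans ?_
          gcongr
          exact abs_add_le _ _
      _ = |p| * X + |q| * Y + |h| * |A1 + A2 + t| := by rw [abs_mul, abs_mul, abs_mul, hX, hY]
      _ ≤ |p| * X + |q| * Y + |h| * M := by gcongr
  have hV2 : (p * A1 + q * A2 + h * (A1 + A2 + t)) ^ 2 ≤ (|p| * X + |q| * Y + |h| * M) ^ 2 := by
    rw [← sq_abs (p * A1 + q * A2 + h * (A1 + A2 + t))]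
    gcongr
  have hA : Ag a b X Y R1 R2 |p| |q| |h| ≤ Ag a b A1 A2 (t - A1) (t - A2) p q h := by
    unfold Ag
    have e1 : X ^ 2 = A1 ^ 2 := by rw [← hX, sq_abs]
    have e2 : Y ^ 2 = A2 ^ 2 := by rw [← hY, sq_abs]
    have e3 : (|p| * a) ^ 2 = (p * a) ^ 2 := by rw [mul_pow, mul_pow, sq_abs]
    have e4 : (|q| * b) ^ 2 = (q * b) ^ 2 := by rw [mul_pow, mul_pow, sq_abs]
    have e5 : (|h| * a) ^ 2 = (h * a) ^ 2 := by rw [mul_pow, mul_pow, sq_abs]
    have e6 : (|h| * b) ^ 2 = (h * b) ^ 2 := by rw [mul_pow, mul_pow, sq_abs]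
    have h7 := hR |h| (abs_nonneg h)
    rw [e5, e6] at h7
    rw [e1, e2, e3, e4, e5, e6]
    linarith
  have hA3 : Ag a b X Y R1 R2 |p| |q| |h| ^ 3 ≤ Ag a b A1 A2 (t - A1) (t - A2) p q h ^ 3 := by
    have := ag_nonneg a b X Y R1 R2 |p| |q| |h|
    gcongr
  have h8 : 27 * γ * (p * A1 + q * A2 + h * (A1 + A2 + t)) ^ 2
      ≤ 27 * γ * (|p| * X + |q| * Y + |h| * M) ^ 2 := by gcongr
  linarith

/-- The mixed signs. -/
theorem core {γ σ : ℝ} (hσ : 2 ≤ σ) (hNN : NNCG γ σ) (hMX : MXG γ σ) (hg : 0 ≤ γ) {a b A1 G t : ℝ} (ha : 0 < a) (hb : 0 < b)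
    (hA0 : 0 < A1) (hA : A1 ≤ a ^ 2) (hG0 : 0 < G) (hG : G ≤ b ^ 2) (ht : 0 ≤ t)
    (h1 : 2 * t * (a * b) + |A1 * b ^ 2 - G * a ^ 2| ≤ 2 * σ * (a * b) ^ 2)
    (h2 : t ≤ σ * (a * b)) : PP γ a b A1 (-G) t := by
  have h52 := hσ
  have h50 : 0 ≤ σ := by linarith
  have hab : 0 < a * b := mul_pos ha hb
  have hd1 : A1 * b ^ 2 - G * a ^ 2 ≤ |A1 * b ^ 2 - G * a ^ 2| := le_abs_self _
  have hAb : A1 * b ^ 2 ≤ (a * b) ^ 2 := by
    rw [mul_pow]; exact mul_le_mul_of_nonneg_right hA (sq_nonneg b)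
  have hGa : G * a ^ 2 ≤ (a * b) ^ 2 := by
    rw [mul_pow, mul_comm (a ^ 2)]; exact mul_le_mul_of_nonneg_right hG (sq_nonneg a)
  have hAb0 : 0 ≤ A1 * b ^ 2 := by positivity
  have hGa0 : 0 ≤ G * a ^ 2 := by positivity
  set t0 : ℝ := (σ * (a * b) ^ 2 - (A1 * b ^ 2 + G * a ^ 2) / 2) / (a * b) with ht0
  have e0 : t0 * (a * b) + (A1 * b ^ 2 + G * a ^ 2) / 2 = σ * (a * b) ^ 2 := by
    rw [ht0, div_mul_cancel₀ _ hab.ne']; ring
  have hlow : a * b ≤ t0 := by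
    refine le_of_mul_le_mul_right ?_ hab
    nlinarith
  have habsA : |A1| = A1 := abs_of_pos hA0
  have habsG : |-G| = G := by rw [abs_neg, abs_of_pos hG0]
  rcases le_or_gt t t0 with hc | hc
  · -- (2a)
    have H := hNN a b A1 G t ha.le hb.le hA0.le hA hG0.le hG ht (by nlinarith) h2
    refine base hg habsA habsG ?_ ?_ H
    · rw [abs_le]; constructor <;> linarith
    · intro h _
      refine add_le_add le_rfl (sqrt_mono ?_)
      rw [sub_neg_eq_add, abs_of_nonneg (by linarith : (0 : ℝ) ≤ t + G), abs_le]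
      constructor <;> linarith
  · rcases le_or_gt a (2 * b) with hab2 | hab2
    · -- (2b)
      have ht00 : 0 ≤ t0 := hab.le.trans hlow
      have H := hNN a b A1 G t0 ha.le hb.le hA0.le hA hG0.le hG ht00 e0.le (hc.le.trans h2)
      have hdiff : t - t0 ≤ 2 * G := by
        have h3 : (t - t0) * b ≤ G * a := by
          have h4 : (t - t0) * b * a ≤ G * a * a := by nlinarith
          exact le_of_mul_le_mul_right h4 ha
        have h5 : (t - t0) * b ≤ 2 * G * b := by nlinarith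
        exact le_of_mul_le_mul_right h5 hb
      refine base hg habsA habsG ?_ ?_ H
      · rw [abs_le]; constructor <;> linarith
      · intro h hh
        have hm := ring_mono (a := a) (b := b) (X := t0 - A1) (Y := t0 + G) (d := t - t0) (h := h) ha hb
          (by linarith) hh (by linarith) (by nlinarith)
        have e1 : t0 - A1 + (t - t0) = t - A1 := by ring
        have e2 : t0 + G + (t - t0) = t - -G := by ring
        rw [e1, e2] at hm
        refine le_trans (add_le_add le_rfl (sqrt_mono ?_)) hm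
        rw [abs_of_nonneg (by linarith : (0 : ℝ) ≤ t0 + G), abs_le]
        constructor <;> linarith
    · -- (2c)
      have H := hMX a b A1 G t hb hab2.le hA0.le hA hG0.le hG (by nlinarith) (by linarith)
      refine base hg habsA habsG ?_ ?_ H
      · rw [abs_le]; constructor <;> linarith
      · intro h _
        rw [sub_neg_eq_add]

end M_SG

open M_SG in
open Pool.Agent.ICL.M_SG (sqrt_mono) in
theorem t_SGG {γ σ : ℝ} (hσ : 2 ≤ σ) (hNN : NNCG γ σ) (hMX : MXG γ σ) (hg : 0 ≤ γ) : RIG γ σ := by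
  intro a b A1 A2 t ha hb hA1 hA2 h1 h2
  change PP γ a b A1 A2 t
  rcases le_or_gt 0 (A1 * A2) with hs | hs
  · -- equal signs
    have e1 : |A1 * b ^ 2 + A2 * a ^ 2| = |A1| * b ^ 2 + |A2| * a ^ 2 := by
      rcases mul_nonneg_iff.mp hs with ⟨h3, h4⟩ | ⟨h3, h4⟩
      · rw [abs_of_nonneg h3, abs_of_nonneg h4, abs_of_nonneg (by positivity)]
      · rw [abs_of_nonpos h3, abs_of_nonpos h4, abs_of_nonpos]
        · ring
        · have := mul_nonneg (neg_nonneg.mpr h3) (sq_nonneg b)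
          have := mul_nonneg (neg_nonneg.mpr h4) (sq_nonneg a)
          linarith
    rw [e1] at h1
    have H := hNN a b |A1| |A2| |t| ha hb (abs_nonneg _) hA1 (abs_nonneg _) hA2 (abs_nonneg _)
      (by linarith) h2
    refine base hg rfl rfl ?_ ?_ H
    · refine (abs_add_le _ _).trans ?_
      gcongr
      exact abs_add_le _ _
    · intro h _
      exact add_le_add (sqrt_mono (abs_abs_sub_abs_le_abs_sub t A1)) (sqrt_mono (abs_abs_sub_abs_le_abs_sub t A2))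
  · -- different signs
    have ha0 : 0 < a := by
      rcases ha.lt_or_eq with h3 | h3
      · exact h3
      · exfalso
        rw [← h3] at hA1
        have : A1 = 0 := abs_eq_zero.mp (le_antisymm (by simpa using hA1) (abs_nonneg _))
        rw [this, zero_mul] at hs
        exact lt_irrefl _ hs
    have hb0 : 0 < b := by
      rcases hb.lt_or_eq with h3 | h3
      · exact h3
      · exfalso
        rw [← h3] at hA2
        have : A2 = 0 := abs_eq_zero.mp (le_antisymm (by simpa using hA2) (abs_nonneg _))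
        rw [this, mul_zero] at hs
        exact lt_irrefl _ hs
    -- the core case for nonnegative `t`
    have main : ∀ a b A1 A2 t : ℝ, 0 < a → 0 < b → 0 ≤ t → A1 * A2 < 0 → |A1| ≤ a ^ 2 → |A2| ≤ b ^ 2 →
        2 * |t| * (a * b) + |A1 * b ^ 2 + A2 * a ^ 2| ≤ 2 * σ * (a * b) ^ 2 →
        |t| ≤ σ * (a * b) → PP γ a b A1 A2 t := by
      intro a b A1 A2 t ha hb ht hs hA1 hA2 h1 h2
      rw [abs_of_nonneg ht] at h1 h2
      rcases mul_neg_iff.mp hs with ⟨h3, h4⟩ | ⟨h3, h4⟩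
      · rw [abs_of_pos h3] at hA1
        rw [abs_of_neg h4] at hA2
        have := core hσ hNN hMX hg (G := -A2) ha hb h3 hA1 (by linarith) hA2 ht
          (by rw [neg_mul, sub_neg_eq_add]; exact h1) h2
        rwa [neg_neg] at this
      · rw [abs_of_neg h3] at hA1
        rw [abs_of_pos h4] at hA2
        refine swap ?_
        have := core hσ hNN hMX hg (a := b) (b := a) (A1 := A2) (G := -A1) hb ha h4 hA2 (by linarith) hA1 ht
          (by
            have e1 : A2 * a ^ 2 - -A1 * b ^ 2 = A1 * b ^ 2 + A2 * a ^ 2 := by ring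
            rw [e1, mul_comm b a]; exact h1)
          (by rw [mul_comm b a]; exact h2)
        rwa [neg_neg] at this
    rcases le_or_gt 0 t with ht | ht
    · exact main a b A1 A2 t ha0 hb0 ht hs hA1 hA2 h1 h2
    · refine neg (main a b (-A1) (-A2) (-t) ha0 hb0 (by linarith) (by rw [neg_mul_neg]; exact hs)
        (by rw [abs_neg]; exact hA1) (by rw [abs_neg]; exact hA2) ?_ (by rw [abs_neg]; exact h2))
      have e1 : |-A1 * b ^ 2 + -A2 * a ^ 2| = |A1 * b ^ 2 + A2 * a ^ 2| := by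
        rw [← abs_neg]; congr 1; ring
      rw [abs_neg, e1]
      exact h1


end Pool.Agent.ICE
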