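import Pool.Agent.ICE.GCore
import Pool.Agent.ICL.VA1

/-!
# Vertex checks in the region `1/2 ≤ b/a`: general lemma with a factor
-/

set_option autoImplicit false

namespace Pool.Agent.ICE

open Pool.Agent.ICL

lemma good_hatG {e0 d f g M r1 r2 : ℝ} (h1 : -(1 / 3) ≤ d) (h2 : d ≤ 1 / 3) (hf : 0 ≤ f) (hg : 0 ≤ g)
    (hM : 0 < M)
    (hz1 : (2 + 13 / 5 * ((3 - Real.sqrt 5) / 4) * d ^ 2) * (f * (1 + d))
      ≤ 838 / 1000 * ((1 + 169 / 200 * d ^ 2) * M))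
    (hz2 : (2 + 13 / 5 * ((3 - Real.sqrt 5) / 4) * d ^ 2) * (g * (1 - d))
      ≤ 838 / 1000 * ((1 + 169 / 200 * d ^ 2) * M))
    (hP : (7 * Real.sqrt 5 - 15) * e0 * ((1 + 169 / 200 * d ^ 2) * M) ^ 4
      ≤ (2 + 13 / 5 * ((3 - Real.sqrt 5) / 4) * d ^ 2) ^ 2 *
        (f * (1 + d) ^ 2 * ((29 / 10 * Real.sqrt 5 - 57 / 10) * ((1 + 169 / 200 * d ^ 2) * M) ^ 2
            + (23 / 10 * Real.sqrt 5 - 43 / 10)
              * ((2 + 13 / 5 * ((3 - Real.sqrt 5) / 4) * d ^ 2) * (f * (1 + d))) * ((1 + 169 / 200 * d ^ 2) * M)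
            - 13 / 10 * ((2 + 13 / 5 * ((3 - Real.sqrt 5) / 4) * d ^ 2) * (f * (1 + d))) ^ 2)
          + g * (1 - d) ^ 2 * ((29 / 10 * Real.sqrt 5 - 57 / 10) * ((1 + 169 / 200 * d ^ 2) * M) ^ 2
            + (23 / 10 * Real.sqrt 5 - 43 / 10)
              * ((2 + 13 / 5 * ((3 - Real.sqrt 5) / 4) * d ^ 2) * (g * (1 - d))) * ((1 + 169 / 200 * d ^ 2) * M)
            - 13 / 10 * ((2 + 13 / 5 * ((3 - Real.sqrt 5) / 4) * d ^ 2) * (g * (1 - d))) ^ 2)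
          + (1 + 169 / 200 * d ^ 2) * M ^ 2 * (r1 * ((3 - Real.sqrt 5) / 4 - 13 / 10 * d)
            + r2 * ((3 - Real.sqrt 5) / 4 + 13 / 10 * d)))) :
    GoodG (g0 * e0) (1 + d) (1 - d) (C1A d) (S1A d) (C2A d) (S2A d) (f * (1 + d) ^ 2) (g * (1 - d) ^ 2) M r1 r2 := by
  have hN := NA_pos d
  have hn := Nh_pos
  have hs := sA_pos d
  have ha : 0 < 1 + d := by linarith
  have hb : 0 < 1 - d := by linarith
  have hn2 := Nh_sq
  have hg0 := g0_Nh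
  have h5l := sqrt5_lb
  have h5u := sqrt5_ub
  have hn1 : 1 ≤ Nh := by
    rw [← pow_le_pow_iff_left₀ (by norm_num) hn.le (two_ne_zero), hn2]
    linarith
  unfold GoodG
  rw [sgA]
  unfold C1A C2A
  set s := Real.sqrt 5 with hsdef
  set N := 1 + 169 / 200 * d ^ 2 with hNdef
  set σ := 2 + 13 / 5 * ((3 - s) / 4) * d ^ 2 with hσ
  set C := (3 - s) / 4 with hC
  have hNM : 0 < N * M := mul_pos hN hM
  have key : ∀ c e : ℝ, 0 < e → 0 ≤ c → σ * (c * e) ≤ 838 / 1000 * (N * M) →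
      σ / (N * Nh) * (c * e ^ 2) ≤ e * M ∧
      c * e ^ 2 * ((29 / 10 * s - 57 / 10) * (N * M) ^ 2 + (23 / 10 * s - 43 / 10) * (σ * (c * e)) * (N * M)
        - 13 / 10 * (σ * (c * e)) ^ 2)
      ≤ Nh * (N * M) ^ 2 * (c * e ^ 2 * Real.sqrt (1 - (σ / (N * Nh) * (c * e ^ 2) / (e * M)) ^ 2)) := by
    intro c e he hc hz
    have hce : 0 ≤ σ * (c * e) := by positivity
    constructor
    · rw [div_mul_eq_mul_div, div_le_iff₀ (by positivity)]
      have h3 : σ * (c * e) ≤ N * M := hz.trans (by linarith)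
      have h4 : N * M ≤ N * M * Nh := le_mul_of_one_le_right hNM.le hn1
      have h6 := mul_le_mul_of_nonneg_left (h3.trans h4) he.le
      exact le_of_eq_of_le (by ring) (h6.trans_eq (by ring))
    · set z := σ * (c * e) / (N * M) with hzdef
      have hz0 : 0 ≤ z := by positivity
      have hz1 : z ≤ 838 / 1000 := by
        rw [hzdef, div_le_iff₀ hNM]
        exact hz
      have hq := q_le hz0 hz1
      rw [← hsdef] at hq
      have e1 : σ / (N * Nh) * (c * e ^ 2) / (e * M) = z / Nh := by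
        rw [hzdef]
        field_simp
      have e2 : Nh * Real.sqrt (1 - (z / Nh) ^ 2) = Real.sqrt ((15 - 3 * s) / 8 - z ^ 2) := by
        rw [← hn2]
        have : Nh ^ 2 - z ^ 2 = Nh ^ 2 * (1 - (z / Nh) ^ 2) := by field_simp
        rw [this, Real.sqrt_mul (by positivity), Real.sqrt_sq hn.le]
      have e3 : σ * (c * e) = z * (N * M) := by
        rw [hzdef]
        field_simp
      rw [e1, e3]
      have h7 : 0 ≤ (N * M) ^ 2 * (c * e ^ 2) := by positivity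
      have h8 := mul_le_mul_of_nonneg_left hq h7
      rw [← e2] at h8
      exact le_of_eq_of_le (by ring) (h8.trans_eq (by ring))
  obtain ⟨k1, k2⟩ := key f (1 + d) ha hf hz1
  obtain ⟨k3, k4⟩ := key g (1 - d) hb hg hz2
  refine ⟨by positivity, by positivity, hM, k1, k3, ?_⟩
  set E1 := f * (1 + d) ^ 2 * Real.sqrt (1 - (σ / (N * Nh) * (f * (1 + d) ^ 2) / ((1 + d) * M)) ^ 2) with hE1
  set E2 := g * (1 - d) ^ 2 * Real.sqrt (1 - (σ / (N * Nh) * (g * (1 - d) ^ 2) / ((1 - d) * M)) ^ 2) with hE2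
  have hfin : (7 * s - 15) * e0 * (N * M) ^ 4 ≤ σ ^ 2 * (Nh * (N * M) ^ 2 * E1 + Nh * (N * M) ^ 2 * E2
      + N * M ^ 2 * (r1 * (C - 13 / 10 * d) + r2 * (C + 13 / 10 * d))) := by
    refine hP.trans (mul_le_mul_of_nonneg_left ?_ (by positivity))
    linarith
  have e5 : (σ / (N * Nh)) ^ 2 * (E1 + E2 + r1 * ((C - 13 / 10 * d) / (N * Nh)) + r2 * ((C + 13 / 10 * d) / (N * Nh)))
      = σ ^ 2 * (Nh * (N * M) ^ 2 * E1 + Nh * (N * M) ^ 2 * E2
      + N * M ^ 2 * (r1 * (C - 13 / 10 * d) + r2 * (C + 13 / 10 * d))) / (Nh ^ 3 * N ^ 4 * M ^ 2) := by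
    field_simp
    ring
  rw [e5, le_div_iff₀ (by positivity)]
  calc g0 * e0 * M ^ 2 * (Nh ^ 3 * N ^ 4 * M ^ 2) = (g0 * Nh ^ 3) * e0 * (N * M) ^ 4 := by ring
    _ = (7 * s - 15) * e0 * (N * M) ^ 4 := by rw [hg0]
    _ ≤ _ := hfin

end Pool.Agent.ICE
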