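import Pool.Agent.ICE.GCore

/-!
# Vertex checks with the constant `6184 / 10000`
-/

set_option autoImplicit false

namespace Pool.Agent.ICE

open Pool.Agent.ICL

/-- A vertex of the region, `a = 1`, `b = x`. -/
def VtG (C1 S1 C2 S2 f g t x : ℝ) : Prop :=
  GoodG (6184 / 10000) 1 x C1 S1 C2 S2 f (g * x ^ 2) (f + g * x ^ 2 + t * x) (t * x - f) (t * x - g * x ^ 2)

/-- A vertex of the region in the mixed case, `a = 1`, `b = x`. -/
def VmG (C1 S1 C2 S2 f g t x : ℝ) : Prop :=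
  GoodG (6184 / 10000) 1 x C1 S1 C2 S2 f (g * x ^ 2) (f + g * x ^ 2 + t * x) (t * x - f) (t * x + g * x ^ 2)

lemma good_ofG {C1 S1 C2 S2 f g x σ M r1 r2 α1 β1 α2 β2 : ℝ} (hσ : 1 * S1 + x * S2 = σ)
    (hσ0 : 0 < σ) (hM0 : 0 < M) (hx : 0 ≤ x) (hf : 0 ≤ f) (hg : 0 ≤ g) (hd1 : σ * f ≤ M)
    (hd2 : σ * g * x ≤ M)
    (h1 : f * (α1 * M ^ 2 - β1 * (σ * f) ^ 2) ≤ f * (Real.sqrt (1 - (σ * f / M) ^ 2) * M ^ 2))
    (h2 : g * (α2 * M ^ 2 - β2 * (σ * g * x) ^ 2)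
      ≤ g * (Real.sqrt (1 - (σ * g * x / M) ^ 2) * M ^ 2))
    (hP : 0 ≤ σ ^ 2 * (f * (α1 * M ^ 2 - β1 * (σ * f) ^ 2)
      + x ^ 2 * (g * (α2 * M ^ 2 - β2 * (σ * g * x) ^ 2)) + M ^ 2 * (r1 * C1 + r2 * C2))
        - 6184 / 10000 * M ^ 4) :
    GoodG (6184 / 10000) 1 x C1 S1 C2 S2 f (g * x ^ 2) M r1 r2 := by
  unfold GoodG
  rw [hσ]
  refine ⟨hf, by positivity, hM0, by linarith, ?_, ?_⟩
  · nlinarith
  · have e2 : σ * (g * x ^ 2) / (x * M) = σ * g * x / M := by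
      rcases eq_or_lt_of_le hx with h | h
      · rw [← h]; simp
      · field_simp
    rw [e2, one_mul]
    have hM2 : 0 < M ^ 2 := by positivity
    have hσ2 : 0 < σ ^ 2 := by positivity
    have k : 6184 / 10000 * M ^ 2 * M ^ 2 ≤ σ ^ 2 * (f * Real.sqrt (1 - (σ * f / M) ^ 2)
        + g * x ^ 2 * Real.sqrt (1 - (σ * g * x / M) ^ 2) + r1 * C1 + r2 * C2) * M ^ 2 := by
      have a1 : (6184 / 10000 : ℝ) * M ^ 2 * M ^ 2 ≤ 6184 / 10000 * M ^ 4 := by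
        rw [mul_assoc, ← pow_add]
      have a2 := mul_le_mul_of_nonneg_left h2 (sq_nonneg x)
      have a3 := mul_le_mul_of_nonneg_left (add_le_add h1 a2) hσ2.le
      nlinarith
    exact le_of_mul_le_mul_right k hM2


end Pool.Agent.ICE
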