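import Pool.Agent.ICE.StmtsP

/-!
# ICE_L10E: equality in the isoperimetric inequality for decagons forces central symmetry
-/

set_option autoImplicit false

namespace Pool.Agent.ICE

open Pool.Agent.ICL

namespace M_L10E

/-- The first family of squares. -/
noncomputable def SA (s e0 e1 e2 e3 e4 : ℝ) : ℝ :=
  (e1 + e4 + (1 + s) / 2 * e0 - (2 + (1 + s) / 2) * ((e0 + e1 + e2 + e3 + e4) / 5)) ^ 2 + (e2 + e0 + (1 + s) / 2 * e1 - (2 + (1 + s) / 2) * ((e0 + e1 + e2 + e3 + e4) / 5)) ^ 2 + (e3 + e1 + (1 + s) / 2 * e2 - (2 + (1 + s) / 2) * ((e0 + e1 + e2 + e3 + e4) / 5)) ^ 2 + (e4 + e2 + (1 + s) / 2 * e3 - (2 + (1 + s) / 2) * ((e0 + e1 + e2 + e3 + e4) / 5)) ^ 2 + (e0 + e3 + (1 + s) / 2 * e4 - (2 + (1 + s) / 2) * ((e0 + e1 + e2 + e3 + e4) / 5)) ^ 2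

/-- The second family of squares. -/
noncomputable def SB (s e0 e1 e2 e3 e4 : ℝ) : ℝ :=
  (e1 + e4 - (s - 1) / 2 * e0 - (2 - (s - 1) / 2) * ((e0 + e1 + e2 + e3 + e4) / 5)) ^ 2 + (e2 + e0 - (s - 1) / 2 * e1 - (2 - (s - 1) / 2) * ((e0 + e1 + e2 + e3 + e4) / 5)) ^ 2 + (e3 + e1 - (s - 1) / 2 * e2 - (2 - (s - 1) / 2) * ((e0 + e1 + e2 + e3 + e4) / 5)) ^ 2 + (e4 + e2 - (s - 1) / 2 * e3 - (2 - (s - 1) / 2) * ((e0 + e1 + e2 + e3 + e4) / 5)) ^ 2 + (e0 + e3 - (s - 1) / 2 * e4 - (2 - (s - 1) / 2) * ((e0 + e1 + e2 + e3 + e4) / 5)) ^ 2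

/-- The remainder. -/
noncomputable def RR (s e0 e1 e2 e3 e4 : ℝ) : ℝ :=
  (2 / 5 - 2 * s / 25) * SA s e0 e1 e2 e3 e4 + (8 * s / 25) * SB s e0 e1 e2 e3 e4

lemma RR_nonneg (s e0 e1 e2 e3 e4 : ℝ) (h0 : 0 ≤ s) (h1 : s ≤ 5) : 0 ≤ RR s e0 e1 e2 e3 e4 := by
  unfold RR
  apply add_nonneg
  · apply mul_nonneg
    · linarith
    · unfold SA
      positivity
  · apply mul_nonneg
    · linarith
    · unfold SB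
      positivity

lemma sq5 (a b c d e : ℝ) (h : a ^ 2 + b ^ 2 + c ^ 2 + d ^ 2 + e ^ 2 ≤ 0) :
    a = 0 ∧ b = 0 ∧ c = 0 ∧ d = 0 ∧ e = 0 := by
  refine ⟨?_, ?_, ?_, ?_, ?_⟩ <;> nlinarith [sq_nonneg a, sq_nonneg b, sq_nonneg c, sq_nonneg d, sq_nonneg e]

lemma RR_zero (s e0 e1 e2 e3 e4 : ℝ) (h0 : 1 ≤ s) (h1 : s < 5) (h : RR s e0 e1 e2 e3 e4 ≤ 0) :
    e1 = e0 ∧ e2 = e0 ∧ e3 = e0 ∧ e4 = e0 := by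
  have hA : 0 ≤ SA s e0 e1 e2 e3 e4 := by
    unfold SA
    positivity
  have hB : 0 ≤ SB s e0 e1 e2 e3 e4 := by
    unfold SB
    positivity
  have hw1 : 0 < 2 / 5 - 2 * s / 25 := by linarith
  have hw2 : 0 < 8 * s / 25 := by linarith
  unfold RR at h
  have hA0 : SA s e0 e1 e2 e3 e4 ≤ 0 := by
    by_contra hc
    push Not at hc
    have := mul_pos hw1 hc
    have := mul_nonneg hw2.le hB
    linarith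
  have hB0 : SB s e0 e1 e2 e3 e4 ≤ 0 := by
    by_contra hc
    push Not at hc
    have := mul_pos hw2 hc
    have := mul_nonneg hw1.le hA
    linarith
  unfold SA at hA0
  unfold SB at hB0
  obtain ⟨a0, a1, a2, a3, a4⟩ := sq5 _ _ _ _ _ hA0
  obtain ⟨b0, b1, b2, b3, b4⟩ := sq5 _ _ _ _ _ hB0
  have hs : s ≠ 0 := by linarith
  have c0 : s * (e0 - (e0 + e1 + e2 + e3 + e4) / 5) = 0 := by linear_combination a0 - b0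
  have c1 : s * (e1 - (e0 + e1 + e2 + e3 + e4) / 5) = 0 := by linear_combination a1 - b1
  have c2 : s * (e2 - (e0 + e1 + e2 + e3 + e4) / 5) = 0 := by linear_combination a2 - b2
  have c3 : s * (e3 - (e0 + e1 + e2 + e3 + e4) / 5) = 0 := by linear_combination a3 - b3
  have c4 : s * (e4 - (e0 + e1 + e2 + e3 + e4) / 5) = 0 := by linear_combination a4 - b4
  have d0 := (mul_eq_zero.mp c0).resolve_left hs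
  have d1 := (mul_eq_zero.mp c1).resolve_left hs
  have d2 := (mul_eq_zero.mp c2).resolve_left hs
  have d3 := (mul_eq_zero.mp c3).resolve_left hs
  have d4 := (mul_eq_zero.mp c4).resolve_left hs
  refine ⟨?_, ?_, ?_, ?_⟩ <;> linarith

lemma W5e (s e0 e1 e2 e3 e4 : ℝ) (hs : s ^ 2 = 5) :
    (1 - 2 * s / 5) * ((e0 + e1 - 2 * ((e0 + e1 + e2 + e3 + e4) / 5)) ^ 2 + (e1 + e2 - 2 * ((e0 + e1 + e2 + e3 + e4) / 5)) ^ 2 + (e2 + e3 - 2 * ((e0 + e1 + e2 + e3 + e4) / 5)) ^ 2 + (e3 + e4 - 2 * ((e0 + e1 + e2 + e3 + e4) / 5)) ^ 2 + (e4 + e0 - 2 * ((e0 + e1 + e2 + e3 + e4) / 5)) ^ 2)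
      + RR s e0 e1 e2 e3 e4 = (e1 - e0) ^ 2 + (e2 - e1) ^ 2 + (e3 - e2) ^ 2 + (e4 - e3) ^ 2 + (e0 - e4) ^ 2 := by
  have key : ((e1 - e0) ^ 2 + (e2 - e1) ^ 2 + (e3 - e2) ^ 2 + (e4 - e3) ^ 2 + (e0 - e4) ^ 2)
      - ((1 - 2 * s / 5) * ((e0 + e1 - 2 * ((e0 + e1 + e2 + e3 + e4) / 5)) ^ 2 + (e1 + e2 - 2 * ((e0 + e1 + e2 + e3 + e4) / 5)) ^ 2 + (e2 + e3 - 2 * ((e0 + e1 + e2 + e3 + e4) / 5)) ^ 2 + (e3 + e4 - 2 * ((e0 + e1 + e2 + e3 + e4) / 5)) ^ 2 + (e4 + e0 - 2 * ((e0 + e1 + e2 + e3 + e4) / 5)) ^ 2))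
      = (2 / 5 - 2 * s / 25) * ((e1 + e4 + (1 + s) / 2 * e0 - (2 + (1 + s) / 2) * ((e0 + e1 + e2 + e3 + e4) / 5)) ^ 2 + (e2 + e0 + (1 + s) / 2 * e1 - (2 + (1 + s) / 2) * ((e0 + e1 + e2 + e3 + e4) / 5)) ^ 2 + (e3 + e1 + (1 + s) / 2 * e2 - (2 + (1 + s) / 2) * ((e0 + e1 + e2 + e3 + e4) / 5)) ^ 2 + (e4 + e2 + (1 + s) / 2 * e3 - (2 + (1 + s) / 2) * ((e0 + e1 + e2 + e3 + e4) / 5)) ^ 2 + (e0 + e3 + (1 + s) / 2 * e4 - (2 + (1 + s) / 2) * ((e0 + e1 + e2 + e3 + e4) / 5)) ^ 2)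
        + (8 * s / 25) * ((e1 + e4 - (s - 1) / 2 * e0 - (2 - (s - 1) / 2) * ((e0 + e1 + e2 + e3 + e4) / 5)) ^ 2 + (e2 + e0 - (s - 1) / 2 * e1 - (2 - (s - 1) / 2) * ((e0 + e1 + e2 + e3 + e4) / 5)) ^ 2 + (e3 + e1 - (s - 1) / 2 * e2 - (2 - (s - 1) / 2) * ((e0 + e1 + e2 + e3 + e4) / 5)) ^ 2 + (e4 + e2 - (s - 1) / 2 * e3 - (2 - (s - 1) / 2) * ((e0 + e1 + e2 + e3 + e4) / 5)) ^ 2 + (e0 + e3 - (s - 1) / 2 * e4 - (2 - (s - 1) / 2) * ((e0 + e1 + e2 + e3 + e4) / 5)) ^ 2) := by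
    linear_combination ((11/25) * e0 * e1 + (3/125) * e0 * e1 * s + (-9/25) * e0 * e2 + (3/125) * e0 * e2 * s + (-9/25) * e0 * e3 + (3/125) * e0 * e3 * s + (11/25) * e0 * e4 + (3/125) * e0 * e4 * s + (-2/25) * e0 ^ 2 + (-6/125) * e0 ^ 2 * s + (11/25) * e1 * e2 + (3/125) * e1 * e2 * s + (-9/25) * e1 * e3 + (3/125) * e1 * e3 * s + (-9/25) * e1 * e4 + (3/125) * e1 * e4 * s + (-2/25) * e1 ^ 2 + (-6/125) * e1 ^ 2 * s + (11/25) * e2 * e3 + (3/125) * e2 * e3 * s + (-9/25) * e2 * e4 + (3/125) * e2 * e4 * s + (-2/25) * e2 ^ 2 + (-6/125) * e2 ^ 2 * s + (11/25) * e3 * e4 + (3/125) * e3 * e4 * s + (-2/25) * e3 ^ 2 + (-6/125) * e3 ^ 2 * s + (-2/25) * e4 ^ 2 + (-6/125) * e4 ^ 2 * s) * hs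
  unfold RR SA SB
  linarith

lemma W5p (s e0 e1 e2 e3 e4 : ℝ) (hs : s ^ 2 = 5) (h1 : 1 ≤ s) :
    (1 - 2 * s / 5) * ((e1 - e0) ^ 2 + (e2 - e1) ^ 2 + (e3 - e2) ^ 2 + (e4 - e3) ^ 2 + (e0 - e4) ^ 2)
      ≤ (e0 + e1) ^ 2 + (e1 + e2) ^ 2 + (e2 + e3) ^ 2 + (e3 + e4) ^ 2 + (e4 + e0) ^ 2 := by
  have key : ((e0 + e1) ^ 2 + (e1 + e2) ^ 2 + (e2 + e3) ^ 2 + (e3 + e4) ^ 2 + (e4 + e0) ^ 2)
      - (1 - 2 * s / 5) * ((e1 - e0) ^ 2 + (e2 - e1) ^ 2 + (e3 - e2) ^ 2 + (e4 - e3) ^ 2 + (e0 - e4) ^ 2)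
      = (2 * (s - 1) / 5) * ((e1 + e4 + (1 + s) / 2 * e0 - (2 + (1 + s) / 2) * ((e0 + e1 + e2 + e3 + e4) / 5)) ^ 2 + (e2 + e0 + (1 + s) / 2 * e1 - (2 + (1 + s) / 2) * ((e0 + e1 + e2 + e3 + e4) / 5)) ^ 2 + (e3 + e1 + (1 + s) / 2 * e2 - (2 + (1 + s) / 2) * ((e0 + e1 + e2 + e3 + e4) / 5)) ^ 2 + (e4 + e2 + (1 + s) / 2 * e3 - (2 + (1 + s) / 2) * ((e0 + e1 + e2 + e3 + e4) / 5)) ^ 2 + (e0 + e3 + (1 + s) / 2 * e4 - (2 + (1 + s) / 2) * ((e0 + e1 + e2 + e3 + e4) / 5)) ^ 2)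
        + 20 * ((e0 + e1 + e2 + e3 + e4) / 5) ^ 2 := by
    linear_combination ((-11/25) * e0 * e1 + (1/25) * e0 * e1 * s + (9/25) * e0 * e2 + (1/25) * e0 * e2 * s + (9/25) * e0 * e3 + (1/25) * e0 * e3 * s + (-11/25) * e0 * e4 + (1/25) * e0 * e4 * s + (2/25) * e0 ^ 2 + (-2/25) * e0 ^ 2 * s + (-11/25) * e1 * e2 + (1/25) * e1 * e2 * s + (9/25) * e1 * e3 + (1/25) * e1 * e3 * s + (9/25) * e1 * e4 + (1/25) * e1 * e4 * s + (2/25) * e1 ^ 2 + (-2/25) * e1 ^ 2 * s + (-11/25) * e2 * e3 + (1/25) * e2 * e3 * s + (9/25) * e2 * e4 + (1/25) * e2 * e4 * s + (2/25) * e2 ^ 2 + (-2/25) * e2 ^ 2 * s + (-11/25) * e3 * e4 + (1/25) * e3 * e4 * s + (2/25) * e3 ^ 2 + (-2/25) * e3 ^ 2 * s + (2/25) * e4 ^ 2 + (-2/25) * e4 ^ 2 * s) * hs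
  have hA : 0 ≤ (2 * (s - 1) / 5) * ((e1 + e4 + (1 + s) / 2 * e0 - (2 + (1 + s) / 2) * ((e0 + e1 + e2 + e3 + e4) / 5)) ^ 2 + (e2 + e0 + (1 + s) / 2 * e1 - (2 + (1 + s) / 2) * ((e0 + e1 + e2 + e3 + e4) / 5)) ^ 2 + (e3 + e1 + (1 + s) / 2 * e2 - (2 + (1 + s) / 2) * ((e0 + e1 + e2 + e3 + e4) / 5)) ^ 2 + (e4 + e2 + (1 + s) / 2 * e3 - (2 + (1 + s) / 2) * ((e0 + e1 + e2 + e3 + e4) / 5)) ^ 2 + (e0 + e3 + (1 + s) / 2 * e4 - (2 + (1 + s) / 2) * ((e0 + e1 + e2 + e3 + e4) / 5)) ^ 2) := by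
    apply mul_nonneg
    · linarith
    · positivity
  have hB : 0 ≤ 20 * ((e0 + e1 + e2 + e3 + e4) / 5) ^ 2 := by
    positivity
  linarith

lemma W10 (s x0 x1 x2 x3 x4 x5 x6 x7 x8 x9 : ℝ) (hs : s ^ 2 = 5) (h1 : 1 ≤ s) :
    (1 - 2 * s / 5) * ((x0 + x1 - 2 * ((x0 + x1 + x2 + x3 + x4 + x5 + x6 + x7 + x8 + x9) / 10)) ^ 2 + (x1 + x2 - 2 * ((x0 + x1 + x2 + x3 + x4 + x5 + x6 + x7 + x8 + x9) / 10)) ^ 2 + (x2 + x3 - 2 * ((x0 + x1 + x2 + x3 + x4 + x5 + x6 + x7 + x8 + x9) / 10)) ^ 2 + (x3 + x4 - 2 * ((x0 + x1 + x2 + x3 + x4 + x5 + x6 + x7 + x8 + x9) / 10)) ^ 2 + (x4 + x5 - 2 * ((x0 + x1 + x2 + x3 + x4 + x5 + x6 + x7 + x8 + x9) / 10)) ^ 2 + (x5 + x6 - 2 * ((x0 + x1 + x2 + x3 + x4 + x5 + x6 + x7 + x8 + x9) / 10)) ^ 2 + (x6 + x7 - 2 * ((x0 + x1 + x2 + x3 + x4 + x5 + x6 + x7 + x8 + x9) / 10))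 ^ 2 + (x7 + x8 - 2 * ((x0 + x1 + x2 + x3 + x4 + x5 + x6 + x7 + x8 + x9) / 10)) ^ 2 + (x8 + x9 - 2 * ((x0 + x1 + x2 + x3 + x4 + x5 + x6 + x7 + x8 + x9) / 10)) ^ 2 + (x9 + x0 - 2 * ((x0 + x1 + x2 + x3 + x4 + x5 + x6 + x7 + x8 + x9) / 10)) ^ 2)
      + 2 * RR s ((x0 + x5) / 2) ((x1 + x6) / 2) ((x2 + x7) / 2) ((x3 + x8) / 2) ((x4 + x9) / 2) ≤ (x1 - x0) ^ 2 + (x2 - x1) ^ 2 + (x3 - x2) ^ 2 + (x4 - x3) ^ 2 + (x5 - x4) ^ 2 + (x6 - x5) ^ 2 + (x7 - x6) ^ 2 + (x8 - x7) ^ 2 + (x9 - x8) ^ 2 + (x0 - x9) ^ 2 := by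
  have he := W5e s ((x0 + x5) / 2) ((x1 + x6) / 2) ((x2 + x7) / 2) ((x3 + x8) / 2) ((x4 + x9) / 2) hs
  have hp := W5p s ((x0 - x5) / 2) (-((x1 - x6) / 2)) ((x2 - x7) / 2) (-((x3 - x8) / 2)) ((x4 - x9) / 2) hs h1
  generalize RR s ((x0 + x5) / 2) ((x1 + x6) / 2) ((x2 + x7) / 2) ((x3 + x8) / 2) ((x4 + x9) / 2) = r at he ⊢
  linarith

lemma iso10 (s T x0 x1 x2 x3 x4 x5 x6 x7 x8 x9 y0 y1 y2 y3 y4 y5 y6 y7 y8 y9 : ℝ)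
    (hs : s ^ 2 = 5) (h1 : 1 ≤ s) (hT : T ^ 2 = 1 - 2 * s / 5) :
    4 * T * (1 / 2 * ((x0 * y1 - x1 * y0) + (x1 * y2 - x2 * y1) + (x2 * y3 - x3 * y2) + (x3 * y4 - x4 * y3) + (x4 * y5 - x5 * y4) + (x5 * y6 - x6 * y5) + (x6 * y7 - x7 * y6) + (x7 * y8 - x8 * y7) + (x8 * y9 - x9 * y8) + (x9 * y0 - x0 * y9)))
      + RR s ((x0 + x5) / 2) ((x1 + x6) / 2) ((x2 + x7) / 2) ((x3 + x8) / 2) ((x4 + x9) / 2) + RR s ((y0 + y5) / 2) ((y1 + y6) / 2) ((y2 + y7) / 2) ((y3 + y8) / 2) ((y4 + y9) / 2)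
      ≤ ((x1 - x0) ^ 2 + (y1 - y0) ^ 2) + ((x2 - x1) ^ 2 + (y2 - y1) ^ 2) + ((x3 - x2) ^ 2 + (y3 - y2) ^ 2) + ((x4 - x3) ^ 2 + (y4 - y3) ^ 2) + ((x5 - x4) ^ 2 + (y5 - y4) ^ 2) + ((x6 - x5) ^ 2 + (y6 - y5) ^ 2) + ((x7 - x6) ^ 2 + (y7 - y6) ^ 2) + ((x8 - x7) ^ 2 + (y8 - y7) ^ 2) + ((x9 - x8) ^ 2 + (y9 - y8) ^ 2) + ((x0 - x9) ^ 2 + (y0 - y9) ^ 2) := by
  have hx := W10 s x0 x1 x2 x3 x4 x5 x6 x7 x8 x9 hs h1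
  have hy := W10 s y0 y1 y2 y3 y4 y5 y6 y7 y8 y9 hs h1
  generalize RR s ((x0 + x5) / 2) ((x1 + x6) / 2) ((x2 + x7) / 2) ((x3 + x8) / 2) ((x4 + x9) / 2) = r at hx ⊢
  generalize RR s ((y0 + y5) / 2) ((y1 + y6) / 2) ((y2 + y7) / 2) ((y3 + y8) / 2) ((y4 + y9) / 2) = r' at hy ⊢
  rw [← hT] at hx hy
  have hsq : 0 ≤ (((x1 - x0) + T * (y0 + y1 - 2 * ((y0 + y1 + y2 + y3 + y4 + y5 + y6 + y7 + y8 + y9) / 10))) ^ 2 + ((y1 - y0) - T * (x0 + x1 - 2 * ((x0 + x1 + x2 + x3 + x4 + x5 + x6 + x7 + x8 + x9) / 10))) ^ 2) + (((x2 - x1) + T * (y1 + y2 - 2 * ((y0 + y1 + y2 + y3 + y4 + y5 + y6 + y7 + y8 + y9) / 10))) ^ 2 + ((y2 - y1) - T * (x1 + x2 - 2 * ((x0 + x1 + x2 + x3 + x4 + x5 + x6 + x7 + x8 + x9) / 10))) ^ 2) + (((x3 - x2) + T * (y2 + y3 - 2 * ((y0 + y1 + y2 + y3 + y4 + y5 + y6 + y7 + y8 + y9) /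 10))) ^ 2 + ((y3 - y2) - T * (x2 + x3 - 2 * ((x0 + x1 + x2 + x3 + x4 + x5 + x6 + x7 + x8 + x9) / 10))) ^ 2) + (((x4 - x3) + T * (y3 + y4 - 2 * ((y0 + y1 + y2 + y3 + y4 + y5 + y6 + y7 + y8 + y9) / 10))) ^ 2 + ((y4 - y3) - T * (x3 + x4 - 2 * ((x0 + x1 + x2 + x3 + x4 + x5 + x6 + x7 + x8 + x9) / 10))) ^ 2) + (((x5 - x4) + T * (y4 + y5 - 2 * ((y0 + y1 + y2 + y3 + y4 + y5 + y6 + y7 + y8 + y9) / 10))) ^ 2 + ((y5 - y4) - T * (x4 + x5 - 2 * ((x0 + x1 + x2 + x3 + x4 + x5 + x6 + x7 + x8 + x9) / 10))) ^ 2) + (((x6 - x5) + T * (y5 + y6 - 2 * ((y0 + y1 + y2 + y3 + y4 + y5 + y6 + y7 + y8 + y9) / 10))) ^ 2 + ((y6 - y5) - T * (x5 + x6 - 2 * ((x0 + x1 + x2 + x3 + x4 + x5 + x6 + x7 + x8 + x9) / 10))) ^ 2) + (((x7 - x6) + T * (y6 + y7 - 2 * ((y0 + y1 + y2 + y3 + y4 + y5 + y6 + y7 + y8 + y9) / 10))) ^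 2 + ((y7 - y6) - T * (x6 + x7 - 2 * ((x0 + x1 + x2 + x3 + x4 + x5 + x6 + x7 + x8 + x9) / 10))) ^ 2) + (((x8 - x7) + T * (y7 + y8 - 2 * ((y0 + y1 + y2 + y3 + y4 + y5 + y6 + y7 + y8 + y9) / 10))) ^ 2 + ((y8 - y7) - T * (x7 + x8 - 2 * ((x0 + x1 + x2 + x3 + x4 + x5 + x6 + x7 + x8 + x9) / 10))) ^ 2) + (((x9 - x8) + T * (y8 + y9 - 2 * ((y0 + y1 + y2 + y3 + y4 + y5 + y6 + y7 + y8 + y9) / 10))) ^ 2 + ((y9 - y8) - T * (x8 + x9 - 2 * ((x0 + x1 + x2 + x3 + x4 + x5 + x6 + x7 + x8 + x9) / 10))) ^ 2) + (((x0 - x9) + T * (y9 + y0 - 2 * ((y0 + y1 + y2 + y3 + y4 + y5 + y6 + y7 + y8 + y9) / 10))) ^ 2 + ((y0 - y9) - T * (x9 + x0 - 2 * ((x0 + x1 + x2 + x3 + x4 + x5 + x6 + x7 + x8 + x9) / 10))) ^ 2) := by positivity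
  linarith

lemma sum10 (f : Fin 10 → ℝ) :
    ∑ k, f k = f 0 + f 1 + f 2 + f 3 + f 4 + f 5 + f 6 + f 7 + f 8 + f 9 := by
  rw [Fin.sum_univ_castSucc, Fin.sum_univ_castSucc, Fin.sum_univ_eight]
  rfl

lemma hT2 : (sn / (1 + cs)) ^ 2 = 1 - 2 * Real.sqrt 5 / 5 := by
  have h5 : Real.sqrt 5 ^ 2 = 5 := Real.sq_sqrt (by norm_num)
  have h50 : 0 ≤ Real.sqrt 5 := Real.sqrt_nonneg 5
  have hlt : Real.sqrt 5 < 3 := by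
    rw [show (3 : ℝ) = Real.sqrt 9 by rw [show (9 : ℝ) = 3 ^ 2 by norm_num, Real.sqrt_sq (by norm_num)]]
    exact Real.sqrt_lt_sqrt (by norm_num) (by norm_num)
  have hsn : sn ^ 2 = (5 - Real.sqrt 5) / 8 := by
    unfold sn
    exact Real.sq_sqrt (by linarith)
  have hc : (1 + cs) ≠ 0 := by
    unfold cs
    positivity
  rw [div_pow, hsn, div_eq_iff (pow_ne_zero 2 hc)]
  unfold cs
  linear_combination (3 / 16 + Real.sqrt 5 / 40) * h5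

end M_L10E

theorem t_L10E : Stmt_L10E := by
  intro x y hxy
  have h5 : Real.sqrt 5 ^ 2 = 5 := Real.sq_sqrt (by norm_num)
  have h1 : 1 ≤ Real.sqrt 5 := by
    rw [show (1 : ℝ) = Real.sqrt 1 by simp]
    exact Real.sqrt_le_sqrt (by norm_num)
  have h55 : Real.sqrt 5 < 5 := by
    rw [Real.sqrt_lt' (by norm_num)]
    norm_num
  have h := M_L10E.iso10 (Real.sqrt 5) (sn / (1 + cs)) (x 0) (x 1) (x 2) (x 3) (x 4) (x 5) (x 6) (x 7) (x 8) (x 9)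
    (y 0) (y 1) (y 2) (y 3) (y 4) (y 5) (y 6) (y 7) (y 8) (y 9) h5 h1 M_L10E.hT2
  have hF : Fa x y = 1 / 2 * ((x 0 * y 1 - x 1 * y 0) + (x 1 * y 2 - x 2 * y 1) + (x 2 * y 3 - x 3 * y 2) + (x 3 * y 4 - x 4 * y 3) + (x 4 * y 5 - x 5 * y 4) + (x 5 * y 6 - x 6 * y 5) + (x 6 * y 7 - x 7 * y 6) + (x 7 * y 8 - x 8 * y 7) + (x 8 * y 9 - x 9 * y 8) + (x 9 * y 0 - x 0 * y 9)) := by
    unfold Fa
    rw [M_L10E.sum10]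
    rfl
  have hQ : Qe x y = ((x 1 - x 0) ^ 2 + (y 1 - y 0) ^ 2) + ((x 2 - x 1) ^ 2 + (y 2 - y 1) ^ 2) + ((x 3 - x 2) ^ 2 + (y 3 - y 2) ^ 2) + ((x 4 - x 3) ^ 2 + (y 4 - y 3) ^ 2) + ((x 5 - x 4) ^ 2 + (y 5 - y 4) ^ 2) + ((x 6 - x 5) ^ 2 + (y 6 - y 5) ^ 2) + ((x 7 - x 6) ^ 2 + (y 7 - y 6) ^ 2) + ((x 8 - x 7) ^ 2 + (y 8 - y 7) ^ 2) + ((x 9 - x 8) ^ 2 + (y 9 - y 8) ^ 2) + ((x 0 - x 9) ^ 2 + (y 0 - y 9) ^ 2) := by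
    unfold Qe
    rw [M_L10E.sum10]
    rfl
  rw [hF, hQ] at hxy
  have hr := M_L10E.RR_nonneg (Real.sqrt 5) ((x 0 + x 5) / 2) ((x 1 + x 6) / 2) ((x 2 + x 7) / 2) ((x 3 + x 8) / 2)
    ((x 4 + x 9) / 2) (by linarith) h55.le
  have hr' := M_L10E.RR_nonneg (Real.sqrt 5) ((y 0 + y 5) / 2) ((y 1 + y 6) / 2) ((y 2 + y 7) / 2) ((y 3 + y 8) / 2)
    ((y 4 + y 9) / 2) (by linarith) h55.le
  obtain ⟨a1, a2, a3, a4⟩ := M_L10E.RR_zero (Real.sqrt 5) ((x 0 + x 5) / 2) ((x 1 + x 6) / 2) ((x 2 + x 7) / 2)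
    ((x 3 + x 8) / 2) ((x 4 + x 9) / 2) h1 h55 (by linarith)
  obtain ⟨b1, b2, b3, b4⟩ := M_L10E.RR_zero (Real.sqrt 5) ((y 0 + y 5) / 2) ((y 1 + y 6) / 2) ((y 2 + y 7) / 2)
    ((y 3 + y 8) / 2) ((y 4 + y 9) / 2) h1 h55 (by linarith)
  have key : ∀ z : Fin 10 → ℝ, (z 1 + z 6) / 2 = (z 0 + z 5) / 2 → (z 2 + z 7) / 2 = (z 0 + z 5) / 2 →
      (z 3 + z 8) / 2 = (z 0 + z 5) / 2 → (z 4 + z 9) / 2 = (z 0 + z 5) / 2 →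
      ∀ k, z k + z (k + 5) = z 0 + z 5 := by
    intro z c1 c2 c3 c4 k
    have e5 : ∀ i : Fin 10, i + 5 + 5 = i := by decide
    have h : ∀ i : Fin 10, i = 0 ∨ i = 1 ∨ i = 2 ∨ i = 3 ∨ i = 4 ∨ i = 5 ∨ i = 6 ∨ i = 7 ∨ i = 8 ∨ i = 9 := by
      decide
    rcases h k with h | h | h | h | h | h | h | h | h | h <;> subst h
    · rw [show (0 : Fin 10) + 5 = 5 by decide]
    · rw [show (1 : Fin 10) + 5 = 6 by decide]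
      linarith
    · rw [show (2 : Fin 10) + 5 = 7 by decide]
      linarith
    · rw [show (3 : Fin 10) + 5 = 8 by decide]
      linarith
    · rw [show (4 : Fin 10) + 5 = 9 by decide]
      linarith
    · rw [show (5 : Fin 10) + 5 = 0 by decide]
      linarith
    · rw [show (6 : Fin 10) + 5 = 1 by decide]
      linarith
    · rw [show (7 : Fin 10) + 5 = 2 by decide]
      linarith
    · rw [show (8 : Fin 10) + 5 = 3 by decide]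
      linarith
    · rw [show (9 : Fin 10) + 5 = 4 by decide]
      linarith
  exact ⟨key x a1 a2 a3 a4, key y b1 b2 b3 b4⟩

end Pool.Agent.ICE
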