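import Pool.Agent.IcoLocal.Nbhd
import Pool.Agent.ICE.Stmts

/-!
# ROTI: turn a direction into the third axis by a linear isometry
-/

set_option autoImplicit false

open Matrix
open scoped RealInnerProductSpace

namespace Pool.Agent.ICE

open Pool.Agent.ICL Pool.Agent.Results.MP_fa01f0_gt.CentrallySymmetric
open Pool.Agent.IcoLocal

namespace M_ROTI

/-- An orthonormal basis with given last vector. -/
theorem exists_basis (u : E3) (hu : ‖u‖ = 1) :
    ∃ b : OrthonormalBasis (Fin 3) ℝ E3, b 2 = u := by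
  have hon : Orthonormal ℝ (({2} : Set (Fin 3)).domRestrict (fun _ : Fin 3 => u)) := by
    constructor
    · intro i
      exact hu
    · intro i j hij
      exact absurd (Subsingleton.elim i j) hij
  obtain ⟨b, hb⟩ := hon.exists_orthonormalBasis_extension_of_card_eq (v := fun _ : Fin 3 => u)
    (s := {2}) (by simp)
  exact ⟨b, hb 2 (Set.mem_singleton _)⟩

/-- The matrix of the basis is orthogonal. -/
theorem orth (b : OrthonormalBasis (Fin 3) ℝ E3) :
    (Matrix.of fun j i => b i j)ᵀ * (Matrix.of fun j i => b i j) = (1 : Matrix (Fin 3) (Fin 3) ℝ) := by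
  ext i k
  rw [Matrix.mul_apply, Matrix.one_apply]
  have h1 := orthonormal_iff_ite.1 b.orthonormal i k
  rw [PiLp.inner_apply] at h1
  simp only [Matrix.transpose_apply, Matrix.of_apply]
  rw [← h1]
  refine Finset.sum_congr rfl fun l _ => ?_
  change b i l * b k l = inner ℝ (b i l) (b k l)
  rw [real_inner_comm]
  simp

/-- The coordinates in the basis. -/
theorem repr_eq (b : OrthonormalBasis (Fin 3) ℝ E3) (z : E3) :
    b.repr z = simL 1 (Matrix.of fun j i => b i j) z := by
  ext i
  rw [OrthonormalBasis.repr_apply_apply, PiLp.inner_apply]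
  change _ = (1 • ((Matrix.of fun j i => b i j)ᵀ *ᵥ z.ofLp)) i
  rw [one_smul, Matrix.mulVec, dotProduct]
  refine Finset.sum_congr rfl fun j _ => ?_
  simp [Matrix.transpose_apply, mul_comm]

end M_ROTI

open M_ROTI in
theorem t_ROTI : Stmt_ROTI := by
  intro n hn
  have hn0 : 0 < ‖n‖ := norm_pos_iff.2 hn
  obtain ⟨b, hb⟩ := exists_basis (‖n‖⁻¹ • n) (by
    rw [norm_smul, norm_inv, norm_norm, inv_mul_cancel₀ hn0.ne'])
  have hR := orth b
  refine ⟨b.repr, fun w => ?_, fun w => ?_, fun z => ?_⟩
  · simp only [repr_eq]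
    rw [simL_area 1 hR]
    ring
  · simp only [repr_eq]
    rw [simL_vol 1 _, mul_pow, mul_pow, det_sq hR]
    ring
  · rw [OrthonormalBasis.repr_apply_apply, hb, real_inner_smul_left]
    rw [div_eq_mul_inv, mul_comm]

end Pool.Agent.ICE
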