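import Pool.Agent.ICL.StmtsP

/-!
# Icosahedra with two opposite links in parallel planes: the equality case (MP_fa01f0_gt)

TARGET (stronger form of MP_fa01f0_gt.ParallelLinks, which is on main): every `w₀` of the class with
`vol w₀ ≠ 0` has a neighbourhood in which Steiner's inequality holds, with equality only for similar copies
of the regular icosahedron.

PLAN. Equality for `w₀` forces equality in the isoperimetric inequality of the decagon `u + l` (and equal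
perimeters), so the decagon is centrally symmetric, so the midpoints of `w₀ i, w₀ (i + 6)` coincide for the ten
neighbours, so the six midpoints are collinear and `Pool.Agent.IcoLocal.near_collinear` applies; otherwise the
inequality is strict at `w₀` and hence near `w₀`.

Everything in this file refers to the definitions of `Pool/Agent/ICL/Defs.lean`.
-/

set_option autoImplicit false

namespace Pool.Agent.ICE

open Pool.Agent.ICL

/-- EQC. A closed polygon with equality in the isoperimetric inequality has equal edges, hence equality in the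
`L²` inequality. PROOF. Let `C = 1 / (4 n t)`, `P = Pe x y > 0`, `Fa x y = C P²`, and `Fa ≤ C Pe²` for all polygons.
CLAIM: the edges `z (k-1) z k` and `z k z (k+1)` have the same length for all `k`. Let `A = z (k-1)`, `B = z (k+1)`,
`Z = z k`, `l1 = |Z - A|`, `l2 = |B - Z|`, `l1 ≠ l2`; then `d = |B - A| > 0`. Replacing `Z` by `(u, v)` changes only
two edges and changes `Fa` by `((u - x k) (B2 - A2) - (v - y k) (B1 - A1)) / 2` (see `Pool/Agent/ICL/EQE.lean`).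
With `D = ⟨Z - (A+B)/2, B - A⟩`, `H = (Z1 - (A1+B1)/2)(B2 - A2) - (Z2 - (A2+B2)/2)(B1 - A1)`:
`l1² - l2² = 2 D`, so `D ≠ 0`; `l1² l2² = (H²/d² - D²/d² + d²/4)² + 4 H² D²/d⁴`.
Case 1: `l1 + l2 > d`. Put `η = √((l1+l2)² - d²)/2 > 0` and `(u, v) = (A+B)/2 + η (B2-A2, -(B1-A1))/d`: the perimeter is
unchanged and the area changes by `(η d - H)/2`. Here `H < η d`: if `H ≤ 0` this is clear, and if `H > 0` then
`4 H²/d² + d² < (l1+l2)²` by the identity for `l1² l2²` (`H D ≠ 0`). So `Fa > C P²`, a contradiction.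
Case 2: `l1 + l2 = d` (`Z` is on the segment `AB`, `H = 0`). Put `(u, v) = (A+B)/2 + ε (B2-A2, -(B1-A1))/d` with
a small `ε > 0`: the area increases by `ε d / 2` and the perimeter by `2 √(d²/4 + ε²) - d ≤ 2 ε²/d`, so
`C (P + 2 ε²/d)² < C P² + ε d/2` for `ε` small, a contradiction.
CONCLUSION: all edges have the same length `l` (induction along `k, k+1, ..`), `Qe = n l²`, `Pe = n l`, so
`4 t Fa = Pe²/n = Qe` (see `Pool/Agent/ICL/MAX.lean` for the last step). -/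
def Stmt_EQC : Prop := ∀ (n : ℕ) [NeZero n], 3 ≤ n → ∀ t : ℝ, 0 < t →
  (∀ x y : Fin n → ℝ, 4 * n * t * Fa x y ≤ Pe x y ^ 2) →
  ∀ x y : Fin n → ℝ, 0 < Pe x y → 4 * n * t * Fa x y = Pe x y ^ 2 → 4 * t * Fa x y = Qe x y

/-- L10E. A decagon with equality in `L10` is centrally symmetric. PROOF. In the proof of `L10`
(`Pool/Agent/ICL/L10.lean`) `Qe - 4 T Fa` is a sum of nonnegative terms (with positive coefficients), among them, with
`e_k = (x_k + x_{k+5})/2`, `E` their mean, `φ = (1+√5)/2`: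
`w1 ∑ (e_{k+1} + e_{k-1} + φ e_k - (2+φ) E)²` and `w2 ∑ (e_{k+1} + e_{k-1} - e_k/φ - (2-1/φ) E)²`, `w1, w2 > 0`, and the
same for `y`. If all these squares vanish, then subtracting the two families gives `(φ + 1/φ) (e_k - E) = 0`, so
`x_k + x_{k+5} = 2 E` for all `k`. -/
def Stmt_L10E : Prop := ∀ x y : Fin 10 → ℝ, 4 * (sn / (1 + cs)) * Fa x y = Qe x y →
  (∀ k, x k + x (k + 5) = x 0 + x 5) ∧ ∀ k, y k + y (k + 5) = y 0 + y 5

/-- The reduced inequality with constant `g`. -/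
def IneqG (g a b A1 A2 M r1 r2 : ℝ) : Prop :=
  ∀ p q h : ℝ, 0 ≤ p → 0 ≤ q → 0 ≤ h →
    27 * g * (p * A1 + q * A2 + h * M) ^ 2 ≤ 4 * Ag a b A1 A2 r1 r2 p q h ^ 3

/-- The reduced inequality for all signs, with constants `g` and `s` (instead of `√5`). -/
def RIG (g s : ℝ) : Prop := ∀ a b A1 A2 t : ℝ, 0 ≤ a → 0 ≤ b → |A1| ≤ a ^ 2 → |A2| ≤ b ^ 2 →
  2 * |t| * (a * b) + |A1 * b ^ 2 + A2 * a ^ 2| ≤ 2 * s * (a * b) ^ 2 → |t| ≤ s * (a * b) →
  ∀ p q h : ℝ, 27 * g * (p * A1 + q * A2 + h * (A1 + A2 + t)) ^ 2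
    ≤ 4 * Ag a b A1 A2 (t - A1) (t - A2) p q h ^ 3

/-- The mixed case with constant `g`, decagon constraint tight. -/
def MXT (g : ℝ) : Prop := ∀ a b A1 A2 t : ℝ, 0 < b → 2 * b ≤ a → 0 ≤ A1 → A1 ≤ a ^ 2 → 0 ≤ A2 → A2 ≤ b ^ 2 →
  Real.sqrt 5 * (a * b) ^ 2 ≤ t * (a * b) + (A1 * b ^ 2 + A2 * a ^ 2) / 2 →
  t * (a * b) + (A1 * b ^ 2 - A2 * a ^ 2) / 2 ≤ Real.sqrt 5 * (a * b) ^ 2 →
  IneqG g a b A1 A2 (A1 + A2 + t) (t - A1) (t + A2)

/-- FB, strict if `b < a`. -/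
def FBS : Prop := ∀ a b A1 A2 t : ℝ, 0 < b → b < a → 0 ≤ A1 → A1 ≤ a ^ 2 → 0 ≤ A2 → A2 ≤ b ^ 2 →
  t * (a * b) + (A1 * b ^ 2 + A2 * a ^ 2) / 2 = Real.sqrt 5 * (a * b) ^ 2 →
  ∃ g : ℝ, g0 < g ∧ IneqG g a b A1 A2 (A1 + A2 + t) (t - A1) (t - A2)

/-- EQD. Equality in the reduced inequality. PROOF. `V` is the bracket with `p, q, h` (`V ≠ 0`), `0 < g0`; the last
hypothesis is equality. (1) `ab > 0` and the constraint is tight: otherwise there is `s` with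
`2236/1000 ≤ s < √5` for which the two constraints hold (if `ab = 0` then `t = 0` and any `s`; if `ab > 0` take
`s = max (2236/1000) (left side / (2 (ab)²))`, and `|t| ≤ s ab` follows), and `RIG g s`, `g0 < g`, gives a
strict inequality. As in `Pool/Agent/ICL/SG.lean`: `Ag` depends only on `|A_i|, |r_i|, |p|, |q|, |h|`, increases with
`|r_i|`, strictly (`Real.sqrt_lt_sqrt`), and `|V| ≤ |p| |A1| + |q| |A2| + |h| |A1 + A2 + t|`. `t ≠ 0`, as
`|A1 b² + A2 a²| ≤ 2 (ab)² < 2 √5 (ab)²`.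
(2) `A1 A2 < 0` is impossible. As in SG we may assume `t > 0` and `A1 > 0 > A2 = -G`. With
`t0 = √5 a b - (A1 b/a + G a/b)/2 ≥ (√5-1) a b > 0` tightness gives `t - t0 = min (A1 b/a) (G a/b)`, so
`t0 < t ≤ t0 + G a/b`. If `a ≤ 2 b`: `t ≤ t0 + 2 G`, so `|A1 - G + t| ≤ A1 + G + t0`; `f(T) = √((T-A1)² + (h a)²) +
√((T+G)² + (h b)²)` is nondecreasing for `T ≥ a b` (SG), so
`f(t) ≥ f(t0) > √((t0-A1)² + (h a)²) + √((t0-G)² + (h b)²)` because `t0 + G > |t0 - G|`; the data `(A1, G, t0)` are tight,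
FB (for `(a, b)` or, if `a < b`, exchanged) gives `27 g0 V² ≤ 4 (..)³ < 4 Ag³`. If `2 b < a`: MXT with `g > g0` for
`(A1, G, t)`, `|A1 - G + t| ≤ A1 + G + t`, strict as `V ≠ 0`.
(3) `A1 A2 ≥ 0`: the data `|A1|, |A2|, |t|` are tight, `V' = |p| |A1| + |q| |A2| + |h| (|A1| + |A2| + |t|) ≥ |V| > 0`,
`Ag ≥ Ag'` (`|t - A_i| ≥ | |t| - |A_i| |`). If `a ≠ b`, FBS (exchanged if `a < b`) gives `27 g0 V² < 27 g V'² ≤ 4 Ag³`.
So `a = b`. If `A_i t < 0` for some `i` then `|t - A_i| = |t| + |A_i| > | |t| - |A_i| |`, so `Ag > Ag'` and FB gives a strict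
inequality. -/
def Stmt_EQD : Prop := (∀ s : ℝ, 2236 / 1000 ≤ s → s < Real.sqrt 5 → ∃ g : ℝ, g0 < g ∧ RIG g s) →
  (∃ g : ℝ, g0 < g ∧ MXT g) → FBS → FB → 0 < g0 →
  ∀ a b A1 A2 t : ℝ, 0 ≤ a → 0 ≤ b → |A1| ≤ a ^ 2 → |A2| ≤ b ^ 2 →
  2 * |t| * (a * b) + |A1 * b ^ 2 + A2 * a ^ 2| ≤ 2 * Real.sqrt 5 * (a * b) ^ 2 → |t| ≤ Real.sqrt 5 * (a * b) →
  ∀ p q h : ℝ, p * A1 + q * A2 + h * (A1 + A2 + t) ≠ 0 →
    4 * Ag a b A1 A2 (t - A1) (t - A2) p q h ^ 3 ≤ 27 * g0 * (p * A1 + q * A2 + h * (A1 + A2 + t)) ^ 2 →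
  a = b ∧ 0 < a ∧ 2 * |t| * (a * b) + |A1 * b ^ 2 + A2 * a ^ 2| = 2 * Real.sqrt 5 * (a * b) ^ 2 ∧
    ((0 ≤ A1 ∧ 0 ≤ A2 ∧ 0 < t) ∨ (A1 ≤ 0 ∧ A2 ≤ 0 ∧ t < 0))

end Pool.Agent.ICE
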